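import Pool.Agent.MP_993212_an.H46.Iface

/-! Statements of the pieces of the decision engine. -/

namespace Pool.Agent.MP_993212_an.H46

open Matrix

/-- admissible bound functions -/
def PB (F : ℕ → ℕ) : Prop := Primrec F ∧ Monotone F

abbrev MZ (n : ℕ) := Matrix (Fin n) (Fin n) ℤ

/-- sum of the absolute values of the coordinates -/
def vs {α : Type} [Fintype α] (x : α → ℤ) : ℕ := ∑ i, (x i).natAbs

/-- reduced bases of sublattices -/
def RB : Prop :=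
  ∃ F, PB F ∧ ∀ (m : ℕ) (L : Submodule ℤ (Fin m → ℤ)), ∃ (r : ℕ) (b : Fin r → Fin m → ℤ),
    r ≤ m ∧ Submodule.span ℤ (Set.range b) = L ∧ (∀ k, b k ≠ 0) ∧
      ∀ (t : Fin r → ℤ) (k : Fin r), (t k).natAbs * vs (b k) ≤ F m * vs (∑ i, t i • b i)

/-- bounded generators of kernels -/
def KER : Prop :=
  ∃ F, PB F ∧ ∀ (α β : Type) [Fintype α] [Fintype β] (S : Matrix α β ℤ) (N : ℕ),
    Fintype.card α ≤ N → Fintype.card β ≤ N → sz S ≤ N →
    ∃ (s : ℕ) (K : Fin s → β → ℤ), s ≤ F N ∧ (∀ j, vs (K j) ≤ F N) ∧ (∀ j, S *ᵥ K j = 0) ∧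
      ∀ x, S *ᵥ x = 0 → x ∈ Submodule.span ℤ (Set.range K)

/-- bounded solutions of linear systems -/
def SOL : Prop :=
  ∃ F, PB F ∧ ∀ (α β : Type) [Fintype α] [Fintype β] (S : Matrix α β ℤ) (N : ℕ) (x : β → ℤ),
    Fintype.card α ≤ N → Fintype.card β ≤ N → sz S ≤ N → vs (S *ᵥ x) ≤ N →
    ∃ x0, S *ᵥ x0 = S *ᵥ x ∧ vs x0 ≤ F N

/-- short paths up to a relation with finitely many colours -/
def PATH : Prop :=
  ∀ (α : Type) (step : ℕ → α → Prop) (st E : α → α → Prop) (col : α → ℕ) (T : ℕ),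
    (∀ r a b, step r a → st a b → step (r + 1) b) →
    (∀ r b, step (r + 1) b → ∃ a, step r a ∧ st a b) →
    (∀ r r' a b, step r a → step r' b → col a = col b → E a b) → (∀ a, col a < T) →
    (∀ a b c, E a b → E b c → E a c) →
    (∀ r r' a a' b, step r a → step r' a' → E a a' → st a' b → ∃ b', st a b' ∧ E b' b) →
    ∀ r b, step r b → ∃ r' b', r' ≤ T ∧ step r' b' ∧ E b' b

section Rad

variable {ι : Type} [Fintype ι] [DecidableEq ι] {L : Subring (Matrix ι ι ℤ)}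

/-- the trace radical twisted by a power of `θ` -/
def Jr (θ x : L) : Prop :=
  ∀ y : L, trace ((x * y * θ ^ Fintype.card ι : L) : Matrix ι ι ℤ) = 0

end Rad

/-- the radical is nilpotent up to `θ`-torsion -/
def NIL : Prop :=
  ∀ (ι : Type) [Fintype ι] [DecidableEq ι] (L : Subring (Matrix ι ι ℤ)) (θ : L),
    (∀ x, θ * x = x * θ) → ∀ l : List L, l.length = Fintype.card ι → (∀ x ∈ l, Jr θ x) →
    θ ^ (Fintype.card ι * Fintype.card ι) * l.prod = 0

/-- bounded generators of the part of the radical commuting with `p` -/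
def JG : Prop :=
  ∃ F, PB F ∧ ∀ (ι : Type) [Fintype ι] [DecidableEq ι] (L : Subring (Matrix ι ι ℤ)) (θ p : L)
    (s : ℕ) (a : Fin s → L) (N : ℕ), Fintype.card ι ≤ N → s ≤ N →
    (∀ i, sz (a i : Matrix ι ι ℤ) ≤ N) → sz (θ : Matrix ι ι ℤ) ≤ N → sz (p : Matrix ι ι ℤ) ≤ N →
    (∀ x, x ∈ Submodule.span ℤ (Set.range a)) →
    ∃ (t : ℕ) (w : Fin t → L), t ≤ F N ∧ (∀ j, sz (w j : Matrix ι ι ℤ) ≤ F N) ∧
      ∀ x, x ∈ Submodule.span ℤ (Set.range w) ↔ Jr θ x ∧ x * p = p * x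

/-- bounded coset representatives in the unipotent part -/
def UNI : Prop :=
  ∃ F, PB F ∧ ∀ (L : Type) [Ring L] (ν : L → ℕ) (θ : L) (s : ℕ) (w : Fin s → L) (H : L → Prop)
    (e D N : ℕ), (∀ x y, ν (x + y) ≤ ν x + ν y) → (∀ x y, ν (x * y) ≤ ν x * ν y) → ν 0 = 0 →
    (∀ x, θ * x = x * θ) →
    (∀ i j, w i * w j ∈ Submodule.span ℤ (Set.range w)) →
    (∀ i, θ * w i ∈ Submodule.span ℤ (Set.range w)) →
    (∀ l : List L, l.length = D → (∀ x ∈ l, x ∈ Submodule.span ℤ (Set.range w)) →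
      θ ^ (D * D) * l.prod = 0) →
    (∀ x y, H x → H y → H (x * y)) → (∀ x y a b, θ ^ a * x = θ ^ b * y → H x → H y) → H 1 →
    (∀ k, ∀ z ∈ Submodule.span ℤ (Set.range w), H ((θ ^ k + z) ^ e)) →
    1 ≤ e → e ≤ N → D ≤ N → s ≤ N → (∀ i, ν (w i) ≤ N) →
    ∀ k, ∀ x ∈ Submodule.span ℤ (Set.range w), ∃ x0 ∈ Submodule.span ℤ (Set.range w),
      ∃ (h : L) (a b : ℕ), ν x0 ≤ F N ∧ H h ∧ θ ^ a * (1 + x0) = θ ^ b * h * (θ ^ k + x)

/-- `x'` inverts `x` up to a power of `θ` -/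
def Un {L : Type} [Ring L] (θ x x' : L) (k : ℕ) : Prop := x * x' = θ ^ k ∧ x' * x = θ ^ k

/-- the engine: every coset of a subgroup of bounded index contains a bounded element -/
def ENG : Prop :=
  ∃ F, PB F ∧ ∀ (ι : Type) [Fintype ι] [DecidableEq ι] (L : Subring (Matrix ι ι ℤ)) (θ p : L)
    (s : ℕ) (a : Fin s → L) (H : L → Prop) (col : L → ℕ) (N : ℕ), Fintype.card ι ≤ N → s ≤ N →
    (∀ i, sz (a i : Matrix ι ι ℤ) ≤ N) → sz (θ : Matrix ι ι ℤ) ≤ N → sz (p : Matrix ι ι ℤ) ≤ N →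
    (∀ x, x ∈ Submodule.span ℤ (Set.range a)) → (∀ x, θ * x = x * θ) → p * p = p →
    (∀ x y, H x → H y → H (x * y)) → (∀ x y a b, θ ^ a * x = θ ^ b * y → H x → H y) →
    (∀ x, col x < N) →
    (∀ x x' k y y' j, Un θ x x' k → Un θ y y' j → x * p = p * x → x' * p = p * x' →
      y * p = p * y → y' * p = p * y' → col x = col y → H (x * y')) →
    ∀ φ φ' k, Un θ φ φ' k → p * φ = φ * (1 - p) → p * φ' = φ' * (1 - p) →
    ∃ (ψ ψ' : L) (j : ℕ), Un θ ψ ψ' j ∧ p * ψ = ψ * (1 - p) ∧ p * ψ' = ψ' * (1 - p) ∧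
      sz (ψ : Matrix ι ι ℤ) ≤ F N ∧ sz (ψ' : Matrix ι ι ℤ) ≤ F N ∧ j ≤ F N ∧ H (ψ * φ')

/-- the statement of the problem -/
def Goal : Prop :=
  ComputablePred (fun p : List (List ℕ) × List (List ℕ) =>
    Relation.TransGen
      (fun X Y : (Σ n : ℕ, Matrix (Fin n) (Fin n) ℕ) =>
        ∃ R : Matrix (Fin X.1) (Fin Y.1) ℕ, ∃ S : Matrix (Fin Y.1) (Fin X.1) ℕ,
          X.2 = R * S ∧ Y.2 = S * R)
      ⟨p.1.length, Matrix.of (fun i j => (p.1.getD (i : ℕ) []).getD (j : ℕ) 0)⟩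
      ⟨p.2.length, Matrix.of (fun i j => (p.2.getD (i : ℕ) []).getD (j : ℕ) 0)⟩)

/-! Basic facts on sizes and bounds -/

theorem PB.id : PB fun x => x := ⟨Primrec.id, fun _ _ h => h⟩

theorem PB.const (c : ℕ) : PB fun _ => c := ⟨Primrec.const c, fun _ _ _ => le_rfl⟩

theorem PB.add {F G : ℕ → ℕ} (hF : PB F) (hG : PB G) : PB fun x => F x + G x :=
  ⟨Primrec.nat_add.comp hF.1 hG.1, fun _ _ h => Nat.add_le_add (hF.2 h) (hG.2 h)⟩

theorem PB.mul {F G : ℕ → ℕ} (hF : PB F) (hG : PB G) : PB fun x => F x * G x :=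
  ⟨Primrec.nat_mul.comp hF.1 hG.1, fun _ _ h => Nat.mul_le_mul (hF.2 h) (hG.2 h)⟩

theorem PB.comp {F G : ℕ → ℕ} (hF : PB F) (hG : PB G) : PB fun x => F (G x) :=
  ⟨hF.1.comp hG.1, fun _ _ h => hF.2 (hG.2 h)⟩

/-- powers with a positive base -/
theorem PB.pow {F G : ℕ → ℕ} (hF : PB F) (hG : PB G) : PB fun x => (F x + 1) ^ G x :=
  ⟨(Primrec₂.unpaired'.1 Nat.Primrec.pow).comp (Primrec.succ.comp hF.1) hG.1, fun _ _ h =>
    (Nat.pow_le_pow_left (Nat.succ_le_succ (hF.2 h)) _).trans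
      (Nat.pow_le_pow_right (Nat.succ_pos _) (hG.2 h))⟩

theorem primrec_factorial : Primrec Nat.factorial :=
  (Primrec.nat_rec₁ 1 (Primrec.nat_mul.comp (Primrec.succ.comp Primrec.fst) Primrec.snd).to₂).of_eq
    fun n => by induction n <;> simp [*, Nat.factorial]

theorem PB.fact {F : ℕ → ℕ} (hF : PB F) : PB fun x => (F x).factorial :=
  ⟨primrec_factorial.comp hF.1, fun _ _ h => Nat.factorial_le (hF.2 h)⟩

/-- iteration of an inflationary bound -/
theorem PB.iter {F G K : ℕ → ℕ} (hF : PB F) (h : ∀ x, x ≤ F x) (hG : PB G) (hK : PB K) :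
    PB fun x => F^[G x] (K x) := by
  refine ⟨Primrec.nat_iterate hG.1 hK.1 (hF.1.comp Primrec.snd).to₂, fun x y hxy => ?_⟩
  exact ((hF.2.iterate _) (hK.2 hxy)).trans (Function.monotone_iterate_of_id_le h (hG.2 hxy) _)

section Size

variable {l m n : Type} [Fintype l] [Fintype m] [Fintype n]

theorem le_sz (R : Matrix m n ℤ) (i : m) (j : n) : (R i j).natAbs ≤ sz R :=
  (Finset.single_le_sum (f := fun j => (R i j).natAbs) (fun _ _ => Nat.zero_le _)
    (Finset.mem_univ j)).trans (Finset.single_le_sum (f := fun i => ∑ j, (R i j).natAbs)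
    (fun _ _ => Nat.zero_le _) (Finset.mem_univ i))

theorem sz_le_of {R : Matrix m n ℤ} {c : ℕ} (h : ∀ i j, (R i j).natAbs ≤ c) :
    sz R ≤ Fintype.card m * (Fintype.card n * c) := by
  refine (Finset.sum_le_card_nsmul _ _ (Fintype.card n * c) fun i _ => ?_).trans (by simp)
  exact (Finset.sum_le_card_nsmul _ _ c fun j _ => h i j).trans (by simp)

@[simp] theorem sz_zero : sz (0 : Matrix m n ℤ) = 0 := by simp [sz]

@[simp] theorem sz_neg (R : Matrix m n ℤ) : sz (-R) = sz R := by simp [sz]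

theorem sz_add (R S : Matrix m n ℤ) : sz (R + S) ≤ sz R + sz S := by
  simp only [sz, ← Finset.sum_add_distrib]
  exact Finset.sum_le_sum fun i _ => Finset.sum_le_sum fun j _ => Int.natAbs_add_le _ _

theorem sz_sub (R S : Matrix m n ℤ) : sz (R - S) ≤ sz R + sz S := by
  simpa [sub_eq_add_neg] using sz_add R (-S)

theorem sz_smul (c : ℤ) (R : Matrix m n ℤ) : sz (c • R) = c.natAbs * sz R := by
  simp [sz, Int.natAbs_mul, Finset.mul_sum]

theorem sz_sum {α : Type} (s : Finset α) (f : α → Matrix m n ℤ) :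
    sz (∑ a ∈ s, f a) ≤ ∑ a ∈ s, sz (f a) :=
  Finset.le_sum_of_subadditive sz sz_zero.le sz_add s f

theorem sz_mul (R : Matrix l m ℤ) (S : Matrix m n ℤ) : sz (R * S) ≤ sz R * sz S := by
  have h : ∀ i j, ((R * S) i j).natAbs ≤ ∑ k, (R i k).natAbs * (S k j).natAbs := fun i j => by
    rw [Matrix.mul_apply]
    exact (Int.natAbs_sum_le _ _).trans (by simp [Int.natAbs_mul])
  refine (Finset.sum_le_sum fun i _ => Finset.sum_le_sum fun j _ => h i j).trans ?_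
  rw [sz, Finset.sum_mul]
  refine Finset.sum_le_sum fun i _ => ?_
  rw [Finset.sum_comm, Finset.sum_mul]
  refine Finset.sum_le_sum fun k _ => ?_
  rw [← Finset.mul_sum]
  exact Nat.mul_le_mul_left _ (Finset.single_le_sum (f := fun i => ∑ j, (S i j).natAbs)
    (fun _ _ => Nat.zero_le _) (Finset.mem_univ k))

theorem sz_one [DecidableEq n] : sz (1 : Matrix n n ℤ) = Fintype.card n := by
  simp [sz, Matrix.one_apply, apply_ite Int.natAbs]

theorem sz_pow [DecidableEq n] (R : Matrix n n ℤ) (k : ℕ) :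
    sz (R ^ k) ≤ Fintype.card n * sz R ^ k + sz R ^ k := by
  induction k with
  | zero => simp [sz_one]
  | succ k ih =>
    rw [pow_succ, pow_succ]
    refine (sz_mul _ _).trans ((Nat.mul_le_mul_right _ ih).trans (le_of_eq (by ring)))

theorem le_vs (x : n → ℤ) (i : n) : (x i).natAbs ≤ vs x :=
  Finset.single_le_sum (f := fun j => (x j).natAbs) (fun _ _ => Nat.zero_le _) (Finset.mem_univ i)

theorem vs_le_of {x : n → ℤ} {c : ℕ} (h : ∀ i, (x i).natAbs ≤ c) : vs x ≤ Fintype.card n * c :=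
  (Finset.sum_le_card_nsmul _ _ c fun j _ => h j).trans (by simp)

end Size

end Pool.Agent.MP_993212_an.H46
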