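import Pool.Agent.MP_993212_an.H16.Defs
import Pool.Agent.MP_993212_an.H12.Code

/-! Interface between the parts of the decision procedure: integer shift equivalences, the support
condition, blocks cut out by level functions, and the four statements used by the final assembly. -/

namespace Pool.Agent.MP_993212_an.H46

open Matrix H16

section Defs

variable {V W V' W' : Type} [Fintype V] [DecidableEq V] [Fintype W] [DecidableEq W]

/-- shift equivalence over the integers with lag `l` -/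
def ZSE (A : Matrix V V ℕ) (B : Matrix W W ℕ) (R : Matrix V W ℤ) (S : Matrix W V ℤ) (l : ℕ) :
    Prop :=
  zz A * R = R * zz B ∧ S * zz A = zz B * S ∧ R * S = zz A ^ l ∧ S * R = zz B ^ l

/-- entrywise absolute value -/
def ab {m n : Type} (R : Matrix m n ℤ) : Matrix m n ℕ := R.map Int.natAbs

/-- sum of the absolute values of the entries -/
def sz {m n : Type} [Fintype m] [Fintype n] (R : Matrix m n ℤ) : ℕ := ∑ i, ∑ j, (R i j).natAbs

/-- the support condition -/
def Pat (A : Matrix V V ℕ) (B : Matrix W W ℕ) (R : Matrix V W ℤ) (S : Matrix W V ℤ) (l : ℕ) :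
    Prop :=
  ∀ i, (∀ u v, (ab R * B ^ i * ab S) u v ≠ 0 → (A ^ (l + i)) u v ≠ 0) ∧
    ∀ u v, (ab S * A ^ i * ab R) u v ≠ 0 → (B ^ (l + i)) u v ≠ 0

/-- levels that do not decrease along the edges of `A ^ q`, `B ^ q`, `R`, `S` -/
def Lev (A : Matrix V V ℕ) (B : Matrix W W ℕ) (R : Matrix V W ℤ) (S : Matrix W V ℤ) (q : ℕ)
    (x : V → ℕ) (y : W → ℕ) : Prop :=
  (∀ u v, (A ^ q) u v ≠ 0 → x u ≤ x v) ∧ (∀ u v, (B ^ q) u v ≠ 0 → y u ≤ y v) ∧
    (∀ u v, R u v ≠ 0 → x u ≤ y v) ∧ ∀ u v, S u v ≠ 0 → y u ≤ x v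

/-- `f`, `g` enumerate one level, and the two diagonal blocks are primitive -/
def Blk [Fintype V'] [DecidableEq V'] [Fintype W'] [DecidableEq W'] (A : Matrix V V ℕ)
    (B : Matrix W W ℕ) (R : Matrix V W ℤ) (S : Matrix W V ℤ) (q : ℕ) (f : V' → V) (g : W' → W) :
    Prop :=
  Function.Injective f ∧ Function.Injective g ∧ Prim ((A ^ q).submatrix f f) ∧
    Prim ((B ^ q).submatrix g g) ∧ ∃ (x : V → ℕ) (y : W → ℕ) (c : ℕ), Lev A B R S q x y ∧
      (∀ u, x u = c ↔ ∃ i, f i = u) ∧ ∀ v, y v = c ↔ ∃ j, g j = v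

end Defs

/-- restriction of a realised equivalence to a primitive block -/
def B1 : Prop :=
  ∀ (n m a b : ℕ) (A : Matrix (Fin n) (Fin n) ℕ) (B : Matrix (Fin m) (Fin m) ℕ)
    (R : Matrix (Fin n) (Fin m) ℤ) (S : Matrix (Fin m) (Fin n) ℤ) (l q : ℕ)
    (f : Fin a → Fin n) (g : Fin b → Fin m), ZSE A B R S l → 1 ≤ q → q ∣ l → 0 < a → 0 < b →
    Blk A B R S q f g → Real A B R →
    Real ((A ^ q).submatrix f f) ((B ^ q).submatrix g g) (R.submatrix f g)

/-- an equivalence with the support condition is realised when all its primitive blocks are -/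
def B2 : Prop :=
  ∀ (n m : ℕ) (A : Matrix (Fin n) (Fin n) ℕ) (B : Matrix (Fin m) (Fin m) ℕ)
    (R : Matrix (Fin n) (Fin m) ℤ) (S : Matrix (Fin m) (Fin n) ℤ) (l : ℕ), ZSE A B R S l → 1 ≤ l →
    n.factorial ∣ l → Pat A B R S l →
    (∀ (q a b : ℕ) (f : Fin a → Fin n) (g : Fin b → Fin m), 1 ≤ q → q ≤ n → 0 < a → 0 < b →
      Blk A B R S q f g →
      Real ((A ^ q).submatrix f f) ((B ^ q).submatrix g g) (R.submatrix f g)) →
    Real A B R

/-- the integer matrix coded by two lists -/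
def zM (n m : ℕ) (p : H12.LL × H12.LL) : Matrix (Fin n) (Fin m) ℤ :=
  zz (H12.toM n m p.1) - zz (H12.toM n m p.2)

/-- non-realisability between primitive matrices has checkable certificates -/
def P1 : Prop :=
  ∃ chk : (H12.LL × H12.LL × H12.LL × H12.LL) × ℕ → Bool, Primrec chk ∧
    ∀ (D E : H12.LL) (r : H12.LL × H12.LL) (S : Matrix (Fin E.length) (Fin D.length) ℤ) (l : ℕ),
      0 < D.length → 0 < E.length → Prim (H12.toM D.length D.length D) →
      Prim (H12.toM E.length E.length E) →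
      ZSE (H12.toM D.length D.length D) (H12.toM E.length E.length E) (zM D.length E.length r) S l →
      (¬ Real (H12.toM D.length D.length D) (H12.toM E.length E.length E)
          (zM D.length E.length r) ↔ ∃ w, chk ((D, E, r), w) = true)

/-- the realised automorphisms of a primitive matrix have explicitly bounded index -/
def P2 : Prop :=
  ∃ g : ℕ → ℕ, Primrec g ∧ Monotone g ∧ ∀ (n : ℕ) (D : Matrix (Fin n) (Fin n) ℕ), 0 < n → Prim D →
    ∃ col : Matrix (Fin n) (Fin n) ℤ → ℕ, (∀ x, col x < g (n + sz (zz D))) ∧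
      ∀ x x' k y y' j, ZSE D D x x' k → ZSE D D y y' j → col x = col y → Real D D (x * y')

/-- a strong shift equivalence yields a realised equivalence of bounded size -/
def BND : Prop :=
  ∃ F : ℕ → ℕ, Primrec F ∧ ∀ (n m : ℕ) (A : Matrix (Fin n) (Fin n) ℕ)
    (B : Matrix (Fin m) (Fin m) ℕ), H12.SSE A B →
    ∃ (R : Matrix (Fin n) (Fin m) ℤ) (S : Matrix (Fin m) (Fin n) ℤ) (l : ℕ), ZSE A B R S l ∧
      1 ≤ l ∧ n.factorial ∣ l ∧ Pat A B R S l ∧ Real A B R ∧
      sz R + sz S + l ≤ F (n + m + sz (zz A) + sz (zz B))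

end Pool.Agent.MP_993212_an.H46
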