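import Pool.Agent.MP_993212_an.H16.Spec4
import Pool.Agent.MP_993212_an.H15.KStab

/-! Choice of the relabelling and the delays; ascent through the relative groups. -/

namespace Pool.Agent.MP_993212_an.H46

open Matrix Polynomial Finset H16 H15

variable {s : Type} [Fintype s] [DecidableEq s]

theorem ascent (h3 : Three s) {p q : s} (hpq : p ≠ q) {ν : ℕ} (val : GL s ℤ[X] → Val)
    (add : ∀ k, 1 ≤ k → k ≤ ν → ∀ U ∈ El s ℤ[X], U ∈ Cn s (tI (ν + 1)) → ∀ U' ∈ El s ℤ[X],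
      U' ∈ Cn s (tI (ν + 1)) → val (U * U') k = val U k + val U' k)
    (deep : ∀ k, 1 ≤ k → k ≤ ν → ∀ U ∈ Hn s (tI (k + 1)), U ∈ Cn s (tI (ν + 1)) → val U k = 0)
    (w : ℕ → GL s ℤ[X]) (w1 : ∀ k, w k ∈ El s ℤ[X] ∧ w k ∈ Cn s (tI (ν + 1)))
    (w2 : ∀ k, 1 ≤ k → k ≤ ν → (w k)⁻¹ * sy p q (X ^ k) X ∈ Hn s (tI (k + 1)))
    (w3 : ∀ k, 1 ≤ k → k < ν → IsUnit (val (w k) (k + 1)))
    (w4 : ∀ k, 2 ≤ k → k ≤ ν → val (w k) k = 0) (hν : 1 ≤ ν) {U : GL s ℤ[X]}
    (h1 : U ∈ El s ℤ[X]) (h2 : U ∈ Cn s (tI (ν + 1))) (h : ∀ k, 2 ≤ k → k ≤ ν → val U k = 0) :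
    U ∈ Hn s (tI ν) := by
  let K := El s ℤ[X] ⊓ Cn s (tI (ν + 1))
  have dec : ∀ k, 1 ≤ k → k ≤ ν → ∀ g ∈ K, g ∈ Hn s (tI k) → ∃ n : ℤ,
      (sy p q (X ^ k) X ^ n)⁻¹ * g ∈ Hn s (tI (k + 1)) ∧ (w k ^ n)⁻¹ * g ∈ Hn s (tI (k + 1)) ∧
      ∀ j, 1 ≤ j → j ≤ ν → val g j = n * val (w k) j + val ((w k ^ n)⁻¹ * g) j :=
    fun k k1 k2 g g1 g2 => by
      obtain ⟨n, hn⟩ := lemmaK h3 k1 hpq g2 (Cn_mono (tI_anti (by omega)) g1.2)
      refine ⟨n, hn, ?_, fun j j1 j2 => ?_⟩
      · rw [← QuotientGroup.eq] at hn ⊢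
        refine Eq.trans ?_ hn
        change QuotientGroup.mk' _ _ = QuotientGroup.mk' _ _
        rw [map_zpow, map_zpow]
        exact congrArg (· ^ n) (QuotientGroup.eq.2 (w2 k k1 k2))
      · let φ : K →* Multiplicative (ZMod j) := MonoidHom.mk' (fun x => .ofAdd (val x j))
          fun x y => congrArg Multiplicative.ofAdd (add j j1 j2 x x.2.1 x.2.2 y y.2.1 y.2.2)
        let a : K := ⟨w k, w1 k⟩
        let b : K := ⟨g, g1⟩
        have e : φ b = φ a ^ n * φ ((a ^ n)⁻¹ * b) := by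
          rw [← map_zpow, ← map_mul, mul_inv_cancel_left]
        have := congrArg Multiplicative.toAdd e
        rw [toAdd_mul, toAdd_zpow, zsmul_eq_mul] at this
        exact this
  have key : ∀ k, 1 ≤ k → k ≤ ν → U ∈ Hn s (tI k) := fun k k1 => by
    induction k, k1 using Nat.le_induction with
    | base => exact fun _ => mem_Hn_one h1 (Cn_mono (tI_anti (by omega)) h2)
    | succ k k1 ih =>
      intro k2
      obtain ⟨n, a1, a2, a3⟩ := dec k k1 (by omega) U ⟨h1, h2⟩ (ih (by omega))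
      have m1 : (w k ^ n)⁻¹ * U ∈ K := mul_mem (inv_mem (zpow_mem (K := K) (w1 k) n)) ⟨h1, h2⟩
      obtain ⟨m, -, b2, b3⟩ := dec (k + 1) (by omega) k2 _ m1 a2
      have c1 := b3 (k + 1) (by omega) k2
      rw [w4 _ (by omega) k2, mul_zero, zero_add, deep _ (by omega) k2 _ b2
        (mul_mem (inv_mem (zpow_mem (K := K) (w1 _) m)) m1).2] at c1
      have c2 := a3 (k + 1) (by omega) k2
      rw [c1, add_zero, h _ (by omega) k2, eq_comm, (w3 k k1 k2).mul_left_eq_zero,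
        ZMod.intCast_zmod_eq_zero_iff_dvd] at c2
      obtain ⟨c, rfl⟩ := c2
      rw [← QuotientGroup.eq] at a1
      rw [← QuotientGroup.eq_one_iff, ← a1]
      change QuotientGroup.mk' _ _ = 1
      rw [map_zpow, _root_.zpow_mul, _root_.zpow_natCast,
        sy_pow_order h3 (mk_xe _) hpq (mem_tI.2 dvd_rfl), _root_.one_zpow]
  exact key ν hν le_rfl

theorem comb_congr {k : ℕ} {x y : ℕ → ℤ} (h : ∀ d, 1 ≤ d → d < k → (2 : ℤ) ∣ x d - y d) :
    comb k 0 x = comb k 0 y := by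
  rw [comb, comb, zero_add, zero_add, mul_sum, mul_sum]
  refine sum_congr rfl fun i hi => ?_
  split_ifs with c
  · obtain ⟨i1, i2⟩ := mem_Icc.1 hi
    obtain ⟨e, he⟩ := (dvd_pow_self 2 (show i ≠ 0 by omega)).trans c
    have a1 : 1 < 2 ^ i := Nat.one_lt_two_pow (by omega)
    obtain ⟨t, ht⟩ := h (k / 2 ^ i) (Nat.div_pos (Nat.le_of_dvd (by omega) c) (by omega))
      (Nat.div_lt_self (by omega) a1)
    have a2 : ((k / 2 : ℕ) : ZMod k) * 2 = 0 := by
      rw [← ZMod.natCast_self k]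
      exact_mod_cast congrArg (Nat.cast : ℕ → ZMod k) (show k / 2 * 2 = k by omega)
    have a3 := congrArg (Int.cast : ℤ → ZMod k) ht
    push_cast at a3
    linear_combination ((k / 2 : ℕ) : ZMod k) * a3 + (t : ZMod k) * a2
  · rfl

/-- relabellings of the single loop states -/
def GoodP (per : s → ℕ) (π : Equiv.Perm s) : Prop :=
  (∀ i, per (π i) = per i) ∧ ∀ i, per i = 0 → π i = i

theorem choice {V : Type} [Fintype V] [DecidableEq V] (A : Matrix V V ℕ) (per : s → ℕ) (h ν : ℕ)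
    (cnt : ∀ k, 1 ≤ k → k < h → k ≤ ν →
      ((Finset.univ.filter fun i => per i = k).card : ℤ) * k = np k A)
    (ex : ∀ k, 1 ≤ k → h ≤ k → k ≤ ν → ∃ i, per i = k) {D : Val}
    (hD : D ∈ Adm A) (W : Equiv.Perm s → Val) (W1 : ∀ k, 1 ≤ k → k ≤ ν → W 1 k = 0)
    (Ws : ∀ π, GoodP per π → ∀ i j, i ≠ j → per i = per j → per i ≠ 0 → ∀ k, 1 ≤ k → k ≤ ν →
      k ≠ per i → W (π * Equiv.swap i j) k = W π k + comb k 0 (Pi.single (per i) 1))
    (u : ℤ) (hu : u * u = 1) : ∃ (π : Equiv.Perm s) (δ : s → ℕ), (∀ i, per (π i) = per i) ∧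
      (∀ i, per i = 0 → π i = i ∧ δ i = 0) ∧ (∀ i, δ i ≤ ν) ∧ ∀ k, 1 ≤ k → k ≤ ν →
        W π k + u * ∑ i, (if per i = k then (δ i : ZMod k) else 0) = D k := by
  obtain ⟨g, x, d1, d2, d3⟩ := hD
  have a1 : ∀ n, n ≤ h → n ≤ ν + 1 → ∃ π, GoodP per π ∧ ∃ y : ℕ → ℤ,
      (∀ d, 1 ≤ d → d < n → (2 : ℤ) ∣ y d - x d) ∧ (∀ d, n ≤ d → y d = 0) ∧
      ∀ k, 1 ≤ k → k ≤ ν → (∀ i, per i ≠ k) → W π k = comb k 0 y := fun n => by
    induction n with
    | zero => exact fun _ _ => ⟨1, ⟨fun _ => rfl, fun _ _ => rfl⟩, 0, fun _ _ c => by omega,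
        fun _ _ => rfl, fun k a b _ => by rw [W1 k a b, comb_zero]⟩
    | succ n ih =>
      intro n1 n2
      obtain ⟨π, b1, y, b2, b3, b4⟩ := ih (by omega) (by omega)
      by_cases c : n = 0 ∨ (2 : ℤ) ∣ x n
      · refine ⟨π, b1, y, fun d e1 e2 => ?_, fun d e => b3 d (by omega), b4⟩
        by_cases e3 : d = n
        · rw [e3, b3 n le_rfl, zero_sub]
          exact (c.resolve_left (by omega)).neg_right
        · exact b2 d e1 (by omega)
      · push Not at c
        have c1 : (n : ℤ) < np n A := not_le.1 fun e => c.2 (by simp [d2 n e])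
        rw [← cnt n (by omega) (by omega) (by omega)] at c1
        have c2 : 1 < (Finset.univ.filter fun i => per i = n).card := by
          by_contra e
          have : ((Finset.univ.filter fun i => per i = n).card : ℤ) ≤ 1 := by exact_mod_cast not_lt.1 e
          nlinarith [Int.natCast_nonneg n]
        obtain ⟨i, hi, j, hj, hij⟩ := one_lt_card.1 c2
        have hi := (mem_filter.1 hi).2
        have hj := (mem_filter.1 hj).2
        refine ⟨π * Equiv.swap i j, ⟨fun l => ?_, fun l e => ?_⟩, y + Pi.single n 1,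
          fun d e1 e2 => ?_, fun d e => ?_, fun k e1 e2 e3 => ?_⟩
        · rw [Equiv.Perm.mul_apply, b1.1, Equiv.swap_apply_def]
          split_ifs with e1 e2
          · rw [e1, hi, hj]
          · rw [e2, hi, hj]
          · rfl
        · rw [Equiv.Perm.mul_apply, Equiv.swap_apply_of_ne_of_ne (fun e1 => c.1 (by rw [← hi, ← e1, e]))
            (fun e1 => c.1 (by rw [← hj, ← e1, e])), b1.2 l e]
        · by_cases e3 : d = n
          · rw [e3, Pi.add_apply, b3 n le_rfl, Pi.single_eq_same]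
            omega
          · rw [Pi.add_apply, Pi.single_eq_of_ne e3, add_zero]
            exact b2 d e1 (by omega)
        · rw [Pi.add_apply, b3 d (by omega), Pi.single_eq_of_ne (by omega), add_zero]
        · rw [Ws π b1 i j hij (hi.trans hj.symm) (hi ▸ c.1) k e1 e2 (e3 i).symm, b4 k e1 e2 e3, hi,
            ← comb_add, add_zero]
  obtain ⟨π, b1, y, b2, -, b4⟩ := a1 (min h (ν + 1)) (min_le_left _ _) (min_le_right _ _)
  classical
  obtain ⟨c, c1, c0⟩ : ∃ c : s → s, (∀ i, per (c i) = per i) ∧ ∀ i j, per i = per j → c i = c j :=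
    ⟨fun i => (⟨i, rfl⟩ : ∃ j, per j = per i).choose, fun i => (⟨i, rfl⟩ : ∃ j, per j = per i).choose_spec,
      fun i j e => by simp only [e]⟩
  let δ : s → ℕ := fun i =>
    if per i ≠ 0 ∧ per i ≤ ν ∧ c i = i then ((u : ZMod (per i)) * (D (per i) - W π (per i))).val else 0
  refine ⟨π, δ, b1.1, fun i e => ⟨b1.2 i e, if_neg fun a => a.1 e⟩, fun i => ?_, fun k k1 k2 => ?_⟩
  · simp only [δ]
    split_ifs with e
    · have : NeZero (per i) := ⟨e.1⟩
      exact (ZMod.val_lt _).le.trans e.2.1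
    · exact Nat.zero_le _
  · by_cases e : ∃ i, per i = k
    · obtain ⟨i, rfl⟩ := e
      have : NeZero (per i) := ⟨by omega⟩
      have c2 : c (c i) = c i := c0 _ _ (c1 i)
      rw [sum_eq_single (c i) (fun j _ hj => ?_) (by simp), if_pos (c1 i)]
      · have e1 : ∀ j, per j = per i → c j = j → ((δ j : ℕ) : ZMod (per i)) =
            u * (D (per i) - W π (per i)) := fun j a b => by
          simp only [δ]
          rw [if_pos ⟨by omega, by omega, b⟩]
          generalize per i = k at a this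
          subst a
          exact ZMod.natCast_zmod_val _
        have e2 := congrArg (Int.cast : ℤ → ZMod (per i)) hu
        push_cast at e2
        rw [e1 _ (c1 i) c2]
        linear_combination (D (per i) - W π (per i)) * e2
      · split_ifs with a
        · simp only [δ]
          rw [if_neg fun b => hj (b.2.2.symm.trans (c0 _ _ a)), Nat.cast_zero]
        · rfl
    · push Not at e
      have k3 : k < h := not_le.1 fun a => (ex k k1 a k2).elim e
      have k4 := cnt k k1 k3 k2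
      rw [filter_false_of_mem fun i _ => e i, card_empty, Nat.cast_zero, zero_mul] at k4
      rw [sum_eq_zero fun i _ => if_neg (e i), mul_zero, add_zero, b4 k k1 k2 e, d3, d1 k k4.symm]
      exact comb_congr fun d a b => b2 d a (by omega)

theorem solveStmt : SolveStmt := by
  intro V s _ _ _ _ A h ν per φ w hw cnt ex h1 h2 h3
  obtain ⟨π, δ, a1, a2, a3, a4⟩ := choice A per h ν cnt ex hw φ h1
    (fun π g i j b1 b2 b3 k k1 k2 k3 => by rw [h2 π _ g.1 g.2 k k1 k2, h3 i j b1 b2 b3 k k1 k2 k3])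
    (-1) (by norm_num)
  refine ⟨π, δ, a1, a2, a3, fun k k1 k2 => ?_⟩
  rw [← a4 k k1 k2, sum_filter]
  push_cast
  ring

end Pool.Agent.MP_993212_an.H46
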