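import Pool.Agent.MP_993212_an.H16.Spec4

/-! A unit delay: presentation and locality of its value. -/

set_option linter.unusedSectionVars false

namespace Pool.Agent.MP_993212_an.H46

open Matrix Polynomial Finset Function H16 H15

variable {s G : Type} [Fintype s] [DecidableEq s] [AddCommGroup G] [Module ℤ[X] G]

theorem unsrc {Y P : Matrix s s ℤ[X]} {ξ ξ' : s → G}
    (h : Pres (fromBlocks 1 (-Y) 0 P) (Sum.elim ξ ξ')) : Pres P ξ' := by
  have e : ξ = pl Y ξ' := funext fun u => by
    have := h.row (Sum.inl u)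
    rw [Fintype.sum_sum_type] at this
    simpa [one_apply, ite_smul, pl, add_neg_eq_zero] using this
  refine ⟨fun g => ?_, fun y => ?_⟩
  · obtain ⟨y, rfl⟩ := h.1 g
    refine ⟨fun v => ((fun w => y (Sum.inl w)) ᵥ* Y) v + y (Sum.inr v), ?_⟩
    rw [Fintype.sum_sum_type, e]
    simp only [Sum.elim_inl, Sum.elim_inr, sum_pl, ← sum_add_distrib, ← add_smul]
  · have := h.2 (Sum.elim 0 y)
    rw [Fintype.sum_sum_type] at this
    simp only [Sum.elim_inl, Sum.elim_inr, Pi.zero_apply, zero_smul, sum_const_zero,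
      zero_add] at this
    rw [this]
    constructor
    · rintro ⟨z, hz⟩
      rw [vecMul_fromBlocks] at hz
      have a : z ∘ Sum.inl = 0 := funext fun u => by simpa using (congrFun hz (Sum.inl u)).symm
      refine ⟨z ∘ Sum.inr, funext fun u => ?_⟩
      simpa [a] using congrFun hz (Sum.inr u)
    · rintro ⟨z, rfl⟩
      refine ⟨Sum.elim 0 z, ?_⟩
      rw [vecMul_fromBlocks]
      funext u
      rcases u with u | u <;> simp

/-- the projection to the state `i` -/
noncomputable def dE (i : s) : Matrix s s ℤ[X] := single i i 1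

/-- the row `i` of `1 - P`, divided by `X` -/
noncomputable def dM (i : s) (P : Matrix s s ℤ[X]) : Matrix s s ℤ[X] := dE i * (1 - P).map divX

theorem dE_sq (i : s) : dE i * dE i = dE i := by simp [dE]

/-- the exchange of the two copies of the state `i` -/
noncomputable def dK (i : s) : GL (s ⊕ s) ℤ[X] :=
  ⟨fromBlocks (dE i) (-(1 - dE i)) (1 - dE i) (dE i),
    fromBlocks (dE i) (1 - dE i) (-(1 - dE i)) (dE i),
    by simp [fromBlocks_multiply, mul_sub, sub_mul, dE_sq],
    by simp [fromBlocks_multiply, mul_sub, sub_mul, dE_sq]⟩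

theorem dly_id {i : s} {P P' : Matrix s s ℤ[X]} (o : One P') (d : Dly (Pi.single i 1) P P') :
    fromBlocks 1 (-(1 - dE i + dM i P')) 0 P' =
      (blkL ((X : ℤ[X]) • dE i) * dK i * blkU (-(dM i P' - (1 - dE i) * P'))).val *
        fromBlocks P 0 (-((X : ℤ[X]) • dE i + (1 - dE i))) 1 := by
  have e0 := dE_sq i
  have e1 : (X : ℤ[X]) • dM i P' = dE i * (1 - P') := by
    rw [dM, ← Matrix.mul_smul]
    congr 1
    ext1 u v
    have := divX_mul_X_add ((1 - P') u v)
    rw [o.sub, map_zero, add_zero] at this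
    rw [Matrix.smul_apply, map_apply, smul_eq_mul, mul_comm, this]
  have e2 : dE i * dM i P' = dM i P' := by rw [dM, ← Matrix.mul_assoc, e0]
  have t : (X : ℤ[X]) • dE i + (1 - dE i) = diagonal fun j => X ^ (Pi.single i 1 : s → ℕ) j := by
    ext1 u v
    by_cases a : u = v
    · subst a
      by_cases b : i = u
      · simp [dE, b]
      · simp [dE, b, Ne.symm b]
    · have b : ¬(i = u ∧ i = v) := fun c => a (c.1.symm.trans c.2)
      simp [dE, a, single_apply, b]
  have e3 : P' * ((X : ℤ[X]) • dE i + (1 - dE i)) = ((X : ℤ[X]) • dE i + (1 - dE i)) * P := by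
    rw [t]
    ext1 u v
    rw [mul_diagonal, diagonal_mul, d]
  have e4 : dE i * P + dM i P' * ((X : ℤ[X]) • dE i + (1 - dE i)) = dE i := by
    refine smul_right_injective _ (X_ne_zero (R := ℤ)) ?_
    beta_reduce
    rw [smul_add, ← Matrix.smul_mul X (dM i P'), e1, Matrix.mul_assoc, sub_mul 1 P', e3]
    simp [mul_sub, mul_add, add_mul, sub_mul, ← Matrix.mul_assoc, e0]
  have e5 : (1 - dE i) * P' * ((X : ℤ[X]) • dE i + (1 - dE i)) = (1 - dE i) * P := by
    rw [Matrix.mul_assoc, e3]
    simp [mul_sub, mul_add, add_mul, sub_mul, ← Matrix.mul_assoc, e0]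
  have e6 : dE i * (dM i P' - (1 - dE i) * P') = dM i P' := by
    simp [mul_sub, sub_mul, ← Matrix.mul_assoc, e0, e2]
  have e7 : (1 - dE i) * (dM i P' - (1 - dE i) * P') = -((1 - dE i) * P') := by
    simp [mul_sub, sub_mul, ← Matrix.mul_assoc, e0, e2]
  have e8 : dE i * ((X : ℤ[X]) • dE i + (1 - dE i)) = (X : ℤ[X]) • dE i := by
    simp [mul_sub, mul_add, e0]
  have e9 : (1 - dE i) * ((X : ℤ[X]) • dE i + (1 - dE i)) = 1 - dE i := by
    simp [mul_sub, mul_add, sub_mul, e0]
  have a : (dK i * blkU (-(dM i P' - (1 - dE i) * P'))).val *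
      fromBlocks P 0 (-((X : ℤ[X]) • dE i + (1 - dE i))) 1 =
      fromBlocks 1 (-(1 - dE i + dM i P')) (-((X : ℤ[X]) • dE i)) ((1 - dE i) * P' + dE i) := by
    rw [Units.val_mul, blkU_val, dK, fromBlocks_multiply, fromBlocks_multiply]
    generalize (X : ℤ[X]) • dE i + (1 - dE i) = T at e4 e5 e8 e9
    simp only [Matrix.mul_one, Matrix.mul_zero, add_zero, zero_add, Matrix.mul_neg, e6, e7,
      neg_neg, Matrix.neg_mul, Matrix.add_mul _ _ T, e5, e8, e9, neg_add_rev]
    congr 1
    · rw [add_comm (1 - dE i), ← add_assoc, e4, add_sub_cancel]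
    · abel
  rw [mul_assoc, Units.val_mul, Matrix.mul_assoc, a, blkL_val, fromBlocks_multiply]
  congr 1
  · simp
  · simp
  · simp
  · rw [Matrix.mul_neg, Matrix.smul_mul, mul_add, e2, smul_add, e1]
    simp [mul_sub, sub_mul, e0]

theorem dly_pl (i : s) (ξ : s → G) : pl ((X : ℤ[X]) • dE i + (1 - dE i)) ξ =
    fun j => (X : ℤ[X]) ^ (Pi.single i 1 : s → ℕ) j • ξ j := by
  funext u
  by_cases e : u = i
  · simp [pl, dE, e, add_smul, sub_smul, sum_add_distrib, one_apply, single_apply, ite_smul]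
  · simp [pl, dE, e, Ne.symm e, add_smul, sub_smul, sum_add_distrib, one_apply, single_apply,
      ite_smul]

theorem dly_pres {i : s} {P P' : Matrix s s ℤ[X]} {ξ : s → G} (o : One P')
    (d : Dly (Pi.single i 1) P P') (h : Pres P ξ) : Pres (fromBlocks 1 (-(1 - dE i + dM i P')) 0 P')
      (Sum.elim ξ fun j => (X : ℤ[X]) ^ (Pi.single i 1 : s → ℕ) j • ξ j) := by
  rw [dly_id o d, ← dly_pl]
  exact (h.src' _).mul (Units.inv_mul _)

theorem dlocStmt (hB : Base) : DLocStmt where
  pres _ _ _ _ _ _ _ _ _ _ _ o d h := unsrc (dly_pres o d h)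
  loc s G G' _ _ _ _ _ _ k o i P P' Q Q' ξ κ hk h3 ho p1 p2 q1 q2 d1 d2 s1 s2 hξ hκ := by
    let o2 : s ⊕ s → ℕ := Sum.elim (fun u => 2 * o u) fun u => 2 * o u + 1
    have ho2 : Injective o2 := by
      rintro (a | a) (b | b) c <;> simp only [o2, Sum.elim_inl, Sum.elim_inr] at c
      · rw [ho (by omega : o a = o b)]
      · omega
      · omega
      · rw [ho (by omega : o a = o b)]
    have t3 : Three (s ⊕ s) := fun a b => by
      obtain ⟨m, h1, h2⟩ := h3 (a.elim id id) (b.elim id id)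
      exact ⟨Sum.inl m, fun c => h1 (by rw [← c]; rfl), fun c => h2 (by rw [← c]; rfl)⟩
    have one : ∀ (G : Type) [AddCommGroup G] [Module ℤ[X] G] (P P' : Matrix s s ℤ[X]) (ξ : s → G),
        One P → One P' → Dly (Pi.single i 1) P P' → Pres P ξ →
        Inv0 (fromBlocks P 0 (-((X : ℤ[X]) • dE i + (1 - dE i))) 1) ∧
        pn o P ξ = pn o2 (fromBlocks P 0 (-((X : ℤ[X]) • dE i + (1 - dE i))) 1)
          (Sum.elim ξ (pl ((X : ℤ[X]) • dE i + (1 - dE i)) ξ)) ∧
        pn o P' (fun j => (X : ℤ[X]) ^ (Pi.single i 1 : s → ℕ) j • ξ j) =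
          pn o2 ((blkL ((X : ℤ[X]) • dE i) * dK i * blkU (-(dM i P' - (1 - dE i) * P'))).val *
            fromBlocks P 0 (-((X : ℤ[X]) • dE i + (1 - dE i))) 1)
            (Sum.elim ξ (pl ((X : ℤ[X]) • dE i + (1 - dE i)) ξ)) := by
      intro G _ _ P P' ξ a b d h
      have i2 : Inv0 (fromBlocks P 0 (-((X : ℤ[X]) • dE i + (1 - dE i))) 1) := by
        rw [Inv0, cof_blocks, Matrix.map_zero _ (by simp), det_fromBlocks_zero₁₂,
          one_iff.1 one_one, det_one, mul_one]
        exact a.inv0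
      refine ⟨i2, ?_, ?_⟩
      · refine (pn_src hB Sum.inl Sum.inl_injective ho ho2 (fun u v => by simp [o2]) i2 a.inv0 ?_
          (h.src' _) h).symm
        rintro (w | w) (w' | w') c
        · exact absurd rfl (c w')
        · simp
        · exact absurd rfl (c w')
        · simp [one_apply]
      · have i3 := (inv0_gl (blkL ((X : ℤ[X]) • dE i) * dK i *
          blkU (-(dM i P' - (1 - dE i) * P')))).mul i2
        rw [← dly_id b d] at i3 ⊢
        rw [dly_pl]
        refine (pn_src hB Sum.inr Sum.inr_injective ho ho2 (fun u v => by simp [o2]) i3 b.inv0 ?_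
          (dly_pres b d h) (unsrc (dly_pres b d h))).symm
        rintro (w | w) (w' | w') c
        · simp [one_apply]
        · exact absurd rfl (c w')
        · simp
        · exact absurd rfl (c w')
    obtain ⟨a1, a2, a3⟩ := one G P P' ξ p1 p2 d1 hξ
    obtain ⟨b1, b2, b3⟩ := one G' Q Q' κ q1 q2 d2 hκ
    have c : IsC (dK i) := by
      rw [IsC]
      ext1 (u | u) (w | w) <;>
        simp [dK, dE, cof, one_apply, single_apply, apply_ite (coeff · 0), apply_ite C]
    have r : ∀ M : Matrix s s ℤ[X], Sm k M M := sm_refl k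
    have sM : Sm k ((1 - P').map divX) ((1 - Q').map divX) := sm_iff.2 fun u v =>
      X_pow_dvd_iff.2 fun d hd => by
        have := X_pow_dvd_iff.1 (sm_iff.1 (Sim.one.sub s2) u v) (d + 1) (by omega)
        simpa only [map_apply, coeff_sub, coeff_divX] using this
    have g1 : (blkL ((X : ℤ[X]) • dE i), blkL ((X : ℤ[X]) • dE i)) ∈
        Gr k (Sum.elim (fun _ : s => 0) fun _ : s => 0) := by
      have : blkL ((X : ℤ[X]) • dE i) = xe (Sum.inr i) (Sum.inl i) X := Units.ext (by
        rw [xe_val (by simp), blkL_val]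
        ext1 (u | u) (v | v) <;> simp [dE, one_apply, single_apply])
      rw [this]
      exact gr_xe (by simp) (by simp)
    have m := Gr_le_Rel hB hk t3 _ (mul_mem (mul_mem g1 (gr_const c c
      ((r _).fromBlocks (r _) (r _) (r _))))
      (gr_blkU (((r (dE i)).mul sM).sub ((r (1 - dE i)).mul (s2.mono k.le_succ))).neg))
    rw [a2, a3, b2, b3]
    exact m.2.2 G G' o2 _ _ _ _ ho2 a1 b1
      ((s1.mono k.le_succ).fromBlocks Sim.zero (r _) Sim.one) (hξ.src' _) (hκ.src' _)

end Pool.Agent.MP_993212_an.H46
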