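import Pool.Agent.MP_993212_an.H46.EngA
import Pool.Agent.MP_993212_an.H92.Export

/-! The engine from its pieces. -/

namespace Pool.Agent.MP_993212_an.H46

open Matrix

theorem th_snoc {r n : ℕ} (c : Fin r → ℤ) (lam : Fin r → MZ n) (e : MZ n) :
    th (Fin.snoc (α := fun _ => ℤ) c 0) (Fin.snoc (α := fun _ => MZ n) lam e) = th c lam := by
  simp [th, Fin.sum_univ_castSucc]

theorem vs_snoc {r : ℕ} (c : Fin r → ℤ) : vs (Fin.snoc (α := fun _ => ℤ) c 0) = vs c := by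
  simp [vs, Fin.sum_univ_castSucc]

theorem iso_snoc {r n : ℕ} {c : Fin r → ℤ} {lam : Fin r → MZ n} {e f g g' : MZ n} {k : ℕ} :
    Iso (Fin.snoc (α := fun _ => ℤ) c 0) (Fin.snoc (α := fun _ => MZ n) lam e)
      (Fin.snoc (α := fun _ => MZ n) lam f) g g' k ↔
    ((∀ i, lam i * g = g * lam i) ∧ e * g = g * f) ∧ ((∀ i, lam i * g' = g' * lam i) ∧
      f * g' = g' * e) ∧ g * g' = th c lam ^ k ∧ g' * g = th c lam ^ k := by
  simp [Iso, th_snoc, Fin.forall_fin_succ']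

theorem eng (reg : REG) (nil : NIL) (jg : JG) (uni : UNI) (si : SI) : ENG := by
  obtain ⟨F1, p1, reg⟩ := reg
  obtain ⟨F2, p2, jg⟩ := jg
  obtain ⟨F3, p3, uni⟩ := uni
  obtain ⟨F4, p4, si⟩ := si
  let N1 : ℕ → ℕ := fun N => F1 N * (N + N) + F1 N + N + 1
  let B1 : ℕ → ℕ := fun N => F1 N * F4 (N1 N) + F4 (N1 N) + (N + N)
  let B2 : ℕ → ℕ := fun N => F3 (F2 N + N.factorial + N) + N
  have q1 : PB N1 := (((p1.mul (PB.id.add PB.id)).add p1).add PB.id).add (PB.const 1)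
  have q2 : PB B1 := ((p1.mul (p4.comp q1)).add (p4.comp q1)).add (PB.id.add PB.id)
  have q3 : PB B2 := (p3.comp ((p2.add PB.id.fact).add PB.id)).add PB.id
  refine ⟨fun N => (N + B2 N) * lc (B1 N) + lc (B1 N) * qb (B2 N) + (lc (B1 N) + N * N),
    (((PB.id.add q3).mul (pb_lc.comp q2)).add ((pb_lc.comp q2).mul (pb_qb.comp q3))).add
      ((pb_lc.comp q2).add (PB.id.mul PB.id)), ?_⟩
  intro ι _ _ L θ p s a H col N hd hs ha hθs hps gen hθ hp mul sat hcol hc φ φ' k hφ f1 f2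
  obtain ⟨r, ρ, lam, c, r1, r2, r3, r4, r5, r6, r7, r8, r9, r10⟩ :=
    reg ι L θ s a N hd hs ha hθs gen hθ
  obtain ⟨t, w, j1, j2, j3⟩ := jg ι L θ p s a N hd hs ha hθs hps gen
  have hn : ∀ u, ρ u = 0 → θ ^ (Fintype.card ι * Fintype.card ι) * u ^ Fintype.card ι = 0 :=
    fun u hu => by
      simpa using nil ι L θ hθ (List.replicate (Fintype.card ι) u) (by simp) fun x hx => by
        rw [List.eq_of_mem_replicate hx]; exact (r5 u).1 hu
  have hq : (1 - p) * (1 - p) = 1 - p := by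
    rw [sub_mul, one_mul, mul_sub, mul_one, hp, sub_self, sub_zero]
  have np : nu p ≤ N + N := le_trans hps (Nat.le_add_right _ _)
  have nq : nu (1 - p) ≤ N + N := nu_sub_le (nu_one.trans_le hd) hps
  have sw : ∀ x : L, p * x = x * (1 - p) → (1 - p) * x = x * p := fun x h => by
    rw [sub_mul, h, mul_sub, one_mul, mul_one, sub_sub_cancel]
  have sw' : ∀ x : L, (1 - p) * x = x * p → p * x = x * (1 - p) := fun x h => by
    rw [mul_sub, ← h, sub_mul, one_mul, mul_one, sub_sub_cancel]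
  have cθ : ∀ (m : ℕ) (x : L), ρ θ ^ m * ρ x = ρ x * ρ θ ^ m := fun m x => by
    rw [← map_pow, ← map_mul, cpow hθ, map_mul]
  have lf : ∀ e : L, e * e = e → ∀ g g' k, Iso (Fin.snoc (α := fun _ => ℤ) c 0)
      (Fin.snoc (α := fun _ => MZ r) lam (ρ p)) (Fin.snoc (α := fun _ => MZ r) lam (ρ e)) g g' k →
      ∃ y y' j, Un θ y y' j ∧ p * y = y * e ∧ e * y' = y' * p ∧ ρ y = g ∧
        (nu e ≤ N + N → nu (1 - e) ≤ N + N → sz g ≤ F4 (N1 N) → sz g' ≤ F4 (N1 N) →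
          k ≤ F4 (N1 N) → nu y ≤ lc (B1 N) ∧ nu y' ≤ lc (B1 N) ∧ j ≤ lc (B1 N)) := by
    intro e he g g' k hi
    obtain ⟨⟨i1, i2⟩, ⟨i3, i4⟩, i5, i6⟩ := iso_snoc.1 hi
    obtain ⟨x, rfl, x1⟩ := r7 g i1
    obtain ⟨x', rfl, x2⟩ := r7 g' i3
    rw [r8] at i5 i6
    obtain ⟨y, y', j, l1, l2, l3, l4, l5⟩ := lift ρ hθ hn hp he i2 i4 i5 i6
    refine ⟨y, y', j, l1, l2, l3, l4, fun b1 b2 b3 b4 b5 => ?_⟩
    have b6 := x1.trans (Nat.mul_le_mul_left _ b3)
    have b7 := x2.trans (Nat.mul_le_mul_left _ b4)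
    have b8 : nu θ ≤ N := hθs
    exact l5 _ (by simp only [B1]; omega) (by simp only [B1]; omega) (by simp only [B1]; omega)
      (by simp only [B1]; omega) (by simp only [B1]; omega) (by simp only [B1]; omega)
      (b6.trans (by simp only [B1]; omega)) (b7.trans (by simp only [B1]; omega))
      (by simp only [B1]; omega)
  have : ∀ g : MZ r, ∃ u : L × L × ℕ, ∀ g' k, Iso (Fin.snoc (α := fun _ => ℤ) c 0)
      (Fin.snoc (α := fun _ => MZ r) lam (ρ p)) (Fin.snoc (α := fun _ => MZ r) lam (ρ p)) g g' k →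
      Un θ u.1 u.2.1 u.2.2 ∧ p * u.1 = u.1 * p ∧ p * u.2.1 = u.2.1 * p ∧ ρ u.1 = g := fun g => by
    by_cases q : ∃ g' k, Iso (Fin.snoc (α := fun _ => ℤ) c 0)
      (Fin.snoc (α := fun _ => MZ r) lam (ρ p)) (Fin.snoc (α := fun _ => MZ r) lam (ρ p)) g g' k
    · obtain ⟨g', k, hi⟩ := q
      obtain ⟨y, y', j, l1, l2, l3, l4, -⟩ := lf p hp g g' k hi
      exact ⟨(y, y', j), fun _ _ _ => ⟨l1, l2, l3, l4⟩⟩
    · exact ⟨(1, 1, 0), fun g' k hi => absurd ⟨g', k, hi⟩ q⟩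
  choose up hup using this
  have bM : ∀ e : L, nu e ≤ N + N →
      ∀ i, sz (Fin.snoc (α := fun _ => MZ r) lam (ρ e) i) ≤ N1 N := fun e he i => by
    refine Fin.lastCases ?_ (fun i => ?_) i
    · rw [Fin.snoc_last]
      exact ((r4 e).trans (Nat.mul_le_mul_left _ he)).trans (by simp only [N1]; omega)
    · rw [Fin.snoc_castSucc]
      exact (r2 i).trans (by simp only [N1]; omega)
  obtain ⟨f, f', j, g1, g2, g3, g4, y, y', jy, a0, b0, y1, y2, y3, y4, y5⟩ := si r (r + 1)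
    (Fin.snoc (α := fun _ => MZ r) lam (ρ p)) (Fin.snoc (α := fun _ => MZ r) lam (ρ (1 - p)))
    (Fin.snoc (α := fun _ => ℤ) c 0)
    (fun g => ∃ y y' j a b, Un θ y y' j ∧ y * p = p * y ∧ y' * p = p * y' ∧ H y ∧
      ρ θ ^ a * g = ρ θ ^ b * ρ y) (fun g => col (up g).1) (N1 N)
    (by simp only [N1]; omega) (by simp only [N1]; omega) (bM p np) (bM _ nq)
    (by rw [vs_snoc]; exact r3.trans (by simp only [N1]; omega))
    (r10.snoc (by rw [← map_mul, hp]) fun i => (r6 i p).symm)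
    (fun i => by
      rw [th_snoc, r8]
      refine Fin.lastCases ?_ (fun i => ?_) i
      · rw [Fin.snoc_last, ← map_mul, hθ, map_mul]
      · rw [Fin.snoc_castSucc, r6])
    (by rwa [th_snoc, r8])
    (by
      rintro g1 g2 ⟨y, y', j, a, b, h1, h2, h3, h4, h5⟩ ⟨z, z', i, a', b', k1, k2, k3, k4, k5⟩
      refine ⟨y * z, z' * y', j + i, a' + a, b + b', h1.mul hθ k1, Commute.mul_left h2 k2,
        Commute.mul_left k3 h3, mul _ _ h4 k4, ?_⟩
      rw [pow_add, mul_assoc, ← mul_assoc _ g1, h5, ← mul_assoc, ← mul_assoc, ← pow_add,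
        add_comm a', pow_add, mul_assoc (ρ θ ^ b), cθ, mul_assoc, mul_assoc, k5, ← mul_assoc (ρ y),
        ← cθ, pow_add, map_mul]
      simp only [mul_assoc])
    (by
      rintro g1 g2 a' b' e ⟨y, y', j, a, b, h1, h2, h3, h4, h5⟩
      rw [th_snoc, r8] at e
      refine ⟨y, y', j, a + b', a' + b, h1, h2, h3, h4, ?_⟩
      rw [pow_add, mul_assoc, ← e, ← mul_assoc, ← pow_add, add_comm, pow_add, mul_assoc, h5,
        ← mul_assoc, ← pow_add])
    (fun g => (hcol _).trans_le (by simp only [N1]; omega))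
    (by
      intro x x' k y y' j h1 h2 e
      obtain ⟨u1, u2, u3, u4⟩ := hup x _ _ h1
      obtain ⟨v1, v2, v3, v4⟩ := hup y _ _ h2
      refine ⟨(up x).1 * (up y).2.1, (up y).1 * (up x).2.1, _, (up y).2.2, j, u1.mul hθ v1.symm,
        Commute.mul_left u2.symm v3.symm, Commute.mul_left v2.symm u3.symm,
        hc _ _ _ _ _ _ u1 v1 u2.symm u3.symm v2.symm v3.symm e, ?_⟩
      have e1 := th_pow (c := Fin.snoc (α := fun _ => ℤ) c 0) h1.1
      have e2 := h2.2.2.2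
      have e3 : y * ρ (up y).2.1 = ρ θ ^ (up y).2.2 := by
        rw [← map_pow, ← v1.1, map_mul, v4]
      have e4 := th_pow (c := Fin.snoc (α := fun _ => ℤ) c 0) h2.2.1
      rw [th_snoc, r8] at e1 e2 e4
      rw [map_mul, u4, ← mul_assoc, e1, mul_assoc, e4, ← e3, ← mul_assoc y', e2, ← mul_assoc,
        ← mul_assoc, e1])
    (ρ φ) (ρ φ') k (iso_snoc.2 ⟨⟨fun i => r6 i _, by rw [← map_mul, f1, map_mul]⟩,
      ⟨fun i => r6 i _, by rw [← map_mul, sw _ f2, map_mul]⟩,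
      by rw [r8, ← map_mul, hφ.1, map_pow], by rw [r8, ← map_mul, hφ.2, map_pow]⟩)
  obtain ⟨ψ, ψ', i, l1, l2, l3, rfl, l5⟩ := lf _ hq f f' j g1
  obtain ⟨m1, m2, m3⟩ := l5 nq (by rwa [sub_sub_cancel]) g2 g3 g4
  have hx : θ ^ b0 * (y * φ * ψ') - θ ^ (a0 + k + i) ∈ Submodule.span ℤ (Set.range w) := by
    refine (j3 _).2 ⟨(r5 _).1 ?_, ?_⟩
    · rw [map_sub, map_mul, map_mul, map_mul, map_pow, ← mul_assoc, ← mul_assoc, ← y5, mul_assoc,
        mul_assoc, mul_assoc, ← mul_assoc (ρ φ'), ← map_mul, hφ.2, map_pow, cθ, ← mul_assoc (ρ ψ),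
        ← map_mul, l1.1, map_pow, map_pow, ← pow_add, ← pow_add, add_comm i, add_assoc, sub_self]
    · refine Commute.sub_left (Commute.mul_left (cpow hθ _ _) ?_) (cpow hθ _ _)
      change y * φ * ψ' * p = p * (y * φ * ψ')
      rw [mul_assoc, ← l3, ← mul_assoc, mul_assoc y, ← f1, ← mul_assoc, y2]
      simp only [mul_assoc]
  have jw : ∀ x ∈ Submodule.span ℤ (Set.range w), ρ x = 0 ∧ x * p = p * x := fun x hx =>
    ⟨(r5 x).2 ((j3 x).1 hx).1, ((j3 x).1 hx).2⟩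
  have jw' : ∀ i, ρ (w i) = 0 ∧ w i * p = p * w i := fun i =>
    jw _ (Submodule.subset_span ⟨i, rfl⟩)
  have h1 : H 1 := by
    simpa using hc 1 1 0 1 1 0 (by simp [Un]) (by simp [Un]) (by simp) (by simp) (by simp)
      (by simp) rfl
  obtain ⟨x0, u1, h, a1, b1, u2, u3, u4⟩ := uni L nu θ t w H N.factorial (Fintype.card ι)
    (F2 N + N.factorial + N) nu_add nu_mul nu_zero hθ
    (fun i j => (j3 _).2 ⟨(r5 _).1 (by rw [map_mul, (jw' i).1, zero_mul]),
      Commute.mul_left (jw' i).2 (jw' j).2⟩)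
    (fun i => (j3 _).2 ⟨(r5 _).1 (by rw [map_mul, (jw' i).1, mul_zero]),
      Commute.mul_left (hθ p) (jw' i).2⟩)
    (fun l hl hm => nil ι L θ hθ l hl fun x hx => ((j3 x).1 (hm x hx)).1) mul sat h1
    (fun k z hz => by
      obtain ⟨S, s1, s2, -⟩ := quasi hθ k (hn (-z) (by rw [map_neg, (jw z hz).1, neg_zero]))
      rw [sub_neg_eq_add] at s1
      exact pow_mem hθ mul sat hcol hc s1 (Commute.add_left (cpow hθ k p) (jw z hz).2)
        (s2 p (Commute.neg_left (jw z hz).2)))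
    (Nat.factorial_pos N) (by omega) (by omega) (by omega)
    (fun i => le_trans (j2 i) (by omega)) (a0 + k + i) _ hx
  obtain ⟨S, s1, s2, s3⟩ := quasi hθ 0 (hn (-x0) (by rw [map_neg, (jw x0 u1).1, neg_zero]))
  rw [sub_neg_eq_add, pow_zero, zero_mul, add_zero] at s1
  have c0 : (1 + x0) * p = p * (1 + x0) := Commute.add_left (Commute.one_left p) (jw x0 u1).2
  have c1 : S * (1 - p) = (1 - p) * S :=
    s2 _ (Commute.sub_right (Commute.one_right _) (Commute.neg_left (jw x0 u1).2))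
  have b8 : nu θ ≤ N := hθs
  have n1 := nu_mul_le (nu_add_le (nu_one.trans_le hd) (u2.trans (Nat.le_add_right _ N))) m1
  have n2 := nu_mul_le m2 (s3 (B2 N) (by simp only [B2]; omega) (by simp only [B2]; omega)
    (by rw [nu_neg]; exact u2.trans (Nat.le_add_right _ N)) (Nat.zero_le _))
  have n3 := Nat.mul_le_mul hd hd
  refine ⟨(1 + x0) * ψ, ψ' * S, _, s1.mul hθ l1, ?_, ?_, le_trans n1 (by simp only [B2]; omega),
    le_trans n2 (by simp only; omega), by simp only; omega,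
    sat _ _ (b1 + b0 + i + k) a1 ?_ (mul _ _ u3 y4)⟩
  · rw [← mul_assoc, ← c0, mul_assoc, l2, mul_assoc]
  · rw [← mul_assoc, sw' _ l3, mul_assoc, mul_assoc, c1]
  · rw [add_sub_cancel] at u4
    rw [← mul_assoc (θ ^ a1), ← mul_assoc (θ ^ a1), u4]
    calc θ ^ (b1 + b0 + i + k) * (h * y)
        = θ ^ b1 * (θ ^ b0 * h) * y * θ ^ i * θ ^ k := by
          rw [← cpow hθ k, ← cpow hθ i, add_comm _ k, add_comm _ i, pow_add, pow_add, pow_add]
          simp only [mul_assoc]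
      _ = θ ^ b1 * h * (θ ^ b0 * (y * φ * ψ')) * ψ * φ' := by
          rw [cpow hθ b0 h, ← hφ.1]
          simp only [mul_assoc]
          rw [← mul_assoc ψ', l1.2, ← mul_assoc φ, ← cpow hθ i φ, cpow hθ b0 (y * _),
            cpow hθ b0 (y * _)]
          simp only [mul_assoc]

end Pool.Agent.MP_993212_an.H46
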