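import Pool.Agent.MP_993212_an.H46.Lat

/-! Ring-theoretic lemmas for the engine: quasi-inverses, powers, lifting. -/

namespace Pool.Agent.MP_993212_an.H46

open Matrix

section Ring

variable {L : Type} [Ring L] {θ : L}

theorem cpow (hθ : ∀ x, θ * x = x * θ) (k : ℕ) (x : L) : θ ^ k * x = x * θ ^ k :=
  (Commute.pow_left (hθ x) k).eq

theorem Un.mul (hθ : ∀ x, θ * x = x * θ) {x x' y y' : L} {k j : ℕ} (h : Un θ x x' k)
    (g : Un θ y y' j) : Un θ (x * y) (y' * x') (k + j) := by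
  constructor
  · rw [mul_assoc, ← mul_assoc y, g.1, cpow hθ, ← mul_assoc, h.1, pow_add]
  · rw [mul_assoc, ← mul_assoc x', h.2, cpow hθ, ← mul_assoc, g.2, ← pow_add, add_comm]

theorem Un.symm {x x' : L} {k : ℕ} (h : Un θ x x' k) : Un θ x' x k := ⟨h.2, h.1⟩

theorem Un.pow {x x' : L} {k : ℕ} (h : Un θ x x' k) (i : ℕ) : Un θ (x ^ i) (x' ^ i) (k * i) := by
  have c : Commute x x' := h.1.trans h.2.symm
  exact ⟨by rw [← c.mul_pow, h.1, pow_mul], by rw [← c.symm.mul_pow, h.2, pow_mul]⟩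

/-- the factorial power of a unit lies in the subgroup -/
theorem pow_mem {p : L} {H : L → Prop} {col : L → ℕ} {N : ℕ} (hθ : ∀ x, θ * x = x * θ)
    (mul : ∀ x y, H x → H y → H (x * y)) (sat : ∀ x y a b, θ ^ a * x = θ ^ b * y → H x → H y)
    (hcol : ∀ x, col x < N)
    (hc : ∀ x x' k y y' j, Un θ x x' k → Un θ y y' j → x * p = p * x → x' * p = p * x' →
      y * p = p * y → y' * p = p * y' → col x = col y → H (x * y'))
    {y y' : L} {m : ℕ} (h : Un θ y y' m) (c1 : y * p = p * y) (c2 : y' * p = p * y') :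
    H (y ^ N.factorial) := by
  have key : ∀ i j, j < i → i ≤ N → col (y ^ i) = col (y ^ j) → H (y ^ N.factorial) := by
    intro i j hij hi e
    obtain ⟨t, rfl⟩ := Nat.exists_eq_add_of_lt hij
    have h1 := hc _ _ _ _ _ _ (h.pow _) (h.pow j) (Commute.pow_left c1 _) (Commute.pow_left c2 _)
      (Commute.pow_left c1 _) (Commute.pow_left c2 _) e
    have h2 : H (y ^ (t + 1)) := sat _ _ 0 (m * j) (by
      rw [pow_zero, one_mul, add_assoc, add_comm j, pow_add, mul_assoc, (h.pow j).1, cpow hθ]) h1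
    have h3 : ∀ u, H ((y ^ (t + 1)) ^ (u + 1)) := fun u => by
      induction u with
      | zero => simpa using h2
      | succ u ih => rw [pow_succ]; exact mul _ _ ih h2
    obtain ⟨u, hu⟩ := Nat.dvd_factorial (Nat.succ_pos t) (show t + 1 ≤ N by omega)
    have h4 : u ≠ 0 := fun q => Nat.factorial_ne_zero N (by rw [hu, q, mul_zero])
    obtain ⟨u, rfl⟩ := Nat.exists_eq_succ_of_ne_zero h4
    rw [hu, pow_mul]
    exact h3 u
  obtain ⟨i, j, hij, e⟩ := Fintype.exists_ne_map_eq_of_card_lt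
    (fun i : Fin (N + 1) => (⟨col (y ^ (i : ℕ)), hcol _⟩ : Fin N)) (by simp)
  have e' : col (y ^ (i : ℕ)) = col (y ^ (j : ℕ)) := congrArg Fin.val e
  rcases lt_or_gt_of_ne (Fin.val_ne_of_ne hij) with q | q
  · exact key j i q (Nat.lt_succ_iff.1 j.2) e'.symm
  · exact key i j q (Nat.lt_succ_iff.1 i.2) e'

end Ring

variable {ι : Type} [Fintype ι] [DecidableEq ι] {L : Subring (Matrix ι ι ℤ)}

/-- size of an element of the order -/
def nu (x : L) : ℕ := sz (x : Matrix ι ι ℤ)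

theorem nu_add (x y : L) : nu (x + y) ≤ nu x + nu y := sz_add _ _

theorem nu_sub (x y : L) : nu (x - y) ≤ nu x + nu y := sz_sub _ _

theorem nu_mul (x y : L) : nu (x * y) ≤ nu x * nu y := sz_mul _ _

theorem nu_neg (x : L) : nu (-x) = nu x := sz_neg _

theorem nu_zero : nu (0 : L) = 0 := sz_zero

theorem nu_one : nu (1 : L) = Fintype.card ι := sz_one

theorem nu_mul_le {x y : L} {a b : ℕ} (h : nu x ≤ a) (g : nu y ≤ b) : nu (x * y) ≤ a * b :=
  (nu_mul x y).trans (Nat.mul_le_mul h g)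

theorem nu_add_le {x y : L} {a b : ℕ} (h : nu x ≤ a) (g : nu y ≤ b) : nu (x + y) ≤ a + b :=
  (nu_add x y).trans (Nat.add_le_add h g)

theorem nu_sub_le {x y : L} {a b : ℕ} (h : nu x ≤ a) (g : nu y ≤ b) : nu (x - y) ≤ a + b :=
  (nu_sub x y).trans (Nat.add_le_add h g)

theorem nu_sum {α : Type} (s : Finset α) (f : α → L) : nu (∑ i ∈ s, f i) ≤ ∑ i ∈ s, nu (f i) := by
  classical
  induction s using Finset.induction_on with
  | empty => rw [Finset.sum_empty, Finset.sum_empty, nu_zero]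
  | insert a s h ih =>
    rw [Finset.sum_insert h, Finset.sum_insert h]
    exact nu_add_le le_rfl ih

/-- bound for powers -/
def tb (B : ℕ) : ℕ := (B + 1) ^ (B * B + B + 1)

theorem pb_tb : PB tb := PB.id.pow (((PB.id.mul PB.id).add PB.id).add (PB.const 1))

theorem nu_pow {x : L} {B m : ℕ} (h : nu x ≤ B) (hd : Fintype.card ι ≤ B) (hm : m ≤ B * B + B) :
    nu (x ^ m) ≤ tb B := by
  have h1 : nu (x ^ m) ≤ Fintype.card ι * nu x ^ m + nu x ^ m := by
    simpa [nu] using sz_pow (x : Matrix ι ι ℤ) m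
  have h2 : nu x ^ m ≤ (B + 1) ^ (B * B + B) :=
    (Nat.pow_le_pow_left (h.trans (Nat.le_succ B)) m).trans
      (Nat.pow_le_pow_right (Nat.succ_pos B) hm)
  rw [tb, pow_succ]
  nlinarith [Nat.mul_le_mul hd h2]

/-- bound for quasi-inverses -/
def qb (B : ℕ) : ℕ := tb B * (B * (tb B * tb B))

theorem pb_qb : PB qb := pb_tb.mul (PB.id.mul (pb_tb.mul pb_tb))

/-- quasi-inverse of `θ ^ k - u` -/
theorem quasi {θ u : L} (hθ : ∀ x, θ * x = x * θ) (k : ℕ)
    (hu : θ ^ (Fintype.card ι * Fintype.card ι) * u ^ Fintype.card ι = 0) :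
    ∃ S, Un θ (θ ^ k - u) S (Fintype.card ι * Fintype.card ι + k * Fintype.card ι) ∧
      (∀ z, u * z = z * u → S * z = z * S) ∧
      ∀ B, Fintype.card ι ≤ B → nu θ ≤ B → nu u ≤ B → k ≤ B → nu S ≤ qb B := by
  set d := Fintype.card ι
  have c : Commute (θ ^ k) u := cpow hθ k u
  refine ⟨θ ^ (d * d) * ∑ i ∈ Finset.range d, (θ ^ k) ^ i * u ^ (d - 1 - i), ⟨?_, ?_⟩,
    fun z hz => ?_, fun B h1 h2 h3 h4 => ?_⟩
  · rw [← mul_assoc, ← cpow hθ, mul_assoc, c.mul_geom_sum₂, mul_sub, hu, sub_zero, ← pow_mul,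
      pow_add]
  · rw [mul_assoc, c.geom_sum₂_mul, mul_sub, hu, sub_zero, ← pow_mul, pow_add]
  · exact Commute.mul_left (cpow hθ _ z) (Commute.sum_left _ _ _ fun i _ =>
      Commute.mul_left (Commute.pow_left (cpow hθ k z) i) (Commute.pow_left hz _))
  · refine nu_mul_le (nu_pow h2 h1 (by nlinarith)) ?_
    refine (nu_sum _ _).trans ?_
    refine (Finset.sum_le_card_nsmul _ _ (tb B * tb B) fun i hi => ?_).trans ?_
    · have hi' := Finset.mem_range.1 hi
      rw [← pow_mul]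
      exact nu_mul_le (nu_pow h2 h1 (by nlinarith)) (nu_pow h3 h1 (by omega))
    · simpa using Nat.mul_le_mul_right _ h1

/-- bound for lifts -/
def lb (B : ℕ) : ℕ := 2 * (B * B * B)

/-- bound for the inverses of lifts -/
def lc (B : ℕ) : ℕ :=
  tb (B * B + B * B + B) * (lb B * qb (tb B + lb B * lb B + B)) + lb B +
    (B * B + B * B + (B * B + B * B))

theorem pb_lb : PB lb := (PB.const 2).mul ((PB.id.mul PB.id).mul PB.id)

theorem pb_lc : PB lc :=
  (((pb_tb.comp (((PB.id.mul PB.id).add (PB.id.mul PB.id)).add PB.id)).mul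
    (pb_lb.mul (pb_qb.comp ((pb_tb.add (pb_lb.mul pb_lb)).add PB.id)))).add pb_lb).add
    (((PB.id.mul PB.id).add (PB.id.mul PB.id)).add ((PB.id.mul PB.id).add (PB.id.mul PB.id)))

/-- lifting of units along a ring map whose kernel is nilpotent up to `θ`-torsion -/
theorem lift {R : Type} [Ring R] (ρ : L →+* R) {θ p e x x' : L} (hθ : ∀ x, θ * x = x * θ)
    (hn : ∀ u, ρ u = 0 → θ ^ (Fintype.card ι * Fintype.card ι) * u ^ Fintype.card ι = 0)
    (hp : p * p = p) (he : e * e = e) {k : ℕ} (h1 : ρ p * ρ x = ρ x * ρ e)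
    (h2 : ρ e * ρ x' = ρ x' * ρ p) (h3 : ρ x * ρ x' = ρ θ ^ k) (h4 : ρ x' * ρ x = ρ θ ^ k) :
    ∃ y y' j, Un θ y y' j ∧ p * y = y * e ∧ e * y' = y' * p ∧ ρ y = ρ x ∧
      ∀ B, Fintype.card ι ≤ B → nu θ ≤ B → nu p ≤ B → nu (1 - p) ≤ B → nu e ≤ B →
        nu (1 - e) ≤ B → nu x ≤ B → nu x' ≤ B → k ≤ B → nu y ≤ lc B ∧ nu y' ≤ lc B ∧ j ≤ lc B := by
  have key : ∀ p e x : L, p * p = p → e * e = e → ρ p * ρ x = ρ x * ρ e →
      ∃ y, p * y = y * e ∧ ρ y = ρ x ∧ ∀ B, nu p ≤ B → nu (1 - p) ≤ B → nu e ≤ B →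
        nu (1 - e) ≤ B → nu x ≤ B → nu y ≤ lb B := by
    intro p e x hp he h
    refine ⟨p * x * e + (1 - p) * x * (1 - e), ?_, ?_, fun B b1 b2 b3 b4 b5 => ?_⟩
    · have a1 : p * (1 - p) = 0 := by rw [mul_sub, hp, mul_one, sub_self]
      have a2 : (1 - e) * e = 0 := by rw [sub_mul, he, one_mul, sub_self]
      simp only [mul_add, add_mul, ← mul_assoc, hp, a1, zero_mul, add_zero]
      simp only [mul_assoc, he, a2, mul_zero, add_zero]
    · have a1 : ρ e * ρ e = ρ e := by rw [← map_mul, he]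
      simp only [map_add, map_mul, map_sub, map_one, sub_mul, mul_sub, one_mul, mul_one, h]
      simp only [mul_assoc, a1]
      abel
    · exact (nu_add_le (nu_mul_le (nu_mul_le b1 b5) b3) (nu_mul_le (nu_mul_le b2 b5) b4)).trans
        (by rw [lb]; omega)
  obtain ⟨y, a1, a2, a3⟩ := key p e x hp he h1
  obtain ⟨z, b1, b2, b3⟩ := key e p x' he hp h2
  obtain ⟨S, s1, s2, s3⟩ := quasi hθ k (hn (θ ^ k - y * z) (by simp [a2, b2, h3]))
  obtain ⟨T, t1, -, -⟩ := quasi hθ k (hn (θ ^ k - z * y) (by simp [a2, b2, h4]))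
  rw [sub_sub_cancel] at s1 t1
  set K := Fintype.card ι * Fintype.card ι + k * Fintype.card ι with hK
  have c1 : S * p = p * S := s2 p (by
    rw [sub_mul, mul_sub, cpow hθ, mul_assoc, ← b1, ← mul_assoc, ← a1, mul_assoc])
  refine ⟨y, θ ^ K * (z * S), K + K, ⟨?_, ?_⟩, a1, ?_, a2, fun B d1 d2 d3 d4 d5 d6 d7 d8 d9 => ?_⟩
  · rw [← mul_assoc, ← cpow hθ, mul_assoc, ← mul_assoc y, s1.1, pow_add θ K K]
  · calc θ ^ K * (z * S) * y = T * (z * y) * (z * S) * y := by rw [t1.2]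
      _ = T * z * (y * z * S) * y := by simp only [mul_assoc]
      _ = θ ^ K * (T * (z * y)) := by rw [s1.1, ← cpow hθ]; simp only [mul_assoc]
      _ = _ := by rw [t1.2, pow_add θ K K]
  · rw [← mul_assoc, ← cpow hθ, mul_assoc, ← mul_assoc e, b1, mul_assoc, mul_assoc, mul_assoc, c1]
  · have e1 := a3 B d3 d4 d5 d6 d7
    have e2 := b3 B d5 d6 d3 d4 d8
    have e3 : K ≤ B * B + B * B := by rw [hK]; gcongr
    have e4 := s3 (tb B + lb B * lb B + B) (by omega) (by omega)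
      ((nu_sub_le (nu_pow d2 d1 (by omega)) (nu_mul_le e1 e2)).trans (by omega)) (by omega)
    have e5 := nu_mul_le (nu_pow (B := B * B + B * B + B) (m := K) (d2.trans (by omega))
      (by omega) (by omega)) (nu_mul_le e2 e4)
    rw [lc]
    omega

end Pool.Agent.MP_993212_an.H46
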