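import Pool.Agent.MP_993212_an.H46.Push

/-! Extraction of loops to an unused state. -/

set_option linter.unusedSectionVars false

namespace Pool.Agent.MP_993212_an.H46

open Matrix Polynomial H16 H92 Finset H18

variable {G : Type} [AddCommGroup G] [Module ℤ[X] G] {s : Type} [Fintype s] [DecidableEq s]
  {R T : Finset s} {n : ℕ} {N : Matrix s s ℤ[X]} {ξ : s → G} {ρ η : ℝ} {p : s → ℝ} {z v w : s}
  {ψ : ℤ[X]}

theorem push1 (mv : Moves) (h : VP (1 - N) 0) (r : act (1 - N) ξ = 0) {a b : s} (hab : a ≠ b)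
    (c : ℤ[X]) {N' : Matrix s s ℤ[X]} (e1 : ∀ i l, i ≠ a → N' i l = N i l)
    (e2 : ∀ l, N' a l = N a l - (if l = b then c else 0) + c * N b l) (h' : VP (1 - N') 0) :
    Eq0 N ξ N' ξ := by
  have e : N' = N - single a b c + single a b c * N := by
    ext1 i l
    by_cases hi : i = a
    · subst hi
      rw [e2, Matrix.add_apply, Matrix.sub_apply, single_mul_apply_same, single_apply]
      simp only [true_and, eq_comm]
    · rw [e1 i l hi, Matrix.add_apply, Matrix.sub_apply, single_mul_apply_of_ne _ _ _ _ _ hi,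
        single_apply_of_row_ne (Ne.symm hi), sub_zero, add_zero]
  subst e
  refine push mv h r (· = a) (fun i l hil => ?_) h'
  by_cases h1 : a = i ∧ b = l
  · exact ⟨h1.1.symm, fun h2 => hab (h2.symm.trans h1.2.symm)⟩
  · exact absurd (by rw [single_apply, if_neg h1]) hil

theorem nil_of (hwv : w ≠ v) (h : ∀ i l, ¬(i = w ∧ l = v) → X ∣ N i l) :
    IsNilpotent (cf 0 N) := by
  refine ⟨2, ?_⟩
  ext i l
  rw [pow_two, Matrix.mul_apply]
  refine sum_eq_zero fun u _ => ?_
  by_cases hu : u = v
  · rw [show cf 0 N u l = 0 from X_dvd_iff.1 (h u l fun e => hwv (e.1.symm.trans hu)), mul_zero]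
  · rw [show cf 0 N i u = 0 from X_dvd_iff.1 (h i u fun e => hu e.2), zero_mul]

/-- the row of `v` after the splitting -/
noncomputable def srow (v w : s) (ψ : ℤ[X]) (N : Matrix s s ℤ[X]) (l : s) : ℤ[X] :=
  N v l - (if l = v then ψ else 0) + if l = w then ψ else 0

/-- the state `v` is split -/
noncomputable def split (v w : s) (ψ : ℤ[X]) (N : Matrix s s ℤ[X]) : Matrix s s ℤ[X] :=
  of fun i l => if i = v ∨ i = w then srow v w ψ N l else N i l

theorem srow_v (hwv : w ≠ v) : srow v w ψ N v = N v v - ψ := by simp [srow, hwv.symm]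

theorem srow_w (hwv : w ≠ v) (hs : Src N w) : srow v w ψ N w = ψ := by simp [srow, hwv, hs v]

theorem srow_ne {l : s} (h1 : l ≠ v) (h2 : l ≠ w) : srow v w ψ N l = N v l := by
  simp [srow, h1, h2]

theorem split_v (l : s) : split v w ψ N v l = srow v w ψ N l := by simp [split]

theorem split_w (l : s) : split v w ψ N w l = srow v w ψ N l := by simp [split]

theorem split_ne {i : s} (h1 : i ≠ v) (h2 : i ≠ w) (l : s) : split v w ψ N i l = N i l := by
  simp [split, h1, h2]

theorem srow_cases (hwv : w ≠ v) (hs : Src N w) (Q : ℤ[X] → Prop) (l : s) (h1 : Q (N v v - ψ))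
    (h2 : Q ψ) (h3 : Q (N v l)) : Q (srow v w ψ N l) := by
  by_cases e1 : l = v
  · rwa [e1, srow_v hwv]
  by_cases e2 : l = w
  · rwa [e2, srow_w hwv hs]
  · rwa [srow_ne e1 e2]

theorem nn.dvd_of_le {a b : ℤ[X]} {k : ℕ} (h : nn a) (g : nn (b - a)) (e : X ^ k ∣ b) :
    X ^ k ∣ a := X_pow_dvd_iff.2 fun d hd => by
  have h1 := g d
  rw [coeff_sub, X_pow_dvd_iff.1 e d hd] at h1
  linarith [h d]

theorem ho_split (mv : Moves) (h : Ho N ξ) (hwv : w ≠ v) (hs : Src N w) (h1 : nn ψ)
    (h2 : nn (N v v - ψ)) : Ho (split v w ψ N) (Function.update ξ w (ξ v)) ∧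
      Eq0 N ξ (split v w ψ N) (Function.update ξ w (ξ v)) := by
  have x1 : X ∣ ψ := by simpa using h1.dvd_of_le (k := 1) h2 (by simpa using h.z0 v v)
  have n1 : ∀ l, H46.nn (srow v w ψ N l) := fun l => srow_cases hwv hs H46.nn l h2 h1 (h.nn v l)
  have z1 : ∀ l, X ∣ srow v w ψ N l := fun l =>
    srow_cases hwv hs (X ∣ ·) l ((h.z0 v v).sub x1) x1 (h.z0 v l)
  have n2 : ∀ l, H46.nn (if l = v then 1 else 0) := fun l => by
    split_ifs
    · exact nn_one
    · exact nn_zero
  let Na : Matrix s s ℤ[X] := of fun i l => if i = w then (if l = v then 1 else 0) else N i l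
  let Nb : Matrix s s ℤ[X] := of fun i l => if i = v then srow v w ψ N l else Na i l
  have va : VP (1 - Na) 0 := vp_of (fun i l => by
    simp only [Na, of_apply]; split_ifs
    exacts [nn_one, nn_zero, h.nn i l]) (nil_of hwv fun i l e => by
    simp only [Na, of_apply]; split_ifs with a b
    exacts [absurd ⟨a, b⟩ e, dvd_zero _, h.z0 i l])
  have vb : VP (1 - Nb) 0 := vp_of (fun i l => by
    simp only [Na, Nb, of_apply]; split_ifs
    exacts [n1 l, nn_one, nn_zero, h.nn i l]) (nil_of hwv fun i l e => by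
    simp only [Na, Nb, of_apply]; split_ifs with c a b
    exacts [z1 l, absurd ⟨a, b⟩ e, dvd_zero _, h.z0 i l])
  have nc : NN (H46.split v w ψ N) := fun i l => by
    simp only [H46.split, of_apply]; split_ifs
    exacts [n1 l, h.nn i l]
  have zc : ∀ i l, X ∣ H46.split v w ψ N i l := fun i l => by
    simp only [H46.split, of_apply]; split_ifs
    exacts [z1 l, h.z0 i l]
  have ra : act (1 - Na) (Function.update ξ w (ξ v)) = 0 := rel_of fun i => by
    by_cases e : i = w
    · simp [Na, e, hwv.symm]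
    · rw [Function.update_of_ne e, h.eq i]
      refine sum_congr rfl fun l _ => ?_
      by_cases e2 : l = w
      · simp [Na, e, e2, hs i]
      · simp [Na, e, e2]
  have a1 := srcrow mv h.vp h.rel va ra (· = w) (fun i u e => e ▸ hs i)
    (fun i u e => by
      subst e
      simp only [Na, of_apply, if_neg hwv, hs i, ite_self])
    (fun i l e => by simp only [Na, of_apply, if_neg e]) fun i e => Function.update_of_ne e _ _
  have a2 := push1 mv va ra hwv.symm (-ψ) (N' := Nb) (fun i l e => by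
    simp only [Nb, of_apply, if_neg e]) (fun l => by
    simp only [Na, Nb, of_apply, if_true, if_neg hwv.symm, srow]
    split_ifs <;> ring) vb
  have a3 := push1 mv vb a2.rel' hwv 1 (N' := H46.split v w ψ N) (fun i l e => by
    simp only [Na, Nb, H46.split, of_apply, e, or_false, if_false]) (fun l => by
    simp only [Na, Nb, split_w, of_apply, if_true, if_neg hwv]
    ring) (vp_of nc (by rw [cf_zero zc]; exact IsNilpotent.zero))
  exact ⟨⟨nc, zc, a3.rel'⟩, (a1.trans a2).trans a3⟩

theorem kill_diag (h : NN N) (d : Disjoint R T) (i : s) : nn (kill R T n N i i - N i i) := by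
  by_cases e : i ∈ T
  · rw [kill_row (disjoint_right.1 d e), sub_self]; exact nn_zero
  · exact kill_up h i e

theorem out_kill (h : NN N) (hz : z ∉ T) {j : s} (o : Snk N j ∨ N j z ≠ 0) :
    Snk (kill R T n N) j ∨ kill R T n N j z ≠ 0 :=
  o.imp kill_zero_row (nn.ne_zero (h j z) (kill_up h j hz))

theorem inn_kill (h : NN N) (d : Disjoint R T) {j : s} (o : Src N j ∨ (N z j ≠ 0 ∧ N j j ≠ 0)) :
    Src (kill R T n N) j ∨ (kill R T n N z j ≠ 0 ∧ kill R T n N j j ≠ 0) := by
  refine o.imp kill_src fun o => ⟨?_, nn.ne_zero (h j j) (kill_diag h d j) o.2⟩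
  by_cases e : j ∈ T
  · by_cases e2 : z ∈ R
    · rw [kill_in e2 e]
      exact nn.ne_zero (nn.mul (h z j) (nn.pow (h j j) n)) (cut_pow_ge h z e n)
        (mul_ne_zero o.1 (pow_ne_zero _ o.2))
    · rw [kill_row e2]; exact o.1
  · exact nn.ne_zero (h z j) (kill_up h z e) o.1

theorem keep_kill {U : Set s} {M : Matrix s s ℤ[X]} (k : Keep U M N) : Keep U M (kill R T n N) :=
  fun j hj => ⟨fun e => kill_src ((k j hj).1 e), fun e => kill_zero_row ((k j hj).2 e)⟩

theorem kb_one (hs : N v w = N w w) : kb {v} {w} n N v w = ∑ i ∈ range n, N w w ^ (i + 1) ∧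
    ∀ i, (cut {w} N ^ (i + 1)) v w = N w w ^ (i + 1) := by
  have e : ∀ i, (cut {w} N ^ (i + 1)) v w = N w w ^ (i + 1) := fun i => by
    induction i with
    | zero => simp [cut, hs]
    | succ i ih =>
      rw [pow_succ, Matrix.mul_apply, sum_eq_single w (fun u _ hu => by
        rw [cut_pow_out i v (by simpa using hu), zero_mul]) (by simp), ih, pow_succ _ (i + 1)]
      simp [cut]
  refine ⟨?_, e⟩
  rw [kb, of_apply, if_pos (mem_singleton_self v), Matrix.sum_apply]
  exact sum_congr rfl fun i _ => e i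

theorem kill_gain (h : NN N) {a u b : s} (ha : a ∈ R) (hu : u ∈ T) (hb : b ∉ T) (hn : 1 ≤ n)
    (h1 : N a u ≠ 0) (h2 : N u b ≠ 0) : kill R T n N a b ≠ 0 := by
  refine nn.ne_zero (nn.mul (kb_nn (R := R) (T := T) (n := n) h a u) (h u b)) ?_
    (mul_ne_zero (nn.ne_zero (h a u) (kb_ge h ha hu hn) h1) h2)
  rw [kill_out a hb, ← add_sum_erase _ _ hu, add_left_comm, add_sub_cancel_left]
  exact nn.add (h a b) (nn_sum fun x _ => nn.mul (kb_nn h a x) (h x b))

theorem cert_split (h : NN N) (h0 : 0 ≤ ρ) (hη : 0 < η) (hwz : w ≠ z) (hwv : w ≠ v) (hs : Src N w)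
    (h1 : nn ψ) (nc : NN (split v w ψ N)) (h3 : v = z → H15.nz ρ ψ ≤ 1 - 2 * η)
    (c : Cert ρ η z N p) : ∃ p', Cert ρ η z (split v w ψ N) p' := by
  rw [cert_iff h h0] at c
  have K0 := wn_nonneg h h0 (upd_nonneg c.1 z) z
  obtain ⟨q, q0, q1, q2⟩ : ∃ q, 0 < q ∧ (v ≠ z → q = p v) ∧
      (v = z → wn ρ (Function.update p z 0) N z ≤ η * q) := by
    by_cases e : v = z
    · refine ⟨wn ρ (Function.update p z 0) N z / η + 1, by positivity, fun e2 => absurd e e2,
        fun _ => ?_⟩
      rw [mul_add, mul_div_cancel₀ _ hη.ne']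
      linarith
    · exact ⟨p v, c.1 v, fun _ => rfl, fun e2 => absurd e2 e⟩
  have a1 : ∀ i, ∑ l, ev ρ (N i l) * Function.update (Function.update p w q) z 0 l =
      wn ρ (Function.update p z 0) N i := fun i => sum_congr rfl fun l _ => by
    by_cases e : l = w
    · simp [e, hs i]
    · by_cases e2 : l = z
      · simp [e2]
      · simp [e, e2]
  have a2 : ∑ l, ev ρ (srow v w ψ N l) * Function.update (Function.update p w q) z 0 l =
      wn ρ (Function.update p z 0) N v - ev ρ ψ * Function.update p z 0 v + ev ρ ψ * q := by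
    simp only [srow, map_add, map_sub, add_mul, sub_mul, sum_add_distrib, sum_sub_distrib, a1,
      apply_ite (ev ρ), map_zero, ite_mul, zero_mul, sum_ite_eq', mem_univ, if_true]
    by_cases e2 : v = z
    · simp [e2, hwz]
    · simp [e2, hwz, hwv.symm]
  refine ⟨Function.update p w q, (cert_iff nc h0).2 ⟨fun j => ?_, fun j hj => ?_⟩⟩
  · by_cases e : j = w
    · rwa [e, Function.update_self]
    · rw [Function.update_of_ne e]; exact c.1 j
  · by_cases e : j = w
    · rw [e, Function.update_self, wn]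
      simp only [split_w, a2]
      by_cases e2 : v = z
      · have := h3 e2
        rw [h1.nz_eq h0] at this
        rw [e2, Function.update_self]
        nlinarith [q2 e2]
      · rw [Function.update_of_ne e2, q1 e2]
        linarith [c.2 v e2]
    · rw [Function.update_of_ne e, wn]
      by_cases e2 : j = v
      · subst e2
        simp only [split_v, a2]
        rw [Function.update_of_ne hj, q1 hj]
        linarith [c.2 j hj]
      · simp only [split_ne e2 e, a1]
        exact c.2 j hj

theorem ext_of (hM : Moves) : ExtStmt := by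
  intro I G _ _ _ _ N ξ z v w ρ η L ψ st r h0 hη hwz hwv hs hk h1 h2 h3
  have h := ho_of st.hs r
  obtain ⟨p, c⟩ := st.cert
  obtain ⟨o1, e1⟩ := ho_split hM h hwv hs h1 h2
  obtain ⟨p1, c1⟩ := cert_split h.nn h0 hη hwz hwv hs h1 o1.nn h3 c
  have d2 : Disjoint ({v} : Finset I) {w} := by simpa using hwv.symm
  obtain ⟨o2, e2⟩ := o1.kill (n := L) hM d2
  have z2 : z ∉ ({w} : Finset I) := by simpa using hwz.symm
  have c2 := cert_kill (R := {v}) (n := L) o1.nn h0 hη.le z2 c1
  have ψ0 : N v v = 0 → ψ = 0 := fun e => nn.eq_zero h1 h2 (by rw [e]; ring)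
  have k1 : Keep {w} N (split v w ψ N) := fun j hj => by
    have hj : j ≠ w := hj
    refine ⟨fun e u => ?_, fun e l => ?_⟩
    · simp only [split, of_apply, e u, srow, if_neg hj, e v]
      split_ifs with a b
      exacts [by rw [ψ0 (b ▸ e _)]; simp, by simp, rfl]
    · by_cases a : j = v
      · subst a
        simp [split_v, srow, e l, ψ0 (e j)]
      · rw [split_ne a hj, e]
  have k2 := keep_kill (R := {v}) (T := {w}) (n := L) k1
  have ww : split v w ψ N w w = ψ := by rw [split_w, srow_w hwv hs]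
  have vw : split v w ψ N v w = ψ := by rw [split_v, srow_w hwv hs]
  obtain ⟨b1, b2⟩ := kb_one (n := L) (vw.trans ww.symm)
  rw [ww] at b1 b2
  set N2 := kill {v} {w} L (split v w ψ N) with hN2
  have r1 : ∀ i l, i ≠ v → N2 i l = split v w ψ N i l := fun i l e =>
    kill_row (by simpa using e) l
  have r2 : ∀ l, l ≠ w → N2 v l = srow v w ψ N l * ∑ i ∈ range (L + 1), ψ ^ i := fun l e => by
    rw [hN2, kill_out v (by simpa using e), sum_singleton, b1, split_v, split_w, sum_range_succ']
    ring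
  have r3 : N2 v w = ψ ^ (L + 1) := by
    rw [hN2, kill_in (mem_singleton_self v) (mem_singleton_self w), b2]
  have x1 : X ∣ ψ := vw ▸ o1.z0 v w
  have x2 : X ^ L ∣ ψ ^ (L + 1) := (pow_dvd_pow_of_dvd x1 L).trans (pow_dvd_pow _ L.le_succ)
  have g1 : X ^ L ∣ (1 - ψ) * (1 - N2 v v) - (1 - N v v) := by
    have := mul_neg_geom_sum ψ (L + 1)
    rw [r2 v hwv.symm, srow_v hwv]
    have e : (1 - ψ) * (1 - (N v v - ψ) * ∑ i ∈ range (L + 1), ψ ^ i) - (1 - N v v) =
        (N v v - ψ) * ψ ^ (L + 1) := by linear_combination (ψ - N v v) * this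
    rw [e]
    exact x2.mul_left _
  have g2 : nn (N2 v v - (N v v - ψ)) := by
    have := kill_diag (n := L) o1.nn d2 v
    rwa [split_v, srow_v hwv] at this
  have cl : ∀ u l, l ≠ z → u ≠ l → ¬(u = w ∧ l = v) → X ^ L ∣ N2 u l := fun u l a b e => by
    by_cases a1 : u = v
    · subst a1
      by_cases a2 : l = w
      · rwa [a2, r3]
      · rw [r2 l a2, srow_ne b.symm a2]; exact (st.clean _ _ a b).mul_right _
    · rw [r1 u l a1]
      by_cases a2 : u = w
      · have a3 : v ≠ l := fun x => e ⟨a2, x.symm⟩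
        rw [a2, split_w, srow_ne a3.symm (a2 ▸ b.symm)]
        exact st.clean _ _ a a3
      · rw [split_ne a1 a2]; exact st.clean _ _ a b
  have dg : ∀ u, u ≠ v → u ≠ w → N2 u u = N u u := fun u a b => by rw [r1 u u a, split_ne a b]
  have w2 : N2 w w = ψ := by rw [r1 w w hwv, ww]
  have sw : ψ = 0 → Src N2 w := fun e => kill_src fun u => by
    simp only [split, of_apply, srow_w hwv hs, e, hs u, ite_self]
  obtain ⟨j, j1, j2⟩ := st.inv.ex
  have jw : j ≠ w := fun e => j2 (e ▸ hk w)
  have ex2 : ∃ j, j ≠ z ∧ N2 j j ≠ 0 := by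
    by_cases e : ψ = 0
    · refine ⟨j, j1, ?_⟩
      by_cases a : j = v
      · exact a ▸ nn.ne_zero h2 g2 (by rwa [e, sub_zero, ← a])
      · rwa [dg j a jw]
    · exact ⟨w, hwz, by rwa [w2]⟩
  have ou : ∀ u, u ≠ z → u ≠ v → u ≠ w → Snk N2 u ∨ N2 u z ≠ 0 := fun u a b e =>
    (st.inv.out u a).imp (k2 u e).2 fun x => by rwa [r1 u z b, split_ne b e]
  by_cases hv : v = z
  · subst hv
    have d3 : Disjoint ({w} : Finset I) {j} := by simpa using jw.symm
    have z3 : v ∉ ({j} : Finset I) := by simpa using j1.symm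
    obtain ⟨o3, e3⟩ := o2.kill (n := 1) hM d3
    have r4 : ∀ i l, i ≠ w → kill {w} {j} 1 N2 i l = N2 i l := fun i l e =>
      kill_row (by simpa using e) l
    have r5 : ∀ l, X ^ L ∣ kill {w} {j} 1 N2 w l - N2 w l := kill_dvd fun u hu => by
      rw [mem_singleton.1 hu]; exact cl _ _ j1 jw.symm fun e => j1 e.2
    have i2 : ∀ u, u ≠ v → Src N2 u ∨ (N2 v u ≠ 0 ∧ N2 u u ≠ 0) := fun u a => by
      by_cases b : u = w
      · subst b
        by_cases e : ψ = 0
        · exact Or.inl (sw e)
        · exact Or.inr ⟨by rw [r3]; exact pow_ne_zero _ e, by rwa [w2]⟩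
      · refine inn_kill o1.nn d2 ((st.inv.inn u a).imp (k1 u b).1 fun x => ?_)
        rwa [split_v, srow_ne a b, split_ne a b]
    refine ⟨_, (e1.trans e2).trans e3, ⟨o3.hs, ⟨p1, cert_kill o2.nn h0 hη.le z3 c2⟩,
      ⟨fun u a => ?_, fun u a => inn_kill o2.nn d3 (i2 u a), ?_⟩, fun u l a b => ?_⟩,
      keep_kill k2, w2 ▸ r5 w, by rwa [r4 v v hwv.symm], by rwa [r4 v v hwv.symm],
      fun u a b => by rw [r4 u u b, dg u a b, sub_self]; exact dvd_zero _⟩
    · by_cases b : u = w
      · rw [b]
        refine Or.inr (kill_gain o2.nn (mem_singleton_self w) (mem_singleton_self j) z3 le_rfl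
          ?_ ?_)
        · rw [r1 w j hwv, split_w, srow_ne j1 jw]
          exact ((st.inv.inn j j1).resolve_left fun x => j2 (x j)).1
        · rw [r1 j v j1, split_ne j1 jw]
          exact (st.inv.out j j1).resolve_left fun x => j2 (x j)
      · exact out_kill o2.nn z3 (ou u a a b)
    · obtain ⟨u, a, b⟩ := ex2
      exact ⟨u, a, nn.ne_zero (o2.nn u u) (kill_diag o2.nn d3 u) b⟩
    · have := cl u l a b fun e => a e.2
      by_cases e : u = w
      · subst e
        simpa using (r5 l).add this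
      · rwa [r4 u l e]
  · have d3 : Disjoint ({v}ᶜ : Finset I) {v} := disjoint_compl_left
    have z3 : z ∉ ({v} : Finset I) := by simpa using Ne.symm hv
    have m3 : ∀ u, u ≠ v → u ∈ ({v}ᶜ : Finset I) := fun u e => by simpa using e
    obtain ⟨o3, e3⟩ := o2.kill (n := L + 1) hM d3
    set N3 := kill {v}ᶜ {v} (L + 1) N2 with hN3
    have r4 : ∀ l, N3 v l = N2 v l := kill_row (by simp)
    have r5 : ∀ u l, l ≠ z → l ≠ v → X ^ L ∣ N3 u l - N2 u l := fun u l a b =>
      kill_dvd_col u (by simpa using b) fun x hx => by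
        rw [mem_singleton.1 hx]; exact cl _ _ a b.symm fun e => hwv e.1.symm
    have bv : N v v ≠ 0 → N2 z v ≠ 0 := fun e => by
      rw [r1 z v (Ne.symm hv), split_ne (Ne.symm hv) hwz.symm]
      exact ((st.inv.inn v hv).resolve_left fun x => e (x v)).1
    have o4 : ∀ u, u = v ∨ u = w → Snk (split v w ψ N) u ∨ split v w ψ N u z ≠ 0 := fun u e => by
      have e' : ∀ l, split v w ψ N u l = srow v w ψ N l := fun l => by
        rw [split, of_apply, if_pos e]
      refine (st.inv.out v hv).imp (fun x l => ?_) fun x => ?_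
      · rw [e']
        simp [srow, x l, ψ0 (x v)]
      · rwa [e', srow_ne (Ne.symm hv) hwz.symm]
    refine ⟨N3, (e1.trans e2).trans e3, ⟨o3.hs, ⟨p1, cert_kill o2.nn h0 hη.le z3 c2⟩,
      ⟨fun u a => out_kill o2.nn z3 ?_, fun u a => ?_, ?_⟩, fun u l a b => ?_⟩,
      keep_kill k2, w2 ▸ r5 w w hwz hwv, by rwa [r4], by rwa [r4], fun u a b => ?_⟩
    · by_cases b : u = v ∨ u = w
      · exact out_kill o1.nn z2 (o4 u b)
      · exact ou u a (fun e => b (Or.inl e)) fun e => b (Or.inr e)
    · by_cases b : u = v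
      · subst b
        by_cases e : N2 u u = 0
        · refine Or.inl fun x => ?_
          by_cases e' : x = u
          · rw [e', r4, e]
          · rw [hN3, kill_in (m3 x e') (mem_singleton_self u), pow_succ, Matrix.mul_apply]
            refine sum_eq_zero fun y _ => ?_
            by_cases e'' : y = u
            · rw [e'', cut, of_apply (i := u), e, ite_self, mul_zero]
            · rw [cut_pow_out L x (by simpa using e''), zero_mul]
        · refine inn_kill o2.nn d3 (Or.inr ⟨bv fun x => e ?_, e⟩)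
          rw [r2 u hwv.symm, srow_v hwv, ψ0 x, x, sub_zero, zero_mul]
      by_cases b' : u = w
      · subst b'
        by_cases e : ψ = 0
        · exact Or.inl (kill_src (sw e))
        · refine Or.inr ⟨kill_gain o2.nn (m3 z (Ne.symm hv)) (mem_singleton_self v)
            (by simpa using hwv) (by omega) (bv fun x => e (ψ0 x))
            (by rw [r3]; exact pow_ne_zero _ e),
            nn.ne_zero (o2.nn u u) (kill_diag o2.nn d3 u) (by rwa [w2])⟩
      · refine inn_kill o2.nn d3 ((st.inv.inn u a).imp (k2 u b').1 fun x => ?_)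
        rwa [r1 z u (Ne.symm hv), split_ne (Ne.symm hv) hwz.symm, dg u b b']
    · obtain ⟨u, a, b⟩ := ex2
      exact ⟨u, a, nn.ne_zero (o2.nn u u) (kill_diag o2.nn d3 u) b⟩
    · by_cases e : l = v
      · subst e
        exact (pow_dvd_pow _ (by omega)).trans (kill_deep o2.z0 (m3 u b) (mem_singleton_self l))
      · simpa using (r5 u l a e).add (cl u l a b fun x => e x.2)
    · rw [← dg u a b]
      by_cases e : u = z
      · exact kill_dvd (fun x hx => by
          rw [mem_singleton.1 hx]; exact cl _ _ hv a fun y => b y.1) u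
      · exact r5 u u e a

end Pool.Agent.MP_993212_an.H46
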