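import Pool.Agent.MP_993212_an.H16.Spec4

/-! Sufficiency from the low normal form. -/

namespace Pool.Agent.MP_993212_an.H46

open Matrix Polynomial Finset Function H16 H15

theorem dvd_of_mul {s : Type} [Fintype s] [DecidableEq s] {P Z : Matrix s s ℤ[X]} (o : One P)
    {n : ℕ} (h : ∀ i j, X ^ n ∣ (Z * P) i j) (i j : s) : X ^ n ∣ Z i j := by
  have a : P.det.coeff 0 = 1 := by
    have := (constantCoeff : ℤ[X] →+* ℤ).map_det P
    rw [show (constantCoeff : ℤ[X] →+* ℤ).mapMatrix P = 1 from one_iff.1 o, det_one] at this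
    exact this
  have c : IsCoprime ((X : ℤ[X]) ^ n) P.det := by
    refine IsCoprime.pow_left ⟨-divX P.det, 1, ?_⟩
    have := divX_mul_X_add P.det
    rw [a, map_one] at this
    linear_combination -this
  refine c.dvd_of_dvd_mul_left ?_
  have e : P.det * Z i j = (Z * P * adjugate P) i j := by
    rw [Matrix.mul_assoc, mul_adjugate, Matrix.mul_smul, Matrix.mul_one]
    rfl
  rw [e, Matrix.mul_apply]
  exact dvd_sum fun u _ => (h i u).mul_right _

theorem suf_of (hB : Base) (low : LowStmt) (del : DelayStmt) (swv : SwValStmt) (sol : SolveStmt)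
    (hon : HonStmt) (pre : PreStmt) (kl : KlinkStmt) : SufStmt := by
  intro V W _ _ _ _ oV oW A B R S l T v a b h0 pA pB hl e1 e2 e3 e4 hc hT hv
  by_cases big : 2 ≤ ∑ u, ∑ v, A u v
  swap
  · exact pre.small V W A B R S l pA pB hl e1 e2 e3 e4 big
  obtain ⟨G, _, _, κ, h1, ad, xB, xA, val⟩ := pre.pre V W oV oW A B R T v a b h0 e1 hc hT hv
  obtain ⟨h, ν, s, _, _, P₁, P₂, ξ₁, ξ₂, dg, per, p, q, H1, H2, c1, c2, hp, -, cnt, ex, hpq, dp, dq,
    h3, key⟩ := low V W G A B R S l κ pA pB big hl e1 e2 e3 e4 xB xA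
  have ho := rk0_inj (V := s)
  generalize rk0 s = o at ho
  have hD : pn o P₂ ξ₂ - pn o P₁ ξ₁ ∈ Adm A := by
    have := sub_mem (add_mem (ad ▸ hon W s G oW o B κ P₂ ξ₂ h1 ho xB H2) val)
      (hon V s G oV o A _ P₁ ξ₁ h0 ho xA H1)
    rwa [sub_add_sub_cancel, sub_sub_sub_cancel_right] at this
  have sm : ∀ {P : Matrix s s ℤ[X]} {n k : ℕ}, (∀ i j, X ^ n ∣ (P - diagonal dg) i j) → k < n →
      Sm k P (diagonal dg) := fun c e => sm_iff.2 fun i j => (pow_dvd_pow _ e).trans (c i j)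
  have c3 : ∀ π : Equiv.Perm s, (∀ i, per (π i) = per i) → (∀ i, per i = 0 → π i = i) →
      ∀ i j, X ^ (2 * ν + 2) ∣ (P₁.submatrix π π - diagonal dg) i j := fun π a1 a2 i j => by
    have e : dg (π i) = dg i := by
      by_cases z : per i = 0
      · rw [a2 i z]
      · rw [hp i z, hp _ (by rwa [a1]), a1]
    have := c1 (π i) (π j)
    simpa only [Matrix.sub_apply, submatrix_apply, diagonal_apply, π.injective.eq_iff, e] using this
  have o1 : ∀ π : Equiv.Perm s, One (P₁.submatrix π π) := fun π i j => by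
    simpa only [submatrix_apply, π.injective.eq_iff] using H1.1 (π i) (π j)
  obtain ⟨π, δ, a1, a2, a3, a4⟩ := sol V s A h ν per
    (fun π => pn o (P₁.submatrix π π) (ξ₁ ∘ π) - pn o P₁ ξ₁) _ hD cnt ex (fun k _ _ => by simp)
    (fun π τ a1 a2 k k1 k2 => by
      have := pn_perm hB (k := k) (by omega) h3 τ ho (o1 π).inv0 H1.1.inv0
        ((sm (c3 π a1 a2) (by omega)).trans (sm c1 (by omega)).symm) (H1.2.1.equiv π) H1.2.1
      rw [submatrix_submatrix, comp_assoc, ← Equiv.Perm.coe_mul] at this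
      simp only [Pi.sub_apply]
      linear_combination this)
    fun i j b1 b2 b3 k k1 k2 k3 => swv s G k (per i) o P₁ ξ₁ dg i j (by omega) (by omega) k3 h3 ho
      H1.1 H1.2.1 (sm c1 (by omega)) b1 (hp i b3) (b2 ▸ hp j (b2 ▸ b3))
  obtain ⟨P', d1, d2, d3, d4, d5⟩ := del s G ν o _ _ dg per δ h3 ho (o1 π) (H1.2.1.equiv π)
    (c3 π a1 fun i e => (a2 i e).1) hp (fun i e => (a2 i e).2) a3
  obtain ⟨w, w1, U, u1, u2, u3, u4⟩ := key π δ P' a1 a2 a3 d1
  refine u4 (kl s G ν o P₂ ξ₂ dg p q U h3 hpq dp dq H2.1 (sm c2 (by omega)) H2.2.1 ho u1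
    (mem_Cn.2 fun i j => mem_tI.2 (dvd_of_mul H2.1 (fun i j => ?_) i j)) fun k k1 k2 => ?_)
  · have e : (U.val - 1) * P₂ = P' * (w.val - 1) + (P' - diagonal dg) - (P₂ - diagonal dg) := by
      rw [sub_mul, ← u3, mul_sub, one_mul, mul_one]
      abel
    rw [e, Matrix.sub_apply, Matrix.add_apply, Matrix.mul_apply]
    exact ((dvd_sum fun u _ => (mem_tI.1 (mem_Cn.1 (Hn_le_Cn _ w1) u j)).mul_left _).add
      ((pow_dvd_pow _ (by omega)).trans (d4 i j))).sub ((pow_dvd_pow _ (by omega)).trans (c2 i j))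
  · have b1 := pn_right hB (k := k) (by omega) h3 (cl := fun _ => 0)
      (gr_Hn _ (Hn_mono (tI_anti (by omega)) w1) (one_mem _)) ho d2.inv0 d2.inv0 (sm_refl k P') d3 d3
    have b2 : pl w⁻¹.val (fun i => (X : ℤ[X]) ^ δ i • (ξ₁ ∘ π) i) = ξ₂ := by
      rw [show (fun i => (X : ℤ[X]) ^ δ i • (ξ₁ ∘ π) i) = pl w.val ξ₂ from u2.symm, ← pl_mul,
        Units.inv_mul, pl_one]
    rw [b2, u3, inv_one, Units.val_one, Matrix.mul_one, pl_one, sub_self] at b1
    have b3 := a4 k k1 k2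
    simp only [Pi.sub_apply] at b3
    linear_combination b1 + d5 k k1 k2 + b3

end Pool.Agent.MP_993212_an.H46
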