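import Pool.Agent.MP_993212_an.H46.Kill
import Pool.Agent.MP_993212_an.H18.WSpec

/-! The push of one row. -/

set_option linter.unusedSectionVars false

namespace Pool.Agent.MP_993212_an.H46

open Matrix Polynomial H16 H92 Finset

variable {G : Type} [AddCommGroup G] [Module ℤ[X] G] {s : Type} [Fintype s] [DecidableEq s]
  {R T : Finset s} {n : ℕ} {N : Matrix s s ℤ[X]} {ξ : s → G} {ρ η : ℝ} {p : s → ℝ} {z : s}

theorem ho_of (h : H18.Hs N) (r : act (1 - N) ξ = 0) : Ho N ξ :=
  ⟨h.1, fun i j => X_dvd_iff.2 (congrFun (congrFun h.2 i) j), r⟩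

theorem Ho.hs (h : Ho N ξ) : H18.Hs N := ⟨h.nn, cf_zero h.z0⟩

theorem wn_erase (h : NN N) (h0 : 0 ≤ ρ) (z j : s) :
    ∑ l ∈ univ.erase z, H15.nz ρ (N j l) * p l = wn ρ (Function.update p z 0) N j := by
  rw [wn, ← add_sum_erase _ _ (mem_univ z), Function.update_self, mul_zero, zero_add]
  exact sum_congr rfl fun l hl => by
    rw [Function.update_of_ne (ne_of_mem_erase hl), nn.nz_eq (h j l) h0]

theorem cert_iff (h : NN N) (h0 : 0 ≤ ρ) : H18.Cert ρ η z N p ↔
    (∀ j, 0 < p j) ∧ ∀ j, j ≠ z → wn ρ (Function.update p z 0) N j ≤ (1 - η) * p j := by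
  simp only [H18.Cert, wn_erase h h0]

theorem upd_nonneg (hp : ∀ j, 0 < p j) (z j : s) : 0 ≤ Function.update p z 0 j := by
  by_cases e : j = z
  · rw [e, Function.update_self]
  · rw [Function.update_of_ne e]; exact (hp j).le

theorem cert_kill (h : NN N) (h0 : 0 ≤ ρ) (hη : 0 ≤ η) (hz : z ∉ T) (c : H18.Cert ρ η z N p) :
    H18.Cert ρ η z (kill R T n N) p := by
  rw [cert_iff h h0] at c
  rw [cert_iff (kill_nn h) h0]
  refine ⟨c.1, fun j hj => (wn_kill h h0 (fun u hu => ?_) j).trans (c.2 j hj)⟩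
  have e : u ≠ z := fun e => hz (e ▸ hu)
  rw [Function.update_of_ne e]
  nlinarith [c.2 u e, c.1 u]

theorem wn_cut_eq {M : Matrix s s ℤ[X]} (h : NN M) (h0 : 0 ≤ ρ) (hz : z ∉ T) (a : s) :
    wn ρ (Function.update p z 0) (cut T M) a = ∑ l ∈ T, H15.nz ρ (M a l) * p l := by
  rw [wn, ← sum_subset (subset_univ T) fun l _ hl => by
    rw [cut, of_apply, if_neg hl, map_zero, zero_mul]]
  exact sum_congr rfl fun l hl => by
    rw [cut, of_apply, if_pos hl, Function.update_of_ne fun (e : l = z) => hz (e ▸ hl),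
      nn.nz_eq (h a l) h0]

theorem cut_cut : cut T (cut T N) = cut T N := by
  ext1 a b; simp only [cut, of_apply]; split_ifs <;> rfl

theorem cut_pow_ge (h : NN N) (a : s) {l : s} (hl : l ∈ T) (n : ℕ) :
    nn ((cut T N ^ (n + 1)) a l - N a l * N l l ^ n) := by
  have e : ∀ u, cut T N u l = N u l := fun u => by rw [cut, of_apply, if_pos hl]
  induction n with
  | zero => simpa [e] using nn_zero
  | succ n ih =>
    rw [pow_succ, Matrix.mul_apply, ← add_sum_erase _ _ (mem_univ l), e]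
    have := (ih.mul (h l l)).add (nn_sum (T := univ.erase l) fun u _ =>
      nn.mul (NN.pow (cut_nn (T := T) h) (n + 1) a u) (cut_nn (T := T) h u l))
    refine (congrArg nn ?_).mp this
    ring

theorem kb_ge (h : NN N) {a : s} (ha : a ∈ R) {l : s} (hl : l ∈ T) (hn : 1 ≤ n) :
    nn (kb R T n N a l - N a l) := by
  obtain ⟨m, rfl⟩ : ∃ m, n = m + 1 := ⟨n - 1, by omega⟩
  rw [kb, of_apply, if_pos ha, sum_range_succ', Matrix.add_apply, zero_add, pow_one, cut,
    of_apply, if_pos hl, add_sub_cancel_right, Matrix.sum_apply]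
  exact nn_sum fun i _ => NN.pow (cut_nn h) _ a l

theorem kb_src {l : s} (h : ∀ u, N u l = 0) (a : s) : kb R T n N a l = 0 := by
  rw [kb, of_apply]; split_ifs
  · rw [Matrix.sum_apply]
    refine sum_eq_zero fun i _ => ?_
    rw [pow_succ, Matrix.mul_apply]
    exact sum_eq_zero fun u _ => by rw [cut, of_apply, h, ite_self, mul_zero]
  · rfl

theorem push_of (hM : Moves) : H18.PushStmt := by
  intro I G _ _ _ _ N ξ a S n hs r ha
  have h := ho_of hs r
  have k := h.kill (R := {a}) (n := n) hM (disjoint_singleton_left.2 ha)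
  have m := mem_singleton_self a
  refine ⟨kill {a} S n N, kb {a} S n N a, k.2, k.1.hs, fun u hu => funext fun l =>
    kill_row (by simpa using hu) l, fun l => rfl, fun l => kb_nn h.nn a l, fun l hl => kb_col a hl,
    fun hn l hl => kb_ge h.nn m hl hn, fun hk => funext fun l => ?_, fun l hl => kb_src hl a,
    fun k hk l => kb_dvd hk l, fun l hl => (pow_dvd_pow _ n.le_succ).trans (kill_deep h.z0 m hl),
    fun l hl => ?_, fun ρ η z p h0 hη hz c => ⟨cert_kill h.nn h0 hη.le hz c, ?_, ?_⟩⟩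
  · exact zero_dvd_iff.1 (kb_dvd (fun u _ => by rw [hk u]) l)
  · rw [kill_in m hl]; exact cut_pow_ge h.nn a hl n
  · rw [cert_iff h.nn h0] at c
    have := wn_kb (R := {a}) (n := n) (η := η) h.nn h0 (upd_nonneg c.1 z) (T := S) (fun u hu => by
      have e : u ≠ z := fun e => hz (e ▸ hu)
      rw [Function.update_of_ne e]; exact c.2 u e) a
    rw [wn_cut_eq h.nn h0 hz, ← wn_erase (kb_nn h.nn) h0] at this
    rwa [← add_sum_erase _ _ (mem_univ z), kb_col a hz, nn_zero.nz_eq h0, map_zero, zero_mul,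
      zero_add]
  · rw [cert_iff h.nn h0] at c
    rcases S.eq_empty_or_nonempty with e | ⟨u, hu⟩
    · simp [e]
    have e : u ≠ z := fun e => hz (e ▸ hu)
    have h1 : η ≤ 1 := by
      nlinarith [c.2 u e, c.1 u, wn_nonneg h.nn h0 (upd_nonneg c.1 z) u]
    have := wn_cut_pow (T := S) (η := η) (cut_nn (T := S) h.nn) h0 (upd_nonneg c.1 z) h1
      (fun u hu => by
        have e : u ≠ z := fun e => hz (e ▸ hu)
        rw [Function.update_of_ne e]
        exact (wn_cut_le h.nn h0 (upd_nonneg c.1 z) u).trans (c.2 u e)) n a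
    rw [cut_cut, wn_cut_eq h.nn h0 hz] at this
    refine le_trans (le_of_eq ?_) this
    rw [← wn_cut_eq k.1.nn h0 hz]
    refine sum_congr rfl fun l _ => congrArg (ev ρ · * _) ?_
    rw [cut, of_apply]; split_ifs with hl
    · exact kill_in m hl
    · exact (cut_pow_out n a hl).symm

end Pool.Agent.MP_993212_an.H46
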