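import Pool.Agent.MP_993212_an.H46.RoomA

/-! Room in the column and the row of the hub: estimates. -/

set_option linter.unusedSectionVars false

namespace Pool.Agent.MP_993212_an.H46

open Matrix Polynomial H16 H92 Finset H18 H15

variable {ρ : ℝ} {I : Type} [Fintype I] [DecidableEq I]

theorem sum_bd (h0 : 0 ≤ ρ) {e t : I → ℤ[X]} {T : Finset I} {b κ : ℝ} (n1 : ∀ j, nn (e j))
    (n2 : ∀ j, nn (t j)) (he : ∀ j ∈ T, ev ρ (e j) ≤ b) (ht : ∀ j, ev ρ (t j) ≤ κ) (hb : 0 ≤ b)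
    (hκ : 0 ≤ κ) : ev ρ (∑ j ∈ T, e j * t j) ≤ (Fintype.card I * κ + 1) * b := by
  rw [map_sum]
  refine (sum_le_card_nsmul _ _ (b * κ) fun j hj => ?_).trans ?_
  · rw [map_mul]
    exact mul_le_mul (he j hj) (ht j) ((n2 j).ev_nonneg h0) hb
  · have : (T.card : ℝ) ≤ Fintype.card I := by exact_mod_cast card_le_univ T
    rw [nsmul_eq_mul]
    nlinarith [mul_nonneg hb hκ]

theorem sum_split {e t : I → ℤ[X]} {z i : I} (ht : t z = 0) :
    ∑ j, e j * t j = e i * t i + ∑ j ∈ (univ.erase z).erase i, e j * t j := by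
  rw [← add_sum_erase _ _ (mem_univ z), ht, mul_zero, zero_add]
  by_cases a : i = z
  · rw [a, ht, mul_zero, zero_add, erase_idem]
  · rw [add_sum_erase _ (fun j => e j * t j) (mem_erase.2 ⟨a, mem_univ i⟩)]

theorem ev_geom (h0 : 0 ≤ ρ) {η : ℝ} (hη : 0 < η) {φ : ℤ[X]} (h : nn φ) (h1 : ev ρ φ ≤ 1 - η)
    (J : ℕ) : ev ρ (∑ i ∈ range J, φ ^ i) ≤ 1 / η := by
  have a1 := congrArg (ev ρ) (mul_neg_geom_sum φ J)
  rw [map_mul, map_sub, map_sub, map_one] at a1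
  have a2 := (h.pow J).ev_nonneg h0
  have a3 := (nn_sum (T := range J) fun i _ => h.pow i).ev_nonneg h0
  rw [le_div_iff₀ hη]
  nlinarith

theorem nz_sum' {ι : Type} (T : Finset ι) (a : ι → ℤ[X]) :
    nz ρ (∑ i ∈ T, a i) ≤ ∑ i ∈ T, nz ρ (a i) := by
  rw [nz, map_sum]; exact nm_sum _ _

theorem room_of (hM : Moves) : RoomStmt := by
  intro ρ ρ₁ η h c h0 h1 h2 hη hh hc
  have r1 : ρ < 1 := h1.trans h2
  have r0 : 0 < ρ₁ := h0.trans h1
  obtain ⟨κ, hκ⟩ : ∃ κ : ℝ, κ = (h + 1) / η := ⟨_, rfl⟩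
  have κ0 : 0 < κ := by rw [hκ]; positivity
  have κ1 : κ = (h + 1) * (1 / η) := by rw [hκ]; ring
  have η1 : 0 < 1 / η := by positivity
  have hh0 : (0 : ℝ) ≤ h := Nat.cast_nonneg h
  obtain ⟨γ₀, g1, g2⟩ := exists_pow_le h0.le r1
    (show 0 < ρ ^ (2 * h) / (32 * κ) by positivity) (2 * h)
  refine ⟨γ₀, fun I _ _ z p q => ?_⟩
  obtain ⟨n, hn⟩ : ∃ n : ℝ, n = Fintype.card I := ⟨_, rfl⟩
  have n0 : 0 ≤ n := by rw [hn]; positivity
  obtain ⟨γ₁, g3, g4⟩ := exists_pow_le h0.le r1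
    (show 0 < ρ ^ (2 * h) / (16 * κ * (n + 1)) by positivity) (2 * h)
  obtain ⟨γ, hγ⟩ : ∃ γ : I → ℕ, γ = fun l => if l = p ∨ l = q then γ₀ else γ₁ := ⟨_, rfl⟩
  have g5 : ∀ l, 2 * h ≤ γ l ∧ γ l ≤ γ₀ + γ₁ := fun l => by
    rw [hγ]; dsimp only; split_ifs <;> omega
  have g6 : κ * ∑ l, ρ ^ γ l ≤ ρ ^ (2 * h) / 8 := by
    have a1 : ∑ l, ρ ^ γ l ≤ ∑ l, ((if l = p then ρ ^ γ₀ else 0) + (if l = q then ρ ^ γ₀ else 0) +
        ρ ^ γ₁) := sum_le_sum fun l _ => by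
      have := pow_pos h0 γ₀
      have := pow_pos h0 γ₁
      rw [hγ]; dsimp only
      by_cases a : l = p <;> by_cases b : l = q <;> simp [a, b] <;> (try split_ifs) <;> linarith
    simp only [sum_add_distrib, sum_ite_eq', mem_univ, if_true, sum_const, card_univ,
      nsmul_eq_mul, ← hn] at a1
    rw [le_div_iff₀ (by positivity)] at g2 g4
    have := pow_pos h0 γ₁
    nlinarith [mul_le_mul_of_nonneg_left a1 κ0.le, mul_pos κ0 this]
  refine ⟨γ, by simp [hγ], by simp [hγ], fun l => by have := g5 l; omega, fun K =>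
    ⟨|K| + 1 + κ, ρ ^ (2 * h) / (4 * (n * κ + 1)), by positivity, fun ε L hε => ?_⟩⟩
  obtain ⟨δ, d0, d1, d2⟩ : ∃ δ, 0 < δ ∧ δ ≤ ε ∧ δ ≤ ρ ^ (γ₀ + γ₁ + 2 * h) / 8 :=
    ⟨min ε _, by positivity, min_le_left _ _, min_le_right _ _⟩
  have d3 : ∀ k, k ≤ γ₀ + γ₁ + 2 * h → δ ≤ ρ ^ k / 8 := fun k e => by
    linarith [pow_le_pow_of_le_one h0.le r1.le e]
  have d4 : δ ≤ 1 / 8 := by simpa using d3 0 (by omega)
  obtain ⟨L', l1, l2⟩ := exists_pow_le (div_pos h0 r0).le ((div_lt_one r0).2 h1)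
    (show 0 < δ / (4 * (n * κ + 1) * (|K| + 1)) by positivity) (L + γ₀ + γ₁ + 2 * h)
  refine ⟨L', fun G _ _ N ξ dg M nf rm hf hK r dp dq => ?_⟩
  have o := ho_of nf.hs r
  have nN : ∀ i j, nn (N i j) := o.nn
  obtain ⟨ω, w0, w1, w2⟩ : ∃ ω, 0 ≤ ω ∧ (n * κ + 1) * ω ≤ δ / 4 ∧
      ∀ a, nn a → X ^ L' ∣ a → nz ρ₁ a ≤ |K| + 1 → ev ρ a ≤ ω := by
    refine ⟨(ρ / ρ₁) ^ L' * (|K| + 1), by positivity, ?_, fun a a1 a2 a3 => ?_⟩
    · rw [le_div_iff₀ (by positivity)] at l2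
      linarith
    · rw [a1.nz_eq r0.le] at a3
      exact (a1.ev_deep h0 h1.le a2).trans (mul_le_mul_of_nonneg_left a3 (by positivity))
  have w3 : ω ≤ δ / 4 := by nlinarith [mul_nonneg (mul_nonneg n0 κ0.le) w0]
  have hoff : ∀ u l, u ≠ l → ev ρ (N u l) ≤ ω := fun u l e =>
    w2 _ (nN u l) (nf.off u l e).1 (by linarith [(nf.off u l e).2, le_abs_self K])
  obtain ⟨θ, t0, t1, t2⟩ : ∃ θ, 0 ≤ θ ∧ (n * κ + 1) * θ ≤ ρ ^ (M + 2 * h) / 4 ∧
      ∀ u l, u ≠ z → l ≠ z → u ≠ l → ev ρ (N u l) ≤ θ := by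
    refine ⟨ρ ^ (2 * h) / (4 * (n * κ + 1)) * ρ ^ M, by positivity, le_of_eq ?_,
      fun u l a b e => ?_⟩
    · rw [pow_add]; field_simp
    · exact ((nN u l).ev_mono h0.le h1.le).trans
        ((nN u l).nz_eq r0.le ▸ (rm.junk u l a b e).2)
  have hlt : ∀ j, j ≠ z → ev ρ₁ (N j j) ≤ 1 - η := fun j e => (nN j j).nz_eq r0.le ▸ nf.lt j e
  obtain ⟨J, j1, j2⟩ := exists_pow_le (le_max_right (1 - η) 0) (max_lt (by linarith) one_pos)
    (show 0 < min δ (ρ ^ (M + 2 * h)) / (4 * (h + 1)) by positivity) (L' + M + 2 * h)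
  obtain ⟨τ, u0, u1, u2, u3⟩ : ∃ τ, 0 ≤ τ ∧ (h + 1) * τ ≤ δ / 4 ∧
      (h + 1) * τ ≤ ρ ^ (M + 2 * h) / 4 ∧ ∀ j, j ≠ z → ev ρ (N j j ^ J) ≤ τ := by
    rw [le_div_iff₀ (by positivity)] at j2
    refine ⟨max (1 - η) 0 ^ J, by positivity, by linarith [min_le_left δ (ρ ^ (M + 2 * h))],
      by linarith [min_le_right δ (ρ ^ (M + 2 * h))], fun j e => ?_⟩
    rw [map_pow]
    exact pow_le_pow_left₀ ((nN j j).ev_nonneg h0.le)
      (((nN j j).ev_mono h0.le h1.le).trans ((hlt j e).trans (le_max_left _ _))) J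
  have xJ : ∀ j k, k ≤ L' + M + 2 * h → X ^ k ∣ N j j ^ J := fun j k e =>
    (pow_dvd_pow _ (e.trans j1)).trans (pow_dvd_pow_of_dvd (o.z0 j j) J)
  obtain ⟨S, hS⟩ : ∃ S : I → ℤ[X], S = fun j => ∑ i ∈ range J, N j j ^ i := ⟨_, rfl⟩
  have S0 : ∀ j, nn (S j) := fun j => hS ▸ nn_sum fun i _ => (nN j j).pow i
  have S1 : ∀ j, j ≠ z → ev ρ₁ (S j) ≤ 1 / η := fun j e =>
    hS ▸ ev_geom r0.le hη (nN j j) (hlt j e) J
  have S2 : ∀ j, (1 - N j j) * S j = 1 - N j j ^ J := fun j => hS ▸ mul_neg_geom_sum _ _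
  -- the two vectors
  have vec : ∀ A : I → ℤ[X], (∀ j, nn (A j)) → (∀ j, X ∣ A j) → (∀ j, ev ρ₁ (A j) ≤ h + 1) →
      ∃ t : I → ℤ[X], t z = 0 ∧ (∀ j, j ≠ z → t j = A j * S j) ∧ (∀ j, nn (t j)) ∧
        (∀ j, X ∣ t j) ∧ (∀ j, ev ρ₁ (t j) ≤ κ) ∧ (∀ j, ev ρ (t j) ≤ κ) ∧
        ∀ (e : I → ℤ[X]) (i : I), i ≠ z → e i = N i i → (∀ j, nn (e j)) →
          (∀ j, j ≠ z → j ≠ i → X ^ L' ∣ e j ∧ X ^ (M + 2 * h) ∣ e j ∧ ev ρ (e j) ≤ ω ∧
            ev ρ (e j) ≤ θ) → ∃ y, t i - ∑ j, e j * t j = A i - y ∧ nn y ∧ X ^ L' ∣ y ∧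
            X ^ (M + 2 * h) ∣ y ∧ ev ρ y ≤ δ / 2 ∧ ev ρ y ≤ ρ ^ (M + 2 * h) / 2 ∧
            ((∀ j, e j = 0) → y = 0) := fun A a1 a2 a3 => by
    obtain ⟨t, b1, b2⟩ : ∃ t : I → ℤ[X], t z = 0 ∧ ∀ j, j ≠ z → t j = A j * S j :=
      ⟨fun j => if j = z then 0 else A j * S j, if_pos rfl, fun j e => if_neg e⟩
    have b3 : ∀ j, nn (t j) := fun j => by
      by_cases e : j = z
      · rw [e, b1]; exact nn_zero
      · rw [b2 j e]; exact (a1 j).mul (S0 j)
    have b4 : ∀ j, ev ρ₁ (t j) ≤ κ := fun j => by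
      by_cases e : j = z
      · rw [e, b1, map_zero]; exact κ0.le
      · rw [b2 j e, map_mul, κ1]
        exact mul_le_mul (a3 j) (S1 j e) ((S0 j).ev_nonneg r0.le) (by linarith)
    have b5 : ∀ j, ev ρ (t j) ≤ κ := fun j => ((b3 j).ev_mono h0.le h1.le).trans (b4 j)
    refine ⟨t, b1, b2, b3, fun j => ?_, b4, b5, fun e i hi e1 e2 e3 => ?_⟩
    · by_cases e : j = z
      · rw [e, b1]; exact dvd_zero _
      · rw [b2 j e]; exact (a2 j).mul_right _
    have m : ∀ j ∈ (univ.erase z).erase i, _ := fun j hj =>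
      e3 j (ne_of_mem_erase (mem_of_mem_erase hj)) (ne_of_mem_erase hj)
    have c1 : ev ρ (A i * N i i ^ J) ≤ (h + 1) * τ := by
      rw [map_mul]
      exact mul_le_mul (((a1 i).ev_mono h0.le h1.le).trans (a3 i)) (u3 i hi)
        (((nN i i).pow J).ev_nonneg h0.le) (by linarith)
    have c2 := sum_bd h0.le e2 b3 (fun j hj => (m j hj).2.2.1) b5 w0 κ0.le
    have c3 := sum_bd h0.le e2 b3 (fun j hj => (m j hj).2.2.2) b5 t0 κ0.le
    rw [← hn] at c2 c3
    refine ⟨A i * N i i ^ J + ∑ j ∈ (univ.erase z).erase i, e j * t j, ?_,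
      ((a1 i).mul ((nN i i).pow J)).add (nn_sum fun j _ => (e2 j).mul (b3 j)),
      ((xJ i _ (by omega)).mul_left _).add (dvd_sum fun j hj => (m j hj).1.mul_right _),
      ((xJ i _ (by omega)).mul_left _).add (dvd_sum fun j hj => (m j hj).2.1.mul_right _),
      by rw [map_add]; linarith, by rw [map_add]; linarith, fun e4 => ?_⟩
    · rw [sum_split (i := i) b1, e1, b2 i hi]
      linear_combination A i * S2 i
    · simp [e4, ← e1, show J ≠ 0 by omega]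
  obtain ⟨s, s0, s1, s2, s3, s4, s5, s6⟩ := vec (fun _ => Wd h) (fun _ => Wd_nn h)
    (fun _ => (dvd_pow_self X (by omega)).trans (Wd_dvd h))
    fun _ => by linarith [ev_Wd r0.le h2.le h]
  obtain ⟨s', v0, v1, v2, v3, v4, v5, v6⟩ := vec (fun l => X ^ γ l) (fun _ => nn_X_pow _)
    (fun l => dvd_pow_self X (by have := g5 l; omega))
    fun l => by
      rw [map_pow, ev_X]
      linarith [pow_le_one₀ (n := γ l) r0.le h2.le]
  choose! y y1 y2 y3 y4 y5 y6 y7 using fun i (hi : i ≠ z) => s6 (N i) i hi rfl (nN i)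
    fun j a b => ⟨(nf.off i j b.symm).1, (rm.junk i j hi a b.symm).1, hoff i j b.symm,
      t2 i j hi a b.symm⟩
  choose! y' z1 z2 z3 z4 z5 z6 z7 using fun l (hl : l ≠ z) => v6 (N · l) l hl rfl (nN · l)
    fun j a b => ⟨(nf.off j l b).1, (rm.junk j l a hl b).1, hoff j l b, t2 j l a hl b⟩
  obtain ⟨y₀, f1, f2, f3, f4⟩ : ∃ y₀, ∑ j, N z j * s j = y₀ ∧ nn y₀ ∧ X ^ L' ∣ y₀ ∧
      ev ρ y₀ ≤ δ / 4 := by
    rw [sum_split (i := z) s0, s0, mul_zero, zero_add, erase_idem]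
    have := sum_bd (T := univ.erase z) h0.le (nN z) s2
      (fun j hj => hoff z j (ne_of_mem_erase hj).symm) s5 w0 κ0.le
    exact ⟨_, rfl, nn_sum fun j _ => (nN z j).mul (s2 j), dvd_sum fun j hj =>
      (nf.off z j (ne_of_mem_erase hj).symm).1.mul_right _, by rw [← hn] at this; linarith⟩
  obtain ⟨g, hg⟩ : ∃ g : ℤ[X], g = (c : ℤ[X]) * X ^ h := ⟨_, rfl⟩
  have g0 : nn g ∧ X ∣ g :=
    hg ▸ ⟨(nn_natCast c).mul (nn_X_pow h), (dvd_pow_self X (by omega)).mul_left _⟩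
  have hf' : nn (N z z - g - X ^ 0 * Wd h) := by
    rw [hg, pow_zero, one_mul, sub_sub]; exact hf
  obtain ⟨N₁, hN₁⟩ : ∃ N₁, N₁ = ncol z s N := ⟨_, rfl⟩
  have e1 : ∀ i l, l ≠ z → N₁ i l = N i l := fun i l e => by rw [hN₁, ncol, of_apply, if_neg e]
  have e2 : ∀ i, i ≠ z → N₁ i z = N i z + Wd h - y i := fun i e => by
    rw [hN₁, ncol, of_apply, if_pos rfl, add_sub_assoc, y1 i e, add_sub_assoc]
  have e3 : N₁ z z = N z z - y₀ := by rw [hN₁, ncol, of_apply, if_pos rfl, s0, add_zero, f1]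
  have x1 : ∀ i l, X ∣ N₁ i l := fun i l => by
    rw [hN₁, ncol, of_apply]; split_ifs
    exacts [((o.z0 i z).add (s3 i)).sub (dvd_sum fun j _ => (s3 j).mul_left _), o.z0 i l]
  obtain ⟨N₂, hN₂⟩ : ∃ N₂, N₂ = nrow z s' N₁ := ⟨_, rfl⟩
  have e4 : ∀ i l, i ≠ z → N₂ i l = N₁ i l := fun i l e => by rw [hN₂, nrow, of_apply, if_neg e]
  have e5 : ∀ l, l ≠ z → N₂ z l = N z l + X ^ γ l - y' l := fun l e => by
    rw [hN₂, nrow, of_apply, if_pos rfl, add_sub_assoc, e1 z l e, add_sub_assoc, ← z1 l e]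
    simp only [e1 _ l e, mul_comm]
  have x2 : ∀ i l, X ∣ N₂ i l := fun i l => by
    rw [hN₂, nrow, of_apply]; split_ifs
    exacts [((x1 z l).add (v3 l)).sub (dvd_sum fun j _ => (v3 j).mul_right _), x1 i l]
  have a1 : ∀ i, i ≠ z → nz ρ (N i z - y i) ≤ δ := fun i e => by
    have := nz_sub (ρ := ρ) (N i z) (y i)
    rw [(nN i z).nz_eq h0.le, (y2 i e).nz_eq h0.le] at this
    linarith [hoff i z e, y5 i e]
  obtain ⟨w, e6, w4, w5⟩ : ∃ w, N₂ z z = N z z - w ∧ X ^ (2 * h) ∣ w ∧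
      nz ρ w ≤ ρ ^ (2 * h) / 8 + δ := by
    refine ⟨y₀ + ∑ u, s' u * N₁ u z, ?_, ((pow_dvd_pow _ (by omega)).trans f3).add
      (dvd_sum fun u _ => Dvd.dvd.mul_right ?_ _), (nz_add _ _).trans ?_⟩
    · rw [hN₂, nrow, of_apply, if_pos rfl, v0, e3]; ring
    · by_cases e : u = z
      · rw [e, v0]; exact dvd_zero _
      · rw [v1 u e]; exact (pow_dvd_pow _ (g5 u).1).mul_right _
    · have b1 : ∀ u, nz ρ (s' u * N₁ u z) ≤ κ * ρ ^ γ u := fun u => by
        by_cases e : u = z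
        · rw [e, v0, zero_mul, nn_zero.nz_eq h0.le, map_zero]; positivity
        · have b2 : nz ρ (N₁ u z) ≤ h + 1 := by
            have := nz_add (ρ := ρ) (Wd h) (N u z - y u)
            rw [(Wd_nn h).nz_eq h0.le] at this
            rw [e2 u e, add_comm, add_sub_assoc]
            linarith [ev_Wd h0.le r1.le h, a1 u e]
          have b3 : nz ρ (s' u) ≤ ρ ^ γ u * (1 / η) := by
            rw [(v2 u).nz_eq h0.le, v1 u e, map_mul, map_pow, ev_X]
            exact mul_le_mul_of_nonneg_left (((S0 u).ev_mono h0.le h1.le).trans (S1 u e))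
              (by positivity)
          refine (nz_mul _ _).trans ((mul_le_mul b3 b2 (nz_nonneg _) (by positivity)).trans
            (le_of_eq ?_))
          rw [κ1]; ring
      have b4 := (nz_sum' (ρ := ρ) univ fun u => s' u * N₁ u z).trans (sum_le_sum fun u _ => b1 u)
      rw [← mul_sum] at b4
      rw [f2.nz_eq h0.le]
      linarith
  -- the columns of the models
  have col : ∀ i, i ≠ z → ∃ π, nn π ∧ nn (N i z - y i - (1 - g) * π) := fun i e => by
    rcases rm.out i e with a | ⟨m, a, b⟩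
    · exact ⟨0, nn_zero, by simpa [a z, y7 i e a] using nn_zero⟩
    · obtain ⟨π, b1, b2, -⟩ := room h0 r1.le hh hc b ((pow_dvd_pow _ (by omega)).trans (y4 i e))
        (by
          rw [(y2 i e).nz_eq h0.le]
          linarith [y6 i e, pow_le_pow_of_le_one h0.le r1.le (show m + 2 * h ≤ M + 2 * h by omega)])
        0
      exact ⟨π, b1, hg ▸ b2⟩
  choose! π p1 p2 using col
  obtain ⟨π₀, p3, p4, -⟩ := room h0 r1.le hh hc hf' ((pow_dvd_pow _ (by omega)).trans f3) (by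
    rw [f2.nz_eq h0.le]
    linarith [d3 (0 + 2 * h) (by omega), pow_pos h0 (0 + 2 * h)]) 0
  obtain ⟨π₁, p5, p6, p7⟩ := room h0 r1.le hh hc hf' ((pow_dvd_pow _ (by omega)).trans w4) (by
    rw [zero_add]
    linarith [d3 (2 * h) (by omega), pow_pos h0 (2 * h)]) (∑ l, (y' l).natDegree + 1)
  rw [← hg] at p4 p6
  simp only [zero_add] at p7
  have dg' : ∀ l, (y' l).natDegree < ∑ l, (y' l).natDegree + 1 := fun l =>
    Nat.lt_succ_of_le (single_le_sum (f := fun l => (y' l).natDegree) (fun _ _ => Nat.zero_le _)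
      (mem_univ l))
  have bet : ∀ l, ∃ b, (nn b ∧ X ∣ b) ∧ (l ≠ z → nn (N z l - b) ∧ nn (b * π₁ - y' l)) := fun l => by
    by_cases e : l = z
    · exact ⟨0, ⟨nn_zero, dvd_zero _⟩, fun a => absurd e a⟩
    rcases rm.inn l e with a | ⟨m, a, b⟩
    · exact ⟨0, ⟨nn_zero, dvd_zero _⟩, fun _ =>
        ⟨by simpa using nN z l, by simpa [z7 l e a] using nn_zero⟩⟩
    · refine ⟨X ^ m, ⟨nn_X_pow m, ?_⟩, fun _ => ⟨b, absorb h0 p5 p7
        ((pow_dvd_pow _ (by omega)).trans (z4 l e)) ?_ (dg' l)⟩⟩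
      · simpa using (nn_X_pow m).dvd_of_le (k := 1) b (by simpa using o.z0 z l)
      · rw [(z2 l e).nz_eq h0.le]
        linarith [z6 l e, pow_le_pow_of_le_one h0.le r1.le (show m + 2 * h ≤ M + 2 * h by omega)]
  choose β q1 q2 using bet
  have q3 : ∀ l, l ≠ z → nn (X ^ γ l * π₁ - y' l) := fun l e => absorb h0 p5 p7
    ((pow_dvd_pow _ (by have := g5 l; omega)).trans (z3 l e)) (by
      rw [(z2 l e).nz_eq h0.le]
      linarith [z5 l e, d3 (γ l + 2 * h) (by have := g5 l; omega), pow_pos h0 (γ l + 2 * h)])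
    (dg' l)
  have up : ∀ a : ℤ[X], nn a → ∀ i, nn (Function.update π z a i) := fun a ha i => by
    by_cases e : i = z
    · rwa [e, Function.update_self]
    · rw [Function.update_of_ne e]; exact p1 i e
  have b0 : ∀ l : I, nn ((0 : I → ℤ[X]) l) ∧ X ∣ (0 : I → ℤ[X]) l := fun _ =>
    ⟨nn_zero, dvd_zero _⟩
  have c1 : ∀ (a : ℤ[X]) i, i ≠ z →
      nn (N₁ i z - (if i = z then g else 0) - (1 - g) * Function.update π z a i) := fun a i e => by
    rw [if_neg e, Function.update_of_ne e, e2 i e]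
    refine (congrArg nn ?_).mp ((p2 i e).add (Wd_nn h))
    ring
  have c2 : ∀ i, nn (N₁ i z - (if i = z then g else 0) - (1 - g) * Function.update π z π₀ i) :=
    fun i => by
      by_cases e : i = z
      · rw [if_pos e, e, Function.update_self, e3]
        refine (congrArg nn ?_).mp p4
        ring
      · exact c1 _ i e
  have c3 : ∀ i, nn (N₂ i z - (if i = z then g else 0) - (1 - g) * Function.update π z π₁ i) :=
    fun i => by
      by_cases e : i = z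
      · rw [if_pos e, e, Function.update_self, e6]
        refine (congrArg nn ?_).mp p6
        ring
      · rw [e4 i z e]; exact c1 _ i e
  have V0 : Vz z g 0 0 N := ⟨g0, b0, o.z0, fun _ => nn_zero, fun i => by
    split_ifs with e
    · have := hf'.add ((nn_X_pow 0).mul (Wd_nn h))
      simpa [e] using this
    · simpa using nN i z, fun i l _ => by simpa using nN i l⟩
  have V0' : Vz z g 0 (Function.update π z π₀) N := ⟨g0, b0, o.z0, up _ p3, fun i => by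
    by_cases e : i = z
    · rw [if_pos e, e, Function.update_self]
      refine (congrArg nn ?_).mp (p4.add f2)
      ring
    · rw [if_neg e, Function.update_of_ne e]
      refine (congrArg nn ?_).mp ((p2 i e).add (y2 i e))
      ring, fun i l _ => by simpa using nN i l⟩
  have V1 : Vz z g 0 (Function.update π z π₀) N₁ := ⟨g0, b0, x1, up _ p3, c2, fun i l e => by
    simpa [e1 i l e] using nN i l⟩
  have V2 : Vz z g β (Function.update π z π₀) N₁ := ⟨g0, q1, x1, up _ p3, c2, fun i l e => by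
    refine nn.add ?_ ((q1 l).1.mul (up _ p3 i))
    rw [e1 i l e]; split_ifs with a
    exacts [a ▸ (q2 l e).1, by simpa using nN i l]⟩
  have V3 : Vz z g β (Function.update π z π₁) N₂ := ⟨g0, q1, x2, up _ p5, c3, fun i l e => by
    by_cases a : i = z
    · rw [if_pos a, a, Function.update_self, e5 l e]
      refine (congrArg nn ?_).mp (((q2 l e).1.add (q2 l e).2).add (nn_X_pow (γ l)))
      ring
    · rw [if_neg a, e4 i l a, e1 i l e, sub_zero]
      exact (nN i l).add ((q1 l).1.mul (up _ p5 i))⟩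
  have V4 : Vz z g (fun l => X ^ γ l) (Function.update π z π₁) N₂ := ⟨g0, fun l => ⟨nn_X_pow _,
    dvd_pow_self X (by have := g5 l; omega)⟩, x2, up _ p5, c3, fun i l e => by
    by_cases a : i = z
    · rw [if_pos a, a, Function.update_self, e5 l e]
      refine (congrArg nn ?_).mp ((nN z l).add (q3 l e))
      ring
    · rw [if_neg a, e4 i l a, e1 i l e, sub_zero]
      exact (nN i l).add ((nn_X_pow _).mul (up _ p5 i))⟩
  have E0 := V0.start hM o
  have E1 := V0'.mcol hM (hN₁ ▸ V1) s0 r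
  rw [← hN₁] at E1
  have E2 := V1.sw hM V2 E1.rel'
  have E3 := V2.mrow hM (hN₂ ▸ V3) v0 E1.rel'
  rw [← hN₂] at E3
  have E4 := V3.sw hM V4 E3.rel'
  have e7 : (1 - vecMulVec (Pi.single z 1) s') * (1 - N) * (1 - vecMulVec s (Pi.single z 1)) =
      1 - N₂ := by rw [hN₂, nrow_eq, hN₁, ncol_eq, mul_assoc]
  have LL : ∀ {a : ℤ[X]}, X ^ L' ∣ a → X ^ L ∣ a := fun e => (pow_dvd_pow _ (by omega)).trans e
  have K0 := abs_nonneg K
  refine ⟨s, s', s0, v0, ?_, ?_, fun j e => ?_⟩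
  · rw [e7, ← hg]
    exact (((E0.trans E1).trans E2).trans E3).trans E4
  · rw [e7, sub_sub_cancel]
    refine ⟨cf_zero x2, fun i e => ?_, ⟨N z z - g, by rwa [pow_zero, one_mul] at hf', ?_⟩, ?_, fun l e => ?_,
      fun i l a b e => ?_, fun l e => ?_⟩
    · rw [e4 i z e, e2 i e, show N i z + Wd h - y i - Wd h = N i z - y i by ring]
      exact ⟨LL ((nf.off i z e).1.sub (y3 i e)), (a1 i e).trans d1⟩
    · rw [e6, ← hg, show N z z - w - g - (N z z - g) = -w by ring, nz_neg]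
      exact ⟨w4.neg_right, by linarith⟩
    · have b1 := nz_sub (ρ := ρ) (N z z) w
      have b2 : nz ρ (N z z) ≤ nz ρ₁ (N z z) := nm_mono h0.le h1.le _
      rw [e6]
      linarith [le_abs_self K, pow_le_one₀ (n := 2 * h) h0.le r1.le]
    · have := nz_sub (ρ := ρ) (N z l) (y' l)
      rw [(nN z l).nz_eq h0.le, (z2 l e).nz_eq h0.le] at this
      rw [e5 l e, show N z l + X ^ γ l - y' l - X ^ γ l = N z l - y' l by ring]
      exact ⟨LL ((nf.off z l (Ne.symm e)).1.sub (z3 l e)),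
        by linarith [hoff z l (Ne.symm e), z5 l e]⟩
    · rw [e4 i l a, e1 i l b, (nN i l).nz_eq h0.le]
      exact ⟨LL (nf.off i l e).1, by linarith [hoff i l e]⟩
    · rw [e4 l l e, e1 l l e]
      by_cases a : l = p ∨ l = q
      · have b : X ^ L' ∣ N l l := by
          have := nf.dia l
          rw [show dg l = 1 by rcases a with a | a <;> rwa [a]] at this
          simpa using this
        refine ⟨0, nn_zero, by simp [nn_zero.nz_eq h0.le], fun _ => rfl, ?_⟩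
        rw [sub_zero, (nN l l).nz_eq h0.le]
        exact ⟨LL b, by linarith [w2 _ (nN l l) b (by linarith [nf.lt l e])]⟩
      · refine ⟨N l l, nN l l, ?_, fun b => absurd b a, ?_⟩
        · exact (nm_mono h0.le h1.le _).trans ((nf.lt l e).trans (by linarith))
        · simpa [nn_zero.nz_eq h0.le] using hε.le
  · have b : ∀ A : ℤ[X], X ^ L ∣ dg j * (A * S j) - A := fun A => by
      have : dg j * (A * S j) - A = -(A * N j j ^ J) - (1 - N j j - dg j) * (A * S j) := by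
        linear_combination A * S2 j
      rw [this]
      exact ((xJ j L (by omega)).mul_left _).neg_right.sub ((LL (nf.dia j)).mul_right _)
    refine ⟨s1 j e ▸ b _, v1 j e ▸ b _, ?_, ?_, fun a => ?_⟩
    · rw [(s2 j).nz_eq r0.le]; linarith [s4 j]
    · rw [(v2 j).nz_eq r0.le]; linarith [v4 j]
    · rw [s1 j e, hS]
      simp [a j, zero_geom_sum, show J ≠ 0 by omega]

end Pool.Agent.MP_993212_an.H46
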