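import Pool.Agent.MP_993212_an.H46.Main
import Pool.Agent.MP_993212_an.H18.B1
import Pool.Agent.MP_993212_an.H18.B2
import Pool.Agent.MP_993212_an.H16.Nec
import Pool.Agent.MP_993212_an.H92.LowAll
import Pool.Agent.MP_993212_an.H46.Suf
import Pool.Agent.MP_993212_an.H46.Choice
import Pool.Agent.MP_993212_an.H46.Dloc
import Pool.Agent.MP_993212_an.H16.DELAY
import Pool.Agent.MP_993212_an.H18.Dval
import Pool.Agent.MP_993212_an.H18.Swv
import Pool.Agent.MP_993212_an.H16.POT
import Pool.Agent.MP_993212_an.H16.Klink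
import Pool.Agent.MP_993212_an.H92.Pre
import Pool.Agent.MP_993212_an.H92.HonP

/-! Strong shift equivalence over the natural numbers is decidable: the assembly. -/

namespace Pool.Agent.MP_993212_an.H46

theorem suf : H16.SufStmt :=
  suf_of H16.base H92.lowStmt
    (H16.delay_of H16.base (dlocStmt H16.base) (H18.dvalStmt H16.base)) (H18.swValStmt H16.base)
    solveStmt (H92.honStmt H16.base) (H92.preStmt H16.base) (H16.klinkStmt H16.base H16.potStmt)

theorem goal : Goal :=
  goal_of H18.b1 H18.b2 (H16.p1_of_suf suf) (H16.p2_of_suf suf)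

end Pool.Agent.MP_993212_an.H46
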