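import Pool.Agent.MP_993212_an.H92.PDefs
import Pool.Agent.MP_993212_an.H15.LPath

/-! Honest systems: pushing rows, certificates. -/

set_option linter.unusedSectionVars false

namespace Pool.Agent.MP_993212_an.H46

open Matrix Polynomial H16 H92 Finset

/-- all coefficients are nonnegative -/
def nn (a : ℤ[X]) : Prop := ∀ k, 0 ≤ a.coeff k

theorem nn_zero : nn 0 := fun _ => by simp

theorem nn.add {a b : ℤ[X]} (h : nn a) (g : nn b) : nn (a + b) := fun k => by
  rw [coeff_add]; exact add_nonneg (h k) (g k)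

theorem nn.mul {a b : ℤ[X]} (h : nn a) (g : nn b) : nn (a * b) := fun k => by
  rw [coeff_mul]; exact sum_nonneg fun _ _ => mul_nonneg (h _) (g _)

theorem nn_sum {ι : Type} {T : Finset ι} {a : ι → ℤ[X]} (h : ∀ i ∈ T, nn (a i)) :
    nn (∑ i ∈ T, a i) := fun k => by
  rw [finsetSum_coeff]; exact sum_nonneg fun i hi => h i hi k

theorem nn_X_pow (k : ℕ) : nn (X ^ k) := fun m => by
  rw [coeff_X_pow]; split_ifs <;> simp

theorem nn_one : nn 1 := by simpa using nn_X_pow 0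

theorem nn.pow {a : ℤ[X]} (h : nn a) (n : ℕ) : nn (a ^ n) := by
  induction n with
  | zero => simpa using nn_one
  | succ n ih => rw [pow_succ]; exact ih.mul h

theorem nn_natCast (c : ℕ) : nn (c : ℤ[X]) := fun k => by
  rw [← C_eq_natCast, coeff_C]; split_ifs <;> simp

theorem nn.eq_zero {a b : ℤ[X]} (h : nn a) (g : nn b) (e : a + b = 0) : a = 0 := by
  ext k
  have := congrArg (coeff · k) e
  simp only [coeff_add, coeff_zero] at this ⊢
  linarith [h k, g k]

theorem nn.ne_zero {a b : ℤ[X]} (h : nn a) (g : nn (b - a)) (e : a ≠ 0) : b ≠ 0 := fun e2 =>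
  e (h.eq_zero g (by rw [e2]; ring))

theorem nn.trans {a b c : ℤ[X]} (h : nn (b - a)) (g : nn (c - b)) : nn (c - a) := by
  simpa using g.add h

/-- the value at `ρ` -/
noncomputable def ev (ρ : ℝ) : ℤ[X] →+* ℝ := eval₂RingHom (Int.castRingHom ℝ) ρ

variable {ρ : ℝ}

theorem ev_eq (a : ℤ[X]) : ev ρ a = ∑ k ∈ a.support, (a.coeff k : ℝ) * ρ ^ k := by
  simp [ev, eval₂_eq_sum, Polynomial.sum]

@[simp] theorem ev_X : ev ρ X = ρ := by simp [ev]

theorem nn.ev_nonneg {a : ℤ[X]} (h : nn a) (h0 : 0 ≤ ρ) : 0 ≤ ev ρ a := by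
  rw [ev_eq]
  exact sum_nonneg fun k _ => mul_nonneg (by exact_mod_cast h k) (by positivity)

theorem nn.nz_eq {a : ℤ[X]} (h : nn a) (h0 : 0 ≤ ρ) : H15.nz ρ a = ev ρ a := by
  rw [ev_eq, H15.nz_eq (subset_refl _)]
  exact sum_congr rfl fun k _ =>
    abs_of_nonneg (mul_nonneg (by exact_mod_cast h k) (by positivity))

theorem nn.ev_le {a b : ℤ[X]} (h : nn (b - a)) (h0 : 0 ≤ ρ) : ev ρ a ≤ ev ρ b := by
  have := h.ev_nonneg h0
  rw [map_sub] at this
  linarith

theorem nn.ev_mono {a : ℤ[X]} (h : nn a) (h0 : 0 ≤ ρ) {ρ' : ℝ} (h1 : ρ ≤ ρ') :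
    ev ρ a ≤ ev ρ' a := by
  rw [← h.nz_eq h0, ← h.nz_eq (h0.trans h1)]
  exact H15.nm_mono h0 h1 _

theorem nn.ev_deep {a : ℤ[X]} (h : nn a) (h0 : 0 < ρ) {ρ' : ℝ} (h1 : ρ ≤ ρ') {L : ℕ}
    (hL : X ^ L ∣ a) : ev ρ a ≤ (ρ / ρ') ^ L * ev ρ' a := by
  rw [← h.nz_eq h0.le, ← h.nz_eq (h0.le.trans h1)]
  exact H15.nm_deep h0 h1 (H15.zr_dvd hL)

theorem nn.coeff_le {a : ℤ[X]} (h : nn a) (h0 : 0 ≤ ρ) (k : ℕ) :
    (a.coeff k : ℝ) * ρ ^ k ≤ ev ρ a := by
  by_cases hk : k ∈ a.support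
  · rw [ev_eq]
    exact single_le_sum (f := fun k => (a.coeff k : ℝ) * ρ ^ k)
      (fun k _ => mul_nonneg (by exact_mod_cast h k) (by positivity)) hk
  · rw [notMem_support_iff.1 hk]
    simpa using h.ev_nonneg h0

variable {G : Type} [AddCommGroup G] [Module ℤ[X] G] {s : Type} [Fintype s] [DecidableEq s]

theorem NN.mul {N M : Matrix s s ℤ[X]} (h : NN N) (g : NN M) : NN (N * M) := fun i j =>
  nn_sum (T := univ) (a := fun u => N i u * M u j) fun u _ => nn.mul (h i u) (g u j)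

theorem NN_one : NN (1 : Matrix s s ℤ[X]) := fun i j => by
  rw [one_apply]; split_ifs
  · exact nn_one
  · exact nn_zero

theorem NN.pow {N : Matrix s s ℤ[X]} (h : NN N) (n : ℕ) : NN (N ^ n) := by
  induction n with
  | zero => simpa using NN_one
  | succ n ih => rw [pow_succ]; exact NN.mul ih h

theorem vp_of {N : Matrix s s ℤ[X]} (h : NN N) (hz : IsNilpotent (cf 0 N)) : VP (1 - N) 0 where
  nn := fun _ _ _ => by simp
  zero := by ext i j; simp [cf]
  dec := ⟨N, 0, h, fun _ _ _ => by simp, by simp⟩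
  nz := by
    have : 1 - cf 0 (1 - N) = cf 0 N := by
      ext i j
      simp only [cf, Matrix.sub_apply, map_apply, coeff_sub, one_apply]
      split_ifs <;> simp
    rwa [this]

/-- an honest system without edges of length zero -/
structure Ho (N : Matrix s s ℤ[X]) (ξ : s → G) : Prop where
  nn : NN N
  z0 : ∀ i j, X ∣ N i j
  rel : act (1 - N) ξ = 0

theorem cf_zero {N : Matrix s s ℤ[X]} (h : ∀ i j, X ∣ N i j) : cf 0 N = 0 := by
  ext i j; exact X_dvd_iff.1 (h i j)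

theorem Ho.vp {N : Matrix s s ℤ[X]} {ξ : s → G} (h : Ho N ξ) : VP (1 - N) 0 :=
  vp_of h.nn (by rw [cf_zero h.z0]; exact IsNilpotent.zero)

theorem Ho.cf {N : Matrix s s ℤ[X]} {ξ : s → G} (h : Ho N ξ) : cf 0 (1 - N) = 1 := by
  ext i j
  have := X_dvd_iff.1 (h.z0 i j)
  simp only [H92.cf, Matrix.sub_apply, map_apply, coeff_sub, one_apply, this]
  split_ifs <;> simp

theorem Ho.eq {N : Matrix s s ℤ[X]} {ξ : s → G} (h : Ho N ξ) (i : s) :
    ξ i = ∑ l, N i l • ξ l := by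
  have := congrFun h.rel i
  simp only [act, Matrix.sub_apply, sub_smul, sum_sub_distrib, one_apply, ite_smul, one_smul,
    zero_smul, sum_ite_eq, mem_univ, if_true, Pi.zero_apply] at this
  exact sub_eq_zero.1 this

theorem rel_of {N : Matrix s s ℤ[X]} {ξ : s → G} (h : ∀ i, ξ i = ∑ l, N i l • ξ l) :
    act (1 - N) ξ = 0 := by
  funext i
  simp only [act, Matrix.sub_apply, sub_smul, sum_sub_distrib, one_apply, ite_smul, one_smul,
    zero_smul, sum_ite_eq, mem_univ, if_true, Pi.zero_apply]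
  exact sub_eq_zero.2 (h i)

/-- equivalence of honest systems -/
abbrev Eq0 {s' : Type} [Fintype s'] [DecidableEq s'] (N : Matrix s s ℤ[X]) (ξ : s → G)
    (N' : Matrix s' s' ℤ[X]) (ξ' : s' → G) : Prop := Eqv (1 - N) 0 ξ (1 - N') 0 ξ'

/-- a block of rows is pushed -/
theorem push (mv : Moves) {N B : Matrix s s ℤ[X]} {ξ : s → G} (h : VP (1 - N) 0)
    (r : act (1 - N) ξ = 0) (S : s → Prop) (hB : ∀ a b, B a b ≠ 0 → S a ∧ ¬S b)
    (h' : VP (1 - (N - B + B * N)) 0) : Eq0 N ξ (N - B + B * N) ξ := by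
  have e : 1 - (N - B + B * N) = (1 + B) * (1 - N) := by noncomm_ring
  rw [Eq0, e]
  exact mv.row G s _ 0 B ξ S h r hB (e ▸ h')

/-- the row of a source can be changed -/
theorem srcrow (mv : Moves) {N N' : Matrix s s ℤ[X]} {ξ ξ' : s → G} (h : VP (1 - N) 0)
    (r : act (1 - N) ξ = 0) (h' : VP (1 - N') 0) (r' : act (1 - N') ξ' = 0) (S : s → Prop)
    (c : ∀ i w, S w → N i w = 0) (c' : ∀ i w, S w → N' i w = 0)
    (e : ∀ i l, ¬S i → N' i l = N i l) (e' : ∀ i, ¬S i → ξ' i = ξ i) : Eq0 N ξ N' ξ' := by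
  classical
  have k : ∀ b, b ∉ Set.range (Subtype.val : {i // ¬S i} → s) → S b := fun b hb => by
    by_contra h2
    exact hb ⟨⟨b, h2⟩, rfl⟩
  have a1 := mv.sub G s {i // ¬S i} _ 0 ξ Subtype.val Subtype.val_injective h r fun a b hb =>
    ⟨by rw [Matrix.sub_apply, c a b (k b hb), sub_zero], rfl⟩
  have a2 := mv.sub G s {i // ¬S i} _ 0 ξ' Subtype.val Subtype.val_injective h' r' fun a b hb =>
    ⟨by rw [Matrix.sub_apply, c' a b (k b hb), sub_zero], rfl⟩
  have e1 : (1 - N').submatrix (Subtype.val : {i // ¬S i} → s) (Subtype.val : {i // ¬S i} → s) =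
      (1 - N).submatrix Subtype.val Subtype.val := by
    ext1 i l
    simp only [submatrix_apply, Matrix.sub_apply, e _ _ i.2]
  have e2 : ξ' ∘ (Subtype.val : {i // ¬S i} → s) = ξ ∘ Subtype.val := funext fun i => e' _ i.2
  rw [e1, e2] at a2
  exact a1.trans a2.symm

/-- the columns in `T` -/
noncomputable def cut (T : Finset s) (N : Matrix s s ℤ[X]) : Matrix s s ℤ[X] :=
  of fun a b => if b ∈ T then N a b else 0

/-- the coefficients of the push -/
noncomputable def kb (R T : Finset s) (n : ℕ) (N : Matrix s s ℤ[X]) : Matrix s s ℤ[X] :=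
  of fun a b => if a ∈ R then (∑ i ∈ range n, cut T N ^ (i + 1)) a b else 0

/-- the rows in `R` are pushed `n` times through `T` -/
noncomputable def kill (R T : Finset s) (n : ℕ) (N : Matrix s s ℤ[X]) : Matrix s s ℤ[X] :=
  N - kb R T n N + kb R T n N * N

variable {R T : Finset s} {n : ℕ} {N : Matrix s s ℤ[X]} {ξ : s → G}

theorem cut_nn (h : NN N) : NN (cut T N) := fun a b => by
  rw [cut, of_apply]; split_ifs
  · exact h a b
  · exact nn_zero

theorem cut_pow_out (i : ℕ) (a : s) {b : s} (hb : b ∉ T) : (cut T N ^ (i + 1)) a b = 0 := by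
  rw [pow_succ, Matrix.mul_apply]
  exact sum_eq_zero fun u _ => by rw [cut, of_apply, if_neg hb, mul_zero]

theorem cut_pow_dvd {d : ℤ[X]} {a : s} (h : ∀ u ∈ T, d ∣ N a u) (i : ℕ) (b : s) :
    d ∣ (cut T N ^ (i + 1)) a b := by
  rw [pow_succ', Matrix.mul_apply]
  refine dvd_sum fun u _ => Dvd.dvd.mul_right ?_ _
  rw [cut, of_apply]; split_ifs with hu
  · exact h u hu
  · exact dvd_zero _

theorem cut_pow_deep (h : ∀ i j, X ∣ N i j) (i : ℕ) (a b : s) :
    X ^ i ∣ (cut T N ^ i) a b := by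
  induction i generalizing b with
  | zero => simp
  | succ i ih =>
    rw [pow_succ, pow_succ, Matrix.mul_apply]
    refine dvd_sum fun u _ => mul_dvd_mul (ih u) ?_
    rw [cut, of_apply]; split_ifs
    · exact h _ _
    · exact dvd_zero _

theorem kb_nn (h : NN N) : NN (kb R T n N) := fun a b => by
  rw [kb, of_apply]; split_ifs
  · rw [Matrix.sum_apply]
    exact nn_sum fun i _ => NN.pow (cut_nn h) _ a b
  · exact nn_zero

theorem kb_row {a : s} (ha : a ∉ R) (b : s) : kb R T n N a b = 0 := by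
  rw [kb, of_apply, if_neg ha]

theorem kb_col (a : s) {b : s} (hb : b ∉ T) : kb R T n N a b = 0 := by
  rw [kb, of_apply]; split_ifs
  · rw [Matrix.sum_apply]
    exact sum_eq_zero fun i _ => cut_pow_out i a hb
  · rfl

theorem kb_dvd {d : ℤ[X]} {a : s} (h : ∀ u ∈ T, d ∣ N a u) (b : s) : d ∣ kb R T n N a b := by
  rw [kb, of_apply]; split_ifs
  · rw [Matrix.sum_apply]
    exact dvd_sum fun i _ => cut_pow_dvd h i b
  · exact dvd_zero _

theorem kill_apply (a b : s) :
    kill R T n N a b = N a b - kb R T n N a b + ∑ u, kb R T n N a u * N u b := rfl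

theorem kill_row {a : s} (ha : a ∉ R) (b : s) : kill R T n N a b = N a b := by
  simp [kill_apply, kb_row ha]

theorem kill_out (a : s) {b : s} (hb : b ∉ T) :
    kill R T n N a b = N a b + ∑ u ∈ T, kb R T n N a u * N u b := by
  rw [kill_apply, kb_col a hb, sub_zero]
  refine congrArg _ (sum_subset (subset_univ T) fun u _ hu => ?_).symm
  rw [kb_col a hu, zero_mul]

theorem kill_in {a b : s} (ha : a ∈ R) (hb : b ∈ T) :
    kill R T n N a b = (cut T N ^ (n + 1)) a b := by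
  have e1 : ∀ u, N u b = cut T N u b := fun u => by rw [cut, of_apply, if_pos hb]
  have e2 : ∀ u, kb R T n N a u = (∑ i ∈ range n, cut T N ^ (i + 1)) a u := fun u => by
    rw [kb, of_apply, if_pos ha]
  have e3 : cut T N - ∑ i ∈ range n, cut T N ^ (i + 1) +
      (∑ i ∈ range n, cut T N ^ (i + 1)) * cut T N = cut T N ^ (n + 1) := by
    induction n with
    | zero => simp
    | succ n ih =>
      rw [sum_range_succ, add_mul, pow_succ _ (n + 1), ← ih (fun _ => by
        rw [kb, of_apply, if_pos ha])]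
      rw [ih (fun _ => by rw [kb, of_apply, if_pos ha]), ← ih (fun _ => by
        rw [kb, of_apply, if_pos ha])]
      abel
  rw [kill_apply, ← e3]
  simp only [e1, e2, Matrix.add_apply, Matrix.sub_apply, Matrix.mul_apply]

theorem kill_up (h : NN N) (a : s) {b : s} (hb : b ∉ T) : nn (kill R T n N a b - N a b) := by
  rw [kill_out a hb, add_sub_cancel_left]
  exact nn_sum fun u _ => nn.mul (kb_nn h a u) (h u b)

theorem kill_nn (h : NN N) : NN (kill R T n N) := fun a b => by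
  by_cases hb : b ∈ T
  · by_cases ha : a ∈ R
    · rw [kill_in ha hb]; exact NN.pow (cut_nn h) _ a b
    · rw [kill_row ha]; exact h a b
  · have := (kill_up (R := R) (n := n) h a hb).add (h a b)
    rwa [sub_add_cancel] at this

theorem kill_dvd {d : ℤ[X]} {a : s} (h : ∀ u ∈ T, d ∣ N a u) (b : s) :
    d ∣ kill R T n N a b - N a b := by
  rw [kill_apply, sub_add, sub_sub_cancel_left]
  exact ((kb_dvd h b).sub (dvd_sum fun u _ => (kb_dvd h u).mul_right _)).neg_right

theorem kill_dvd_col {d : ℤ[X]} (a : s) {b : s} (hb : b ∉ T) (h : ∀ u ∈ T, d ∣ N u b) :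
    d ∣ kill R T n N a b - N a b := by
  rw [kill_out a hb, add_sub_cancel_left]
  exact dvd_sum fun u hu => (h u hu).mul_left _

theorem kill_deep (h : ∀ i j, X ∣ N i j) {a b : s} (ha : a ∈ R) (hb : b ∈ T) :
    X ^ (n + 1) ∣ kill R T n N a b := by
  rw [kill_in ha hb]; exact cut_pow_deep h _ a b

theorem kill_src {b : s} (h : ∀ u, N u b = 0) (a : s) : kill R T n N a b = 0 := by
  by_cases hb : b ∈ T
  · by_cases ha : a ∈ R
    · rw [kill_in ha hb, pow_succ, Matrix.mul_apply]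
      exact sum_eq_zero fun u _ => by rw [cut, of_apply, if_pos hb, h, mul_zero]
    · rw [kill_row ha, h]
  · simp [kill_out a hb, h]

theorem kill_zero_row {a : s} (h : ∀ u, N a u = 0) (b : s) : kill R T n N a b = 0 := by
  have := kill_dvd (R := R) (T := T) (n := n) (d := 0) (N := N) (a := a) (fun u _ => by rw [h u]) b
  rwa [zero_dvd_iff, h, sub_zero] at this

theorem Ho.kill (mv : Moves) (h : Ho N ξ) (d : Disjoint R T) :
    Ho (kill R T n N) ξ ∧ Eq0 N ξ (kill R T n N) ξ := by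
  have z : ∀ i j, X ∣ H46.kill R T n N i j := fun i j => by
    simpa using (kill_dvd (fun u _ => h.z0 i u) j).add (h.z0 i j)
  have e := push mv h.vp h.rel (· ∈ R) (B := kb R T n N) (fun a b hab =>
    ⟨by_contra fun h2 => hab (kb_row h2 b), fun h2 => hab (kb_col a (disjoint_left.1 d h2))⟩)
    (vp_of (N := H46.kill R T n N) (kill_nn h.nn) (by rw [cf_zero z]; exact IsNilpotent.zero))
  exact ⟨⟨kill_nn h.nn, z, e.rel'⟩, e⟩

/-- the weighted size of a row -/
noncomputable def wn (ρ : ℝ) (p : s → ℝ) (N : Matrix s s ℤ[X]) (i : s) : ℝ :=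
  ∑ l, ev ρ (N i l) * p l

variable {p : s → ℝ} {η : ℝ}

theorem wn_mul (M N : Matrix s s ℤ[X]) (i : s) :
    wn ρ p (M * N) i = ∑ u, ev ρ (M i u) * wn ρ p N u := by
  simp only [wn, Matrix.mul_apply, map_sum, map_mul, sum_mul, mul_sum, mul_assoc]
  exact sum_comm

theorem wn_nonneg (h : NN N) (h0 : 0 ≤ ρ) (hp : ∀ i, 0 ≤ p i) (i : s) : 0 ≤ wn ρ p N i :=
  sum_nonneg fun l _ => mul_nonneg (nn.ev_nonneg (h i l) h0) (hp l)

theorem le_wn (h : NN N) (h0 : 0 ≤ ρ) (hp : ∀ i, 0 ≤ p i) (i l : s) :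
    ev ρ (N i l) * p l ≤ wn ρ p N i :=
  single_le_sum (f := fun l => ev ρ (N i l) * p l)
    (fun l _ => mul_nonneg (nn.ev_nonneg (h i l) h0) (hp l)) (mem_univ l)

theorem wn_cut_le (h : NN N) (h0 : 0 ≤ ρ) (hp : ∀ i, 0 ≤ p i) (i : s) :
    wn ρ p (cut T N) i ≤ wn ρ p N i := sum_le_sum fun l _ => by
  rw [cut, of_apply]; split_ifs
  · rfl
  · rw [map_zero, zero_mul]; exact mul_nonneg (nn.ev_nonneg (h i l) h0) (hp l)

theorem wn_mono (h : NN N) (h0 : 0 ≤ ρ) {ρ' : ℝ} (h1 : ρ ≤ ρ') (hp : ∀ i, 0 ≤ p i) (i : s) :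
    wn ρ p N i ≤ wn ρ' p N i :=
  sum_le_sum fun l _ => mul_le_mul_of_nonneg_right (nn.ev_mono (h i l) h0 h1) (hp l)

theorem wn_kill (h : NN N) (h0 : 0 ≤ ρ) (c : ∀ u ∈ T, wn ρ p N u ≤ p u) (i : s) :
    wn ρ p (kill R T n N) i ≤ wn ρ p N i := by
  have e : wn ρ p (kill R T n N) i =
      wn ρ p N i - wn ρ p (kb R T n N) i + wn ρ p (kb R T n N * N) i := by
    simp only [wn, kill, Matrix.add_apply, Matrix.sub_apply, map_add, map_sub, add_mul, sub_mul,
      sum_add_distrib, sum_sub_distrib]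
  have e2 : wn ρ p (kb R T n N * N) i ≤ wn ρ p (kb R T n N) i := by
    rw [wn_mul]
    refine sum_le_sum fun u _ => ?_
    by_cases hu : u ∈ T
    · exact mul_le_mul_of_nonneg_left (c u hu) (nn.ev_nonneg (kb_nn h i u) h0)
    · simp [kb_col i hu]
  linarith

theorem wn_cut_pow (h : NN N) (h0 : 0 ≤ ρ) (hp : ∀ i, 0 ≤ p i) (hη : η ≤ 1)
    (c : ∀ u ∈ T, wn ρ p N u ≤ (1 - η) * p u) (n : ℕ) (i : s) :
    wn ρ p (cut T N ^ (n + 1)) i ≤ (1 - η) ^ n * wn ρ p N i := by
  induction n with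
  | zero => simpa using wn_cut_le h h0 hp i
  | succ n ih =>
    rw [pow_succ, wn_mul, pow_succ' (1 - η), mul_assoc]
    refine le_trans ?_ (mul_le_mul_of_nonneg_left ih (by linarith))
    rw [wn, mul_sum]
    refine sum_le_sum fun u _ => ?_
    by_cases hu : u ∈ T
    · rw [mul_left_comm]
      exact mul_le_mul_of_nonneg_left ((wn_cut_le h h0 hp u).trans (c u hu))
        (nn.ev_nonneg (NN.pow (cut_nn h) _ i u) h0)
    · simp [cut_pow_out n i hu]

theorem kill_small (h : NN N) (h0 : 0 ≤ ρ) (hp : ∀ i, 0 ≤ p i) (hη : η ≤ 1)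
    (c : ∀ u ∈ T, wn ρ p N u ≤ (1 - η) * p u) {a b : s} (ha : a ∈ R) (hb : b ∈ T) :
    ev ρ (kill R T n N a b) * p b ≤ (1 - η) ^ n * wn ρ p N a := by
  rw [kill_in ha hb]
  exact (le_wn (NN.pow (cut_nn h) _) h0 hp a b).trans (wn_cut_pow h h0 hp hη c n a)

/-- the total mass that is pushed -/
theorem wn_kb (h : NN N) (h0 : 0 ≤ ρ) (hp : ∀ i, 0 ≤ p i)
    (c : ∀ u ∈ T, wn ρ p N u ≤ (1 - η) * p u) (i : s) :
    η * wn ρ p (kb R T n N) i ≤ wn ρ p (cut T N) i := by
  by_cases hi : i ∈ R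
  · have e : cut T N - kb R T n N + kb R T n N * cut T N = kill R T n (cut T N) := by
      have : cut T (cut T N) = cut T N := by
        ext1 a b; simp only [cut, of_apply]; split_ifs <;> rfl
      simp only [kill, kb, this]
    have e1 := wn_nonneg (kill_nn (R := R) (T := T) (n := n) (cut_nn (T := T) h)) h0 hp i
    have e2 : wn ρ p (kb R T n N * cut T N) i ≤ (1 - η) * wn ρ p (kb R T n N) i := by
      rw [wn_mul, wn, mul_sum]
      refine sum_le_sum fun u _ => ?_
      by_cases hu : u ∈ T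
      · rw [mul_left_comm]
        exact mul_le_mul_of_nonneg_left ((wn_cut_le h h0 hp u).trans (c u hu))
          (nn.ev_nonneg (kb_nn h i u) h0)
      · simp [kb_col i hu]
    rw [← e] at e1
    have e3 : wn ρ p (cut T N - kb R T n N + kb R T n N * cut T N) i =
        wn ρ p (cut T N) i - wn ρ p (kb R T n N) i + wn ρ p (kb R T n N * cut T N) i := by
      simp only [wn, Matrix.add_apply, Matrix.sub_apply, map_add, map_sub, add_mul, sub_mul,
        sum_add_distrib, sum_sub_distrib]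
    linarith
  · simpa [wn, kb_row hi] using wn_nonneg (cut_nn (T := T) h) h0 hp i

theorem cut_pow_ne (h : NN N) {a b c : s} (hc : c ∈ T) {i : ℕ} (h1 : (cut T N ^ i) a b ≠ 0)
    (h2 : N b c ≠ 0) : (cut T N ^ (i + 1)) a c ≠ 0 := by
  have e : cut T N b c = N b c := by rw [cut, of_apply, if_pos hc]
  refine nn.ne_zero (nn.mul (NN.pow (cut_nn h) i a b) (cut_nn (T := T) h b c)) ?_
    (mul_ne_zero h1 (e ▸ h2))
  rw [pow_succ, Matrix.mul_apply, ← add_sum_erase _ _ (mem_univ b), add_sub_cancel_left]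
  exact nn_sum fun u _ => nn.mul (NN.pow (cut_nn h) i a u) (cut_nn h u c)

end Pool.Agent.MP_993212_an.H46
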