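import Pool.Agent.MP_993212_an.H46.Spec2
import Pool.Agent.MP_993212_an.H92.RMain

/-! Lattice chains: isomorphisms after inverting the distinguished element are products of
bounded steps. -/

namespace Pool.Agent.MP_993212_an.H46

open Matrix H92

variable {n s : ℕ} {c : Fin s → ℤ}

theorem th_arr {X Y : Tup s n} {g : MZ n} (h : ∀ i, X i * g = g * Y i) :
    th c X * g = g * th c Y := by
  simp only [th, Finset.sum_mul, Finset.mul_sum, Matrix.smul_mul, Matrix.mul_smul, h]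

theorem th_pow {X Y : Tup s n} {g : MZ n} (h : ∀ i, X i * g = g * Y i) (k : ℕ) :
    th c X ^ k * g = g * th c Y ^ k := H12.pow_inter (th_arr h) k

theorem Iso.refl (X : Tup s n) : Iso c X X 1 1 0 := by simp [Iso]

theorem Iso.symm {X Y : Tup s n} {g g' : MZ n} {k : ℕ} (h : Iso c X Y g g' k) :
    Iso c Y X g' g k := ⟨h.2.1, h.1, h.2.2.2, h.2.2.1⟩

theorem Iso.trans {X Y Z : Tup s n} {g g' f f' : MZ n} {k j : ℕ} (h : Iso c X Y g g' k)
    (e : Iso c Y Z f f' j) : Iso c X Z (g * f) (f' * g') (k + j) := by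
  refine ⟨fun i => ?_, fun i => ?_, ?_, ?_⟩
  · rw [← Matrix.mul_assoc, h.1, Matrix.mul_assoc, e.1, Matrix.mul_assoc]
  · rw [← Matrix.mul_assoc, e.2.1, Matrix.mul_assoc, h.2.1, Matrix.mul_assoc]
  · rw [Matrix.mul_assoc, ← Matrix.mul_assoc f, e.2.2.1, th_pow h.2.1, ← Matrix.mul_assoc,
      h.2.2.1, pow_add]
  · rw [Matrix.mul_assoc, ← Matrix.mul_assoc g', h.2.2.2, th_pow e.1, ← Matrix.mul_assoc,
      e.2.2.2, ← pow_add, add_comm]

theorem iso_of_arr {X Y : Tup s n} {g g' : MZ n} (e : g * g' = 1) (h : Arr X g Y) :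
    Iso c X Y g g' 0 := ⟨h, h.inv e, by simpa using e, by simpa using mul_eq_one_comm.1 e⟩

theorem cancel {h U V : MZ n} (hd : h.det ≠ 0) (e : h * U = h * V) : U = V := by
  have := congrArg (h.adjugate * ·) e
  simp only [← Matrix.mul_assoc, adjugate_mul, Matrix.smul_mul, Matrix.one_mul] at this
  exact smul_right_injective _ hd this

theorem sz_th (c : Fin s → ℤ) {X : Tup s n} {B : ℕ} (h : ∀ i, sz (X i) ≤ B) :
    sz (th c X) ≤ vs c * B := by
  refine (sz_sum _ _).trans ?_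
  rw [vs, Finset.sum_mul]
  exact Finset.sum_le_sum fun i _ => by rw [sz_smul]; exact Nat.mul_le_mul_left _ (h i)

theorem bd_of_sz {X : MZ n} {B : ℕ} (h : sz X ≤ B) : Bd B X := fun i j => by
  rw [← Int.natCast_natAbs]; exact Nat.cast_le.2 ((le_sz X i j).trans h)

theorem sz_of_bd {X : MZ n} {B N : ℕ} (h : Bd B X) (hn : n ≤ N) : sz X ≤ N * (N * B) := by
  refine (sz_le_of (c := B) fun i j => ?_).trans (by simp only [Fintype.card_fin]; gcongr)
  have := h i j
  rw [← Int.natCast_natAbs] at this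
  exact_mod_cast this

/-- bounded steps -/
def St (c : Fin s → ℤ) (C : ℕ) (X : Tup s n) (h h' : MZ n) (e : ℕ) (Y : Tup s n) : Prop :=
  Iso c X Y h h' e ∧ e ≤ 1 ∧ Bd C h ∧ Bd C h' ∧ ∀ i, Bd C (Y i)

/-- products of bounded steps -/
inductive SC (c : Fin s → ℤ) (C : ℕ) (X : Tup s n) : MZ n → Tup s n → Prop
  | refl : SC c C X 1 X
  | step {g : MZ n} {Y : Tup s n} (h h' : MZ n) (e : ℕ) (Z : Tup s n) :
      SC c C X g Y → St c C Y h h' e Z → SC c C X (g * h) Z

theorem SC.trans {C : ℕ} {X Y Z : Tup s n} {g h : MZ n} (h1 : SC c C X g Y) (h2 : SC c C Y h Z) :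
    SC c C X (g * h) Z := by
  induction h2 with
  | refl => simpa using h1
  | step h h' e Z _ hs ih => rw [← Matrix.mul_assoc]; exact ih.step _ _ _ _ hs

theorem sc_of_conn {C : ℕ} {X Y : Tup s n} {g : MZ n} (h : Conn C X g Y) : SC c C X g Y := by
  induction h with
  | refl => exact SC.refl
  | step h h' Z _ b1 b2 b3 e ar ih =>
    exact ih.step h h' 0 Z ⟨iso_of_arr e ar, Nat.zero_le _, b2, b3, b1⟩

/-- rationally conjugate tuples -/
def Good (M X : Tup s n) : Prop :=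
  ∃ P Q : Matrix (Fin n) (Fin n) ℚ, P * Q = 1 ∧ ∀ i, cq (M i) * P = P * cq (X i)

theorem det_cq (h : MZ n) : (cq h).det = (h.det : ℚ) := ((Int.castRingHom ℚ).map_det h).symm

theorem Good.step {M X Y : Tup s n} (g : Good M X) {h : MZ n} (hd : h.det ≠ 0)
    (ar : ∀ i, X i * h = h * Y i) : Good M Y := by
  obtain ⟨P, Q, e, a⟩ := g
  have hu : IsUnit (cq h).det := by rw [det_cq]; exact (Int.cast_ne_zero.2 hd).isUnit
  refine ⟨P * cq h, (cq h)⁻¹ * Q, ?_, fun i => ?_⟩
  · rw [Matrix.mul_assoc, ← Matrix.mul_assoc (cq h), mul_nonsing_inv _ hu, Matrix.one_mul, e]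
  · rw [← Matrix.mul_assoc, a, Matrix.mul_assoc, ← cq_mul, ar, cq_mul, Matrix.mul_assoc]

theorem vs_pos {x : Fin n → ℤ} (h : x ≠ 0) : 1 ≤ vs x := by
  obtain ⟨i, hi⟩ := Function.ne_iff.1 h
  exact (Int.natAbs_pos.2 hi).trans_le (le_vs x i)

theorem vs_col (T : MZ n) (j : Fin n) : vs (fun i => T i j) ≤ sz T :=
  Finset.sum_le_sum fun i _ => Finset.single_le_sum (f := fun j => (T i j).natAbs)
    (fun _ _ => Nat.zero_le _) (Finset.mem_univ j)

/-- a reduced basis of the lattice spanned by the columns of two matrices -/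
theorem exists_basis {K : ℕ}
    (rb : ∀ L : Submodule ℤ (Fin n → ℤ), ∃ (r : ℕ) (b : Fin r → Fin n → ℤ),
      r ≤ n ∧ Submodule.span ℤ (Set.range b) = L ∧ (∀ k, b k ≠ 0) ∧
      ∀ (t : Fin r → ℤ) (k : Fin r), (t k).natAbs * vs (b k) ≤ K * vs (∑ i, t i • b i))
    (θ g : MZ n) (hd : θ.det ≠ 0) :
    ∃ h A B : MZ n, h = θ * A + g * B ∧ Bd (K * sz θ) h ∧
      ∀ A' B' : MZ n, ∃ U, h * U = θ * A' + g * B' ∧ Bd (K * sz (θ * A' + g * B')) U := by
  obtain ⟨r, b, hr, hs, h0, ho⟩ :=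
    rb (LinearMap.range θ.mulVecLin ⊔ LinearMap.range g.mulVecLin)
  have hinj : Function.Injective θ.mulVecLin := by
    rw [injective_iff_map_eq_zero]
    exact fun v hv => Matrix.eq_zero_of_mulVec_eq_zero hd hv
  obtain rfl : r = n := by
    refine le_antisymm hr ?_
    have h1 := LinearMap.finrank_range_of_inj hinj
    have h2 : Module.finrank ℤ (LinearMap.range θ.mulVecLin) ≤
        Module.finrank ℤ (Submodule.span ℤ (Set.range b)) :=
      Submodule.finrank_mono (hs ▸ le_sup_left)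
    have h3 := finrank_range_le_card (R := ℤ) b
    simp only [Module.finrank_fintype_fun_eq_card, Fintype.card_fin, Set.finrank] at h1 h3
    omega
  let h : MZ r := Matrix.of fun i j => b j i
  have key : ∀ A' B' : MZ r, ∃ U, h * U = θ * A' + g * B' ∧
      ∀ k j, (U k j).natAbs * vs (b k) ≤ K * sz (θ * A' + g * B') := by
    intro A' B'
    have : ∀ j, ∃ t : Fin r → ℤ, ∑ i, t i • b i = fun i => (θ * A' + g * B') i j := fun j => by
      rw [← Submodule.mem_span_range_iff_exists_fun, hs]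
      exact Submodule.mem_sup.2 ⟨_, ⟨fun i => A' i j, rfl⟩, _, ⟨fun i => B' i j, rfl⟩, rfl⟩
    choose t ht using this
    refine ⟨Matrix.of fun k j => t j k, ?_, fun k j => ?_⟩
    · ext i j
      rw [← congrFun (ht j) i]
      simp [h, Matrix.mul_apply, mul_comm]
    · refine (ho (t j) k).trans ?_
      rw [ht]
      exact Nat.mul_le_mul_left _ (vs_col _ j)
  have mem : ∀ j, ∃ x y, θ *ᵥ x + g *ᵥ y = b j := fun j => by
    have : b j ∈ LinearMap.range θ.mulVecLin ⊔ LinearMap.range g.mulVecLin :=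
      hs ▸ Submodule.subset_span ⟨j, rfl⟩
    obtain ⟨_, ⟨x, rfl⟩, _, ⟨y, rfl⟩, e⟩ := Submodule.mem_sup.1 this
    exact ⟨x, y, e⟩
  choose x y hxy using mem
  refine ⟨h, Matrix.of fun i j => x j i, Matrix.of fun i j => y j i, ?_, fun i j => ?_,
    fun A' B' => ?_⟩
  · ext i j
    exact (congrFun (hxy j) i).symm
  · obtain ⟨U, e, hU⟩ := key 1 0
    simp only [Matrix.mul_one, Matrix.mul_zero, add_zero] at e hU
    have hUd : U.det ≠ 0 := fun q => hd (by rw [← e, det_mul, q, mul_zero])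
    have : ∃ l, U j l ≠ 0 := by
      by_contra q
      push Not at q
      exact hUd (det_eq_zero_of_row_eq_zero j q)
    obtain ⟨l, hl⟩ := this
    have h1 := hU j l
    have h2 := le_vs (b j) i
    have h3 := Int.natAbs_pos.2 hl
    rw [← Int.natCast_natAbs]
    refine Nat.cast_le.2 ?_
    change (b j i).natAbs ≤ _
    nlinarith
  · obtain ⟨U, e, hU⟩ := key A' B'
    refine ⟨U, e, fun k j => ?_⟩
    have h1 := hU k j
    have h2 := vs_pos (h0 k)
    rw [← Int.natCast_natAbs]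
    exact Nat.cast_le.2 ((Nat.le_mul_of_pos_right _ h2).trans h1)

/-- the lattice chain -/
theorem lat {K N B B2 C : ℕ} {M M' : Tup s n}
    (rb : ∀ L : Submodule ℤ (Fin n → ℤ), ∃ (r : ℕ) (b : Fin r → Fin n → ℤ),
      r ≤ n ∧ Submodule.span ℤ (Set.range b) = L ∧ (∀ k, b k ≠ 0) ∧
      ∀ (t : Fin r → ℤ) (k : Fin r), (t k).natAbs * vs (b k) ≤ K * vs (∑ i, t i • b i))
    (r0 : ∀ Y, Good M Y → ∃ (h h' : MZ n) (X : Tup s n), h * h' = 1 ∧ Arr Y h X ∧
      ∀ i, Bd B (X i))
    (r1 : ∀ (X Y : Tup s n) (g g' : MZ n), Good M X → (∀ i, Bd B2 (X i)) → (∀ i, Bd B2 (Y i)) →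
      g * g' = 1 → Arr X g Y → Conn C X g Y)
    (hn : n ≤ N) (hc : vs c ≤ N) (hM' : ∀ i, Bd B (M' i)) (b1 : B ≤ B2) (b2 : B2 ≤ C)
    (b3 : K * (N * (N * (N * B))) ≤ C)
    (b4 : K * (N * (N * B) * (N * (N * (K * (N * (N * (N * B))))))) ≤ B2) (k : ℕ) :
    ∀ (X : Tup s n) (g g' : MZ n), Good M X → (∀ i, Bd B (X i)) →
      (∀ i, th c X * X i = X i * th c X) → (th c X).det ≠ 0 → Iso c X M' g g' k →
      SC c C X g M' := by
  induction k with
  | zero =>
    intro X g g' hg hX _ _ hi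
    exact sc_of_conn (r1 X M' g g' hg (fun i => (hX i).mono b1) (fun i => (hM' i).mono b1)
      (by simpa using hi.2.2.1) hi.1)
  | succ k ih =>
    intro X g g' hg hX hcm hd hi
    obtain ⟨h, A, B', eh, bh, fac⟩ := exists_basis rb (th c X) g hd
    have sX : ∀ i, sz (X i) ≤ N * (N * B) := fun i => sz_of_bd (hX i) hn
    have sθ : sz (th c X) ≤ N * (N * (N * B)) := (sz_th c sX).trans (Nat.mul_le_mul_right _ hc)
    obtain ⟨h', e1, bh'⟩ := fac 1 0
    obtain ⟨g1, e2, -⟩ := fac 0 1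
    simp only [Matrix.mul_one, Matrix.mul_zero, add_zero, zero_add] at e1 bh' e2
    have hXh : ∀ i, th c X * (X i * A) + g * (M' i * B') = X i * h := fun i => by
      rw [eh, Matrix.mul_add, ← Matrix.mul_assoc, hcm, ← Matrix.mul_assoc g, ← hi.1]
      simp only [Matrix.mul_assoc]
    choose Y eY bY using fun i => fac (X i * A) (M' i * B')
    simp only [hXh] at eY bY
    have bh1 : Bd (K * (N * (N * (N * B)))) h := bh.mono (Nat.mul_le_mul_left _ sθ)
    have bY2 : ∀ i, Bd B2 (Y i) := fun i => (bY i).mono (le_trans (Nat.mul_le_mul_left _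
      ((sz_mul _ _).trans (Nat.mul_le_mul (sX i) (sz_of_bd bh1 hn)))) b4)
    have hdh : h.det ≠ 0 := fun q => hd (by rw [← e1, det_mul, q, zero_mul])
    have hdg : g.det ≠ 0 := fun q => pow_ne_zero (k + 1) hd (by
      rw [← det_pow, ← hi.2.2.1, det_mul, q, zero_mul])
    have ar : ∀ i, X i * h = h * Y i := fun i => (eY i).symm
    have i1 : Iso c X Y h h' 1 := by
      refine ⟨ar, fun i => cancel hdh ?_, by simpa using e1, cancel hdh ?_⟩
      · rw [← Matrix.mul_assoc, ← ar, Matrix.mul_assoc, e1, ← Matrix.mul_assoc, e1, hcm]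
      · rw [← Matrix.mul_assoc, e1, pow_one, th_arr ar]
    have e3 : g * (g' * A + th c M' ^ k * B') = th c X ^ k * h := by
      rw [eh, Matrix.mul_add, Matrix.mul_add, ← Matrix.mul_assoc, hi.2.2.1, ← Matrix.mul_assoc,
        ← th_pow hi.1, pow_succ]
      simp only [Matrix.mul_assoc]
    have hcp : ∀ i, th c X ^ k * X i = X i * th c X ^ k := fun i => H12.pow_inter (hcm i) k
    have i2 : Iso c Y M' g1 (g' * A + th c M' ^ k * B') k := by
      refine ⟨fun i => cancel hdh ?_, fun i => cancel hdg ?_, cancel hdh ?_, cancel hdg ?_⟩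
      · rw [← Matrix.mul_assoc, ← ar, Matrix.mul_assoc, e2, ← Matrix.mul_assoc, e2, hi.1]
      · rw [← Matrix.mul_assoc, ← hi.1, Matrix.mul_assoc, e3, ← Matrix.mul_assoc g, e3,
          ← Matrix.mul_assoc, ← hcp, Matrix.mul_assoc, ar, Matrix.mul_assoc]
      · rw [← Matrix.mul_assoc, e2, e3, th_pow ar]
      · rw [← Matrix.mul_assoc, e3, Matrix.mul_assoc, e2, th_pow hi.1]
    have gY := hg.step hdh ar
    obtain ⟨u, u', X1, eu, au, bX1⟩ := r0 Y gY
    have hdu : u.det ≠ 0 := fun q => by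
      have := congrArg det eu
      rw [det_mul, q, zero_mul, det_one] at this
      exact zero_ne_one this
    have ar1 : ∀ i, X i * (h * u) = h * u * X1 i := fun i => by
      rw [← Matrix.mul_assoc, ar, Matrix.mul_assoc, au, Matrix.mul_assoc]
    have hdhu : (h * u).det ≠ 0 := by rw [det_mul]; exact mul_ne_zero hdh hdu
    have c3 := ih X1 (u' * g1) _ (gY.step hdu au) bX1 (fun i => cancel hdhu (by
      rw [← Matrix.mul_assoc, ← th_arr ar1, Matrix.mul_assoc, ← ar1, ← Matrix.mul_assoc, hcm,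
        ← Matrix.mul_assoc (h * u), ← ar1, Matrix.mul_assoc (X i) (h * u), ← th_arr ar1,
        Matrix.mul_assoc])) (fun q => hd (by
      have := congrArg det (th_arr (c := c) ar1)
      rw [det_mul, det_mul (h * u), q, mul_zero] at this
      exact (mul_eq_zero.1 this).resolve_right hdhu))
      (by simpa using (iso_of_arr eu au).symm.trans i2)
    have c2 : SC c C Y u X1 := sc_of_conn (r1 Y X1 u u' gY bY2 (fun i => (bX1 i).mono b1) eu au)
    have c1 : SC c C X (1 * h) Y := SC.refl.step h h' 1 Y ⟨i1, le_rfl, bh1.mono b3,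
      bh'.mono ((Nat.mul_le_mul_left _ sθ).trans b3), fun i => (bY2 i).mono b2⟩
    have := (c1.trans c2).trans c3
    rwa [Matrix.one_mul, Matrix.mul_assoc, ← Matrix.mul_assoc u, eu, Matrix.one_mul, e2] at this

end Pool.Agent.MP_993212_an.H46
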