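import Pool.Agent.MP_993212_an.H46.Spec

/-! Shortening of paths up to a relation with finitely many colours. -/

namespace Pool.Agent.MP_993212_an.H46

theorem path : PATH := by
  intro α step st E col T hf hb hc hT ht hs
  classical
  let D : ℕ → Finset ℕ := fun r => (Finset.range T).filter fun t =>
    ∃ r0 b' r1 b'', r0 ≤ r ∧ step r0 b' ∧ step r1 b'' ∧ E b' b'' ∧ col b'' = t
  have memD : ∀ r t, t ∈ D r ↔
      ∃ r0 b' r1 b'', r0 ≤ r ∧ step r0 b' ∧ step r1 b'' ∧ E b' b'' ∧ col b'' = t := by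
    intro r t
    simp only [D, Finset.mem_filter, Finset.mem_range, and_iff_right_iff_imp]
    rintro ⟨r0, b', r1, b'', -, -, -, -, rfl⟩
    exact hT _
  have mono : ∀ r r', r ≤ r' → D r ⊆ D r' := by
    intro r r' h t
    rw [memD, memD]
    rintro ⟨r0, b', r1, b'', h1, h2⟩
    exact ⟨r0, b', r1, b'', h1.trans h, h2⟩
  have stab : ∀ r, D (r + 1) ⊆ D r → D (r + 2) ⊆ D (r + 1) := by
    intro r h t
    rw [memD, memD]
    rintro ⟨r0, b', r1, b'', h1, h2, h3, h4, h5⟩
    rcases Nat.lt_or_ge r0 (r + 2) with h6 | h6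
    · exact ⟨r0, b', r1, b'', by omega, h2, h3, h4, h5⟩
    obtain rfl : r0 = r + 2 := by omega
    obtain ⟨b0, h7, h8⟩ := hb _ _ h2
    have h9 : col b0 ∈ D (r + 1) :=
      (memD _ _).2 ⟨r + 1, b0, r + 1, b0, le_rfl, h7, h7, hc _ _ _ _ h7 h7 rfl, rfl⟩
    obtain ⟨r2, b1, r3, b2, k1, k2, k3, k4, k5⟩ := (memD _ _).1 (h h9)
    obtain ⟨b3, k6, k7⟩ := hs _ _ _ _ _ k2 h7 (ht _ _ _ k4 (hc _ _ _ _ k3 h7 k5)) h8
    exact ⟨r2 + 1, b3, r1, b'', by omega, hf _ _ _ k2 k6, h3, ht _ _ _ k7 h4, h5⟩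
  have ex : ∃ r ≤ T, D (r + 1) ⊆ D r := by
    by_contra hne
    push Not at hne
    have : ∀ r, r ≤ T + 1 → r ≤ (D r).card := by
      intro r
      induction r with
      | zero => simp
      | succ r ih =>
        intro h
        have h1 : D r ⊂ D (r + 1) := ⟨mono _ _ (Nat.le_succ r), hne r (by omega)⟩
        have := Finset.card_lt_card h1
        have := ih (by omega)
        omega
    have h1 := this (T + 1) le_rfl
    have h2 : (D (T + 1)).card ≤ T :=
      (Finset.card_filter_le _ _).trans (Finset.card_range T).le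
    omega
  obtain ⟨r0, hr0, h0⟩ := ex
  have all : ∀ j, D (r0 + j + 1) ⊆ D (r0 + j) := by
    intro j
    induction j with
    | zero => exact h0
    | succ j ih => exact stab _ ih
  have all' : ∀ j, D (r0 + j) ⊆ D r0 := by
    intro j
    induction j with
    | zero => exact Finset.Subset.refl _
    | succ j ih => exact (all j).trans ih
  intro r b hb'
  have h1 : col b ∈ D r := (memD _ _).2 ⟨r, b, r, b, le_rfl, hb', hb', hc _ _ _ _ hb' hb' rfl, rfl⟩
  obtain ⟨r1, b1, r2, b2, k1, k2, k3, k4, k5⟩ :=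
    (memD _ _).1 (all' r (mono _ _ (Nat.le_add_left r r0) h1))
  exact ⟨r1, b1, k1.trans hr0, k2, ht _ _ _ k4 (hc _ _ _ _ k3 hb' k5)⟩

end Pool.Agent.MP_993212_an.H46
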