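import Pool.Agent.MP_993212_an.H46.Lat
import Pool.Agent.MP_993212_an.H46.Path
import Pool.Agent.MP_993212_an.H92.Export

/-! Bounded coset representatives of isomorphisms between semisimple tuples. -/

namespace Pool.Agent.MP_993212_an.H46

open Matrix H92

variable {n s : ℕ} {c : Fin s → ℤ}

theorem exists_code (n s C : ℕ) : ∃ code : Tup s n → ℕ,
    (∀ X, code X < (2 * C + 1) ^ (n * n * s) + 1) ∧
      ∀ X Y, (∀ i, Bd C (X i)) → (∀ i, Bd C (Y i)) → code X = code Y → X = Y := by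
  classical
  let T0 : Finset (Fin n → Fin n → ℤ) := Fintype.piFinset fun _ =>
    Fintype.piFinset fun _ => Finset.Icc (-(C : ℤ)) C
  let T : Finset (Fin s → Fin n → Fin n → ℤ) := Fintype.piFinset fun _ => T0
  have hT : T.card = (2 * C + 1) ^ (n * n * s) := by
    have : ((C : ℤ) + 1 - -(C : ℤ)).toNat = 2 * C + 1 := by omega
    simp only [T, T0, Fintype.card_piFinset, Int.card_Icc, this, Finset.prod_const,
      Finset.card_univ, Fintype.card_fin, ← pow_mul]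
  have mem : ∀ X : Tup s n, (∀ i, Bd C (X i)) → X ∈ T := fun X h =>
    Fintype.mem_piFinset.2 fun i => Fintype.mem_piFinset.2 fun k => Fintype.mem_piFinset.2 fun l =>
      Finset.mem_Icc.2 (abs_le.1 (h i k l))
  refine ⟨fun X => if h : X ∈ T then T.equivFin ⟨X, h⟩ else 0, fun X => ?_, fun X Y hX hY e => ?_⟩
  · dsimp only
    split_ifs with h
    · have := (T.equivFin ⟨X, h⟩).2
      omega
    · omega
  · simp only [dif_pos (mem X hX), dif_pos (mem Y hY)] at e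
    exact congrArg Subtype.val (T.equivFin.injective (Fin.ext e))

/-- states of the path argument -/
abbrev Sta (s n : ℕ) := Tup s n × MZ n × MZ n × ℕ

def st (c : Fin s → ℤ) (C : ℕ) (a b : Sta s n) : Prop :=
  ∃ h h' e, St c C a.1 h h' e b.1 ∧ b.2.1 = a.2.1 * h ∧ b.2.2.1 = h' * a.2.2.1 ∧
    b.2.2.2 = a.2.2.2 + e

def reach (c : Fin s → ℤ) (C : ℕ) (M : Tup s n) : ℕ → Sta s n → Prop
  | 0, a => a = (M, 1, 1, 0)
  | r + 1, b => ∃ a, reach c C M r a ∧ st c C a b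

theorem reach_inv {C N : ℕ} {M : Tup s n} (hn : n ≤ N) (hM : ∀ i, Bd C (M i)) :
    ∀ r a, reach c C M r a → Iso c M a.1 a.2.1 a.2.2.1 a.2.2.2 ∧ (∀ i, Bd C (a.1 i)) ∧
      sz a.2.1 ≤ N * (N * (N * C)) ^ r ∧ sz a.2.2.1 ≤ N * (N * (N * C)) ^ r ∧ a.2.2.2 ≤ r := by
  intro r
  induction r with
  | zero =>
    rintro a rfl
    exact ⟨Iso.refl M, hM, by simpa [sz_one] using hn, by simpa [sz_one] using hn, le_rfl⟩
  | succ r ih =>
    rintro ⟨Y, g, g', k⟩ ⟨a, ha, h, h', e, ⟨s1, s2, s3, s4, s5⟩, rfl, rfl, rfl⟩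
    obtain ⟨i1, -, i3, i4, i5⟩ := ih a ha
    refine ⟨i1.trans s1, s5, (sz_mul _ _).trans ?_, (sz_mul _ _).trans ?_, by simp only; omega⟩
    · rw [pow_succ, ← mul_assoc]
      exact Nat.mul_le_mul i3 (sz_of_bd s3 hn)
    · rw [pow_succ, ← mul_assoc, mul_comm]
      exact Nat.mul_le_mul i4 (sz_of_bd s4 hn)

theorem reach_of_sc {C : ℕ} {M Y : Tup s n} {g : MZ n} (h : SC c C M g Y) :
    ∃ r g' k, reach c C M r (Y, g, g', k) := by
  induction h with
  | refl => exact ⟨0, 1, 0, rfl⟩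
  | step h h' e Z _ hs ih =>
    obtain ⟨r, g', k, ih⟩ := ih
    exact ⟨r + 1, h' * g', k + e, _, ih, h, h', e, hs, rfl, rfl, rfl⟩

theorem short {C N : ℕ} {M M' : Tup s n} {H : MZ n → Prop} {col : MZ n → ℕ} (hn : n ≤ N)
    (hM : ∀ i, Bd C (M i)) (mul : ∀ x y, H x → H y → H (x * y))
    (sat : ∀ x y a b, th c M ^ a * x = th c M ^ b * y → H x → H y) (hcol : ∀ x, col x < N)
    (hc : ∀ x x' k y y' j, Iso c M M x x' k → Iso c M M y y' j → col x = col y → H (x * y'))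
    {g g' : MZ n} {k : ℕ} (hi : Iso c M M' g g' k) (h : SC c C M g M') :
    ∃ f f' j r, r ≤ ((2 * C + 1) ^ (n * n * s) + 1) * N ∧ Iso c M M' f f' j ∧
      sz f ≤ N * (N * (N * C)) ^ r ∧ sz f' ≤ N * (N * (N * C)) ^ r ∧ j ≤ r ∧ H (f * g') := by
  obtain ⟨code, c1, c2⟩ := exists_code n s C
  have : ∀ X : Tup s n, ∃ t : MZ n × MZ n × ℕ,
      ∀ p p' j, Iso c M X p p' j → Iso c M X t.1 t.2.1 t.2.2 := fun X => by
    by_cases q : ∃ t : MZ n × MZ n × ℕ, Iso c M X t.1 t.2.1 t.2.2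
    · obtain ⟨t, ht⟩ := q
      exact ⟨t, fun _ _ _ _ => ht⟩
    · exact ⟨(1, 1, 0), fun p p' j hp => absurd ⟨(p, p', j), hp⟩ q⟩
  choose ref href using this
  have mid : ∀ {X : Tup s n} {p p' q q' u v : MZ n} {a b : ℕ}, Iso c M X p p' a →
      Iso c M X q q' b → H (p * u * (v * q')) → ∀ j, u * v = th c X ^ j → H (p * q') := by
    intro X p p' q q' u v a b h1 _ h3 j e
    refine sat _ _ 0 j ?_ h3
    rw [pow_zero, Matrix.one_mul, Matrix.mul_assoc, ← Matrix.mul_assoc u, e, ← Matrix.mul_assoc,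
      ← th_pow h1.1, Matrix.mul_assoc]
  obtain ⟨r, g2, k2, hr⟩ := reach_of_sc h
  refine (path (Sta s n) (reach c C M) (st c C)
    (fun a b => a.1 = b.1 ∧ Iso c M a.1 a.2.1 a.2.2.1 a.2.2.2 ∧ Iso c M b.1 b.2.1 b.2.2.1 b.2.2.2 ∧
      H (a.2.1 * b.2.2.1))
    (fun a => code a.1 * N + col (a.2.1 * (ref a.1).2.1)) (((2 * C + 1) ^ (n * n * s) + 1) * N)
    (fun r a b ha hb => ⟨a, ha, hb⟩) (fun r b hb => hb) ?_ ?_ ?_ ?_ r _ hr).elim ?_
  rotate_right
  · rintro r' ⟨⟨Y, f, f', j⟩, h1, h2, h3, -, -, h4⟩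
    obtain rfl : Y = M' := h3
    obtain ⟨i1, -, i3, i4, i5⟩ := reach_inv hn hM _ _ h2
    have i6 := (reach_inv hn hM _ _ hr).1
    refine ⟨f, f', j, r', h1, i1, i3, i4, i5, sat _ _ k k2 ?_ h4⟩
    simp only at i1 i6 ⊢
    rw [← Matrix.mul_assoc, th_pow i1.1, ← hi.2.2.2, ← Matrix.mul_assoc _ f, th_pow i1.1,
      Matrix.mul_assoc, Matrix.mul_assoc, Matrix.mul_assoc, i6.2.2.1, th_pow hi.2.1]
  · rintro r r' ⟨X, p, p', a⟩ ⟨Y, q, q', b⟩ ha hb e
    obtain ⟨i1, i2, -⟩ := reach_inv hn hM _ _ ha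
    obtain ⟨j1, j2, -⟩ := reach_inv hn hM _ _ hb
    simp only at e i1 i2 j1 j2 ⊢
    have l1 := hcol (p * (ref X).2.1)
    have l2 := hcol (q * (ref Y).2.1)
    have e1 : code X = code Y := by
      have := congrArg (· / N) e
      simp only [mul_comm _ N] at this
      rwa [Nat.mul_add_div (by omega), Nat.mul_add_div (by omega), Nat.div_eq_of_lt l1,
        Nat.div_eq_of_lt l2, add_zero, add_zero] at this
    obtain rfl := c2 X Y i2 j2 e1
    have k1 := href X _ _ _ i1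
    exact ⟨rfl, i1, j1, mid i1 j1 (hc _ _ _ _ _ _ (i1.trans k1.symm) (j1.trans k1.symm)
      (by omega)) _ k1.2.2.2⟩
  · intro a
    have l1 := hcol (a.2.1 * (ref a.1).2.1)
    have l2 := Nat.mul_le_mul_right N (Nat.succ_le_of_lt (c1 a.1))
    rw [Nat.succ_mul] at l2
    omega
  · rintro ⟨X, p, p', a⟩ ⟨Y, q, q', b⟩ ⟨Z, u, u', d⟩ ⟨rfl, h1, h2, h3⟩ ⟨rfl, -, h5, h6⟩
    exact ⟨rfl, h1, h5, mid h1 h5 (mul _ _ h3 h6) _ h2.2.2.2⟩
  · rintro r r' ⟨X, p, p', a⟩ ⟨Y, q, q', b⟩ ⟨Z, u, u', d⟩ - - ⟨rfl, h1, h2, h3⟩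
      ⟨h, h', e, hs, rfl, rfl, rfl⟩
    refine ⟨(Z, p * h, h' * p', a + e), ⟨h, h', e, hs, rfl, rfl, rfl⟩, rfl, h1.trans hs.1,
      h2.trans hs.1, sat _ _ e 0 ?_ h3⟩
    simp only at h1 hs ⊢
    rw [pow_zero, Matrix.one_mul, Matrix.mul_assoc, ← Matrix.mul_assoc h, hs.1.2.2.1,
      ← Matrix.mul_assoc, th_pow h1.1, Matrix.mul_assoc]

theorem si : SI := by
  obtain ⟨K, hK, rb⟩ := H92.rb
  let B : ℕ → ℕ := fun N => xb N N
  let T : ℕ → ℕ := fun N => K N * (N * (N * (N * B N)))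
  let B2 : ℕ → ℕ := fun N => K N * (N * (N * B N) * (N * (N * T N))) + B N + N
  let C : ℕ → ℕ := fun N => bnd (B2 N) (B2 N) (B2 N) + B2 N + T N
  let R : ℕ → ℕ := fun N => ((2 * C N + 1) ^ (N * N * N) + 1) * N
  have pB : PB B := pb_xb
  have pT : PB T := hK.mul (PB.id.mul (PB.id.mul (PB.id.mul pB)))
  have pB2 : PB B2 :=
    ((hK.mul ((PB.id.mul (PB.id.mul pB)).mul (PB.id.mul (PB.id.mul pT)))).add pB).add PB.id
  have pC : PB C := ((pb_bnd.comp pB2).add pB2).add pT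
  have pR : PB R := ((((PB.const 2).mul pC).pow ((PB.id.mul PB.id).mul PB.id)).add
    (PB.const 1)).mul PB.id
  refine ⟨fun N => N * (N * (N * C N) + 1) ^ R N + R N,
    (PB.id.mul ((PB.id.mul (PB.id.mul pC)).pow pR)).add pR, ?_⟩
  intro n s M M' c H col N hn hs hM hM' hc hS hcm hd mul sat hcol hcc g g' k hi
  have bM : ∀ i, Bd N (M i) := fun i => bd_of_sz (hM i)
  have NB : N ≤ B N := le_xb N N
  have kK : K n ≤ K N := hK.2 hn
  have sc : SC c (C N) M g M' := by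
    refine lat (M := M) (K := K N) (N := N) (B := B N) (B2 := B2 N) (fun L => ?_) ?_ ?_ hn hc
      (fun i => (bd_of_sz (hM' i)).mono NB) (by simp only [B2]; omega) (by simp only [C]; omega)
      (by simp only [C, T]; omega) (by simp only [B2, T]; omega) k M g g' ⟨1, 1, by simp, by simp⟩
      (fun i => (bM i).mono NB) hcm hd hi
    · obtain ⟨r, b, h1, h2, h3, h4⟩ := rb n L
      exact ⟨r, b, h1, h2, h3, fun t k => (h4 t k).trans (Nat.mul_le_mul_right _ kK)⟩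
    · rintro Y ⟨P, Q, e, ar⟩
      obtain ⟨h, h', X, e1, a, b⟩ := bounded_rep hS bM e ar
      exact ⟨h, h', X, e1, a, fun i => (b i).mono (xb_mono hn le_rfl)⟩
    · rintro X Y g g' ⟨P, Q, e, ar⟩ hX hY e1 a
      exact (connect' (hn.trans (by simp only [B2]; omega)) (hs.trans (by simp only [B2]; omega))
        (SSq.conj hS e ar) hX hY e1 a).mono (by simp only [C]; omega)
  obtain ⟨f, f', j, r, h1, h2, h3, h4, h5, h6⟩ := short hn
    (fun i => (bM i).mono (show N ≤ C N by simp only [C, B2]; omega)) mul sat hcol hcc hi sc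
  have hr : r ≤ R N := h1.trans (Nat.mul_le_mul_right _ (Nat.succ_le_succ
    (Nat.pow_le_pow_right (Nat.succ_pos _) (by gcongr))))
  have hp : N * (N * (N * C N)) ^ r ≤ N * (N * (N * C N) + 1) ^ R N :=
    Nat.mul_le_mul_left _ ((Nat.pow_le_pow_left (Nat.le_succ _) _).trans
      (Nat.pow_le_pow_right (Nat.succ_pos _) hr))
  exact ⟨f, f', j, h2, by simp only; omega, by simp only; omega, by simp only; omega, h6⟩

end Pool.Agent.MP_993212_an.H46
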