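import Pool.Agent.MP_993212_an.H46.Spec
import Pool.Agent.MP_993212_an.H92.RDefs

/-! Statements involving semisimple tuples. -/

namespace Pool.Agent.MP_993212_an.H46

open Matrix

/-- the distinguished central combination -/
def th {s n : ℕ} (c : Fin s → ℤ) (M : Fin s → MZ n) : MZ n := ∑ i, c i • M i

/-- isomorphisms of tuples after inverting the distinguished combination -/
def Iso {s n : ℕ} (c : Fin s → ℤ) (M M' : Fin s → MZ n) (g g' : MZ n) (k : ℕ) : Prop :=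
  (∀ i, M i * g = g * M' i) ∧ (∀ i, M' i * g' = g' * M i) ∧ g * g' = th c M ^ k ∧
    g' * g = th c M' ^ k

/-- bounded coset representatives of isomorphisms between semisimple tuples -/
def SI : Prop :=
  ∃ F, PB F ∧ ∀ (n s : ℕ) (M M' : Fin s → MZ n) (c : Fin s → ℤ) (H : MZ n → Prop)
    (col : MZ n → ℕ) (N : ℕ), n ≤ N → s ≤ N → (∀ i, sz (M i) ≤ N) → (∀ i, sz (M' i) ≤ N) →
    vs c ≤ N → H92.SS M → (∀ i, th c M * M i = M i * th c M) → (th c M).det ≠ 0 →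
    (∀ x y, H x → H y → H (x * y)) →
    (∀ x y a b, th c M ^ a * x = th c M ^ b * y → H x → H y) → (∀ x, col x < N) →
    (∀ x x' k y y' j, Iso c M M x x' k → Iso c M M y y' j → col x = col y → H (x * y')) →
    ∀ g g' k, Iso c M M' g g' k → ∃ f f' j, Iso c M M' f f' j ∧ sz f ≤ F N ∧ sz f' ≤ F N ∧
      j ≤ F N ∧ H (f * g')

/-- the regular representation of the quotient by the radical, in bounded coordinates -/
def REG : Prop :=
  ∃ F, PB F ∧ ∀ (ι : Type) [Fintype ι] [DecidableEq ι] (L : Subring (Matrix ι ι ℤ)) (θ : L)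
    (s : ℕ) (a : Fin s → L) (N : ℕ), Fintype.card ι ≤ N → s ≤ N →
    (∀ i, sz (a i : Matrix ι ι ℤ) ≤ N) → sz (θ : Matrix ι ι ℤ) ≤ N →
    (∀ x, x ∈ Submodule.span ℤ (Set.range a)) → (∀ x, θ * x = x * θ) →
    ∃ (r : ℕ) (ρ : L →+* MZ r) (lam : Fin r → MZ r) (c : Fin r → ℤ), r ≤ N ∧
      (∀ i, sz (lam i) ≤ F N) ∧ vs c ≤ F N ∧
      (∀ x, sz (ρ x) ≤ F N * sz (x : Matrix ι ι ℤ)) ∧ (∀ x, ρ x = 0 ↔ Jr θ x) ∧
      (∀ i x, lam i * ρ x = ρ x * lam i) ∧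
      (∀ g : MZ r, (∀ i, lam i * g = g * lam i) →
        ∃ x, ρ x = g ∧ sz (x : Matrix ι ι ℤ) ≤ F N * sz g) ∧
      th c lam = ρ θ ∧ (ρ θ).det ≠ 0 ∧ H92.SS lam

end Pool.Agent.MP_993212_an.H46
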