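import Pool.Agent.MP_993212_an.H46.Eng
import Pool.Agent.MP_993212_an.H46.Si
import Pool.Agent.MP_993212_an.H92.Reg
import Pool.Agent.MP_993212_an.H95.Nil
import Pool.Agent.MP_993212_an.H85.Uni
import Pool.Agent.MP_993212_an.H35.App
import Pool.Agent.MP_993212_an.H34.Final

/-! The decision procedure from the four interface statements. -/

namespace Pool.Agent.MP_993212_an.H46

theorem engine : ENG :=
  eng (H92.reg H92.rb H92.sol H95.nil) H95.nil (H95.jg H92.ker) H85.uni si

theorem goal_of (b1 : B1) (b2 : B2) (p1 : P1) (p2 : P2) : Goal :=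
  H34.final b1 b2 p1 (H35.app engine H92.ker b2 p2)

end Pool.Agent.MP_993212_an.H46
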