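import Pool.Agent.MP_993212_an.H46.Ext

/-! Room in the column and the row of the hub: moves and absorption. -/

set_option linter.unusedSectionVars false

namespace Pool.Agent.MP_993212_an.H46

open Matrix Polynomial H16 H92 Finset H18 H15

variable {ρ : ℝ}

theorem abs_coeff_le (a : ℤ[X]) (k : ℕ) : |(a.coeff k : ℝ) * ρ ^ k| ≤ nz ρ a := by
  rw [nz_eq (T := insert k a.support) (subset_insert _ _)]
  exact single_le_sum (f := fun k => |(a.coeff k : ℝ) * ρ ^ k|) (fun _ _ => abs_nonneg _)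
    (mem_insert_self _ _)

theorem sum_range_le_nz (a : ℤ[X]) (n : ℕ) :
    ∑ k ∈ range n, |(a.coeff k : ℝ) * ρ ^ k| ≤ nz ρ a := by
  rw [nz_eq (T := range n ∪ a.support) subset_union_right]
  exact sum_le_sum_of_subset_of_nonneg subset_union_left fun _ _ _ => abs_nonneg _

/-- the coefficients of `u / (1 - c X ^ h)` -/
noncomputable def qs (u : ℤ[X]) (c : ℤ) (h : ℕ) (k : ℕ) : ℤ :=
  u.coeff k + if _ : 0 < h ∧ h ≤ k then c * qs u c h (k - h) else 0
termination_by k
decreasing_by omega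

theorem Wd_nn (h : ℕ) : nn (Wd h) := nn_sum fun _ _ => nn_X_pow _

theorem Wd_dvd (h : ℕ) : X ^ h ∣ Wd h := dvd_sum fun i _ => pow_dvd_pow _ (h.le_add_right i)

theorem Wd_coeff {h m k : ℕ} (h1 : m + h ≤ k) (h2 : k < m + 2 * h) :
    1 ≤ (X ^ m * Wd h).coeff k := by
  have e : X ^ m * Wd h = ∑ i ∈ range h, X ^ (m + (h + i)) := by
    simp only [Wd, mul_sum, ← pow_add]
  have m1 : k - m - h ∈ range h := mem_range.2 (by omega)
  rw [e, ← add_sum_erase _ _ m1, coeff_add, coeff_X_pow, if_pos (by omega)]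
  linarith [nn_sum (T := (range h).erase (k - m - h)) (fun i _ => nn_X_pow (m + (h + i))) k]

theorem ev_Wd (h0 : 0 ≤ ρ) (h1 : ρ ≤ 1) (h : ℕ) : ev ρ (Wd h) ≤ h := by
  rw [Wd, map_sum]
  refine (sum_le_card_nsmul _ _ 1 fun i _ => ?_).trans (by simp)
  rw [map_pow, ev_X]
  exact pow_le_one₀ h0 h1

theorem room (h0 : 0 < ρ) (h1 : ρ ≤ 1) {h c m : ℕ} (hh : 1 ≤ h) (hc : (c : ℝ) * ρ ^ h = 1)
    {x y : ℤ[X]} (hx : nn (x - X ^ m * Wd h)) (hy : X ^ (m + h) ∣ y)
    (hy2 : nz ρ y ≤ ρ ^ (m + 2 * h) / 2) (n : ℕ) : ∃ π, nn π ∧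
      nn (x - y - (1 - (c : ℤ[X]) * X ^ h) * π) ∧
      ∀ k, m + h ≤ k → k < n → ρ ^ (m + 2 * h) / 2 ≤ π.coeff k * ρ ^ k := by
  have a1 : ∀ k, (if m + h ≤ k then ρ ^ (m + 2 * h) else 0) -
      ∑ j ∈ range (k + 1), |(y.coeff j : ℝ) * ρ ^ j| ≤ qs (x - y) c h k * ρ ^ k := fun k => by
    induction k using Nat.strong_induction_on with
    | _ k ih =>
      have b1 : (0 : ℝ) ≤ (x.coeff k - (X ^ m * Wd h).coeff k : ℝ) := by
        have := hx k
        rw [coeff_sub] at this
        exact_mod_cast this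
      have b2 : (0 : ℝ) ≤ (X ^ m * Wd h).coeff k := by
        exact_mod_cast (nn_X_pow m).mul (Wd_nn h) k
      have b3 := le_abs_self ((y.coeff k : ℝ) * ρ ^ k)
      have b4 : 0 < ρ ^ k := pow_pos h0 k
      have b5 : ∀ j, 0 ≤ ∑ j ∈ range j, |(y.coeff j : ℝ) * ρ ^ j| := fun j =>
        sum_nonneg fun _ _ => abs_nonneg _
      rw [qs, sum_range_succ, coeff_sub]
      by_cases e : 0 < h ∧ h ≤ k
      · have b6 := ih (k - h) (by omega)
        have b7 : ∑ j ∈ range (k - h + 1), |(y.coeff j : ℝ) * ρ ^ j| ≤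
            ∑ j ∈ range k, |(y.coeff j : ℝ) * ρ ^ j| :=
          sum_le_sum_of_subset_of_nonneg (range_mono (by omega)) fun _ _ _ => abs_nonneg _
        have b8 : ρ ^ k = ρ ^ h * ρ ^ (k - h) := by rw [← pow_add]; congr 1; omega
        have b9 : ((c : ℤ) * qs (x - y) c h (k - h) : ℝ) * ρ ^ k =
            qs (x - y) c h (k - h) * ρ ^ (k - h) := by
          rw [b8]; push_cast; linear_combination (qs (x - y) c h (k - h) * ρ ^ (k - h) : ℝ) * hc
        rw [dif_pos e]
        push_cast at b9 ⊢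
        have c1 : (if m + h ≤ k then ρ ^ (m + 2 * h) else 0) ≤
            (X ^ m * Wd h).coeff k * ρ ^ k + if m + h ≤ k - h then ρ ^ (m + 2 * h) else 0 := by
          split_ifs with e1 e2 e2
          · nlinarith
          · have : (1 : ℝ) ≤ (X ^ m * Wd h).coeff k := by exact_mod_cast Wd_coeff e1 (by omega)
            have := pow_le_pow_of_le_one h0.le h1 (show k ≤ m + 2 * h by omega)
            nlinarith
          · omega
          · nlinarith
        nlinarith
      · rw [dif_neg e, if_neg (by omega)]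
        push_cast
        nlinarith [b5 k]
  have a2 : ∀ k, m + h ≤ k → ρ ^ (m + 2 * h) / 2 ≤ qs (x - y) c h k * ρ ^ k := fun k e => by
    have := a1 k
    rw [if_pos e] at this
    linarith [sum_range_le_nz (ρ := ρ) y (k + 1)]
  have a3 : ∀ k, 0 ≤ qs (x - y) c h k := fun k => by
    have : (0 : ℝ) ≤ qs (x - y) c h k * ρ ^ k := by
      by_cases e : m + h ≤ k
      · exact le_trans (by positivity) (a2 k e)
      · have := a1 k
        rwa [if_neg e, sum_eq_zero fun j hj => by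
          rw [X_pow_dvd_iff.1 hy j (by have := mem_range.1 hj; omega)]; simp, sub_zero] at this
    exact_mod_cast nonneg_of_mul_nonneg_left this (pow_pos h0 k)
  obtain ⟨π, e⟩ : ∃ π : ℤ[X], ∀ k, π.coeff k =
      if k < n + (x - y).natDegree + 1 then qs (x - y) c h k else 0 :=
    ⟨∑ k ∈ range (n + (x - y).natDegree + 1), monomial k (qs (x - y) c h k), fun k => by
      simp only [finsetSum_coeff, coeff_monomial, sum_ite_eq', mem_range]⟩
  have a4 : nn π := fun k => by rw [e]; split_ifs; exacts [a3 k, le_rfl]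
  refine ⟨π, a4, fun k => ?_, fun k e1 e2 => by rw [e, if_pos (by omega)]; exact a2 k e1⟩
  have e2 : (x - y - (1 - (c : ℤ[X]) * X ^ h) * π).coeff k =
      (x - y).coeff k - π.coeff k + c * if h ≤ k then π.coeff (k - h) else 0 := by
    rw [sub_mul, one_mul, mul_assoc, coeff_sub, coeff_sub π, coeff_natCast_mul, coeff_X_pow_mul']
    ring
  rw [e2, e]
  split_ifs with e3 e4 e4
  · rw [e, if_pos (by omega), qs, dif_pos ⟨hh, e4⟩]; omega
  · rw [qs, dif_neg (by omega)]; omega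
  · rw [coeff_eq_zero_of_natDegree_lt (by omega)]
    simpa using mul_nonneg (Int.natCast_nonneg c) (a4 _)
  · rw [coeff_eq_zero_of_natDegree_lt (by omega)]; simp

theorem absorb (h0 : 0 < ρ) {h m n : ℕ} {π y : ℤ[X]} (h1 : nn π)
    (h2 : ∀ k, h ≤ k → k < n → ρ ^ (2 * h) / 2 ≤ π.coeff k * ρ ^ k) (hy : X ^ (m + h) ∣ y)
    (hy2 : nz ρ y ≤ ρ ^ (m + 2 * h) / 2) (hn : y.natDegree < n) : nn (X ^ m * π - y) := fun k => by
  rw [coeff_sub, sub_nonneg]
  by_cases e : m + h ≤ k ∧ k < n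
  · have a1 := h2 (k - m) (by omega) (by omega)
    have a2 := (le_abs_self _).trans ((abs_coeff_le (ρ := ρ) y k).trans hy2)
    have a3 : ρ ^ k = ρ ^ m * ρ ^ (k - m) := by rw [← pow_add]; congr 1; omega
    have a4 : (y.coeff k : ℝ) * ρ ^ k ≤ π.coeff (k - m) * ρ ^ k := by
      rw [pow_add] at a2
      have := mul_le_mul_of_nonneg_left a1 (pow_pos h0 m).le
      rw [a3] at a2 ⊢
      nlinarith
    rw [coeff_X_pow_mul', if_pos (by omega)]
    exact_mod_cast le_of_mul_le_mul_right a4 (pow_pos h0 k)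
  · have : y.coeff k = 0 := by
      by_cases e2 : k < m + h
      · exact X_pow_dvd_iff.1 hy k e2
      · exact coeff_eq_zero_of_natDegree_lt (by omega)
    rw [this]
    exact (nn_X_pow m).mul h1 k

variable {G : Type} [AddCommGroup G] [Module ℤ[X] G] {I : Type} [Fintype I] [DecidableEq I]
  {N N' : Matrix I I ℤ[X]} {ξ : I → G} {z : I} {g : ℤ[X]} {β β' π s : I → ℤ[X]}

/-- a matrix with one column -/
noncomputable def Pz (z : I) (π : I → ℤ[X]) : Matrix I I ℤ[X] :=
  of fun i l => if l = z then π i else 0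

/-- the data of a virtually positive system -/
structure Vz (z : I) (g : ℤ[X]) (β π : I → ℤ[X]) (N : Matrix I I ℤ[X]) : Prop where
  g0 : nn g ∧ X ∣ g
  b0 : ∀ l, nn (β l) ∧ X ∣ β l
  z0 : ∀ i l, X ∣ N i l
  p0 : ∀ i, nn (π i)
  col : ∀ i, nn (N i z - (if i = z then g else 0) - (1 - g) * π i)
  oth : ∀ i l, l ≠ z → nn (N i l - (if i = z then β l else 0) + β l * π i)

theorem Vz.nP (h : Vz z g β π N) : NN (Pz z π) := fun i l => by
  rw [Pz, of_apply]; split_ifs
  exacts [h.p0 i, nn_zero]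

theorem Vz.nL (h : Vz z g β π N) : NN (Lb z g β) := fun i l => by
  rw [Lb, of_apply]; split_ifs
  exacts [h.g0.1, (h.b0 l).1, nn_zero]

theorem Vz.zL (h : Vz z g β π N) : H92.cf 0 (Lb z g β) = 0 := cf_zero fun i l => by
  rw [Lb, of_apply]; split_ifs
  exacts [h.g0.2, (h.b0 l).2, dvd_zero _]

theorem Vz.nT (h : Vz z g β π N) : NN ((1 - Pz z π) * (1 - Lb z g β) - (1 - N)) := fun i l => by
  have e : (1 - Pz z π) * (1 - Lb z g β) - (1 - N) = N - Lb z g β - Pz z π + Pz z π * Lb z g β := by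
    noncomm_ring
  have e2 : (Pz z π * Lb z g β) i l = π i * if l = z then g else β l := by
    rw [Matrix.mul_apply, sum_eq_single z (fun u _ hu => by simp [Pz, hu]) (by simp)]
    simp [Pz, Lb]
  rw [e, Matrix.add_apply, Matrix.sub_apply, Matrix.sub_apply, e2, Lb, Pz, of_apply, of_apply]
  by_cases a : l = z
  · subst a
    refine (congrArg nn ?_).mp (h.col i)
    simp only [if_true]
    ring
  · refine (congrArg nn ?_).mp (h.oth i l a)
    simp only [if_neg a]
    ring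

theorem Vz.nil (h : Vz z g β π N) : IsNilpotent (1 - H92.cf 0 (1 - N)) := by
  have : H92.cf 0 (1 - N) = 1 := by
    ext i j
    have := X_dvd_iff.1 (h.z0 i j)
    simp only [H92.cf, Matrix.sub_apply, map_apply, coeff_sub, one_apply, this]
    split_ifs <;> simp
  rw [this, sub_self]
  exact IsNilpotent.zero

theorem Vz.vp (h : Vz z g β π N) : VP (1 - N) (Lb z g β) :=
  ⟨h.nL, h.zL, ⟨_, _, h.nP, h.nT, sub_sub_cancel _ _⟩, h.nil⟩

theorem Vz.sw (mv : Moves) (h : Vz z g β π N) (h' : Vz z g β' π N) (r : act (1 - N) ξ = 0) :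
    Eqv (1 - N) (Lb z g β) ξ (1 - N) (Lb z g β') ξ :=
  mv.ll2 G I _ _ _ _ ξ h.vp r h'.nL h'.zL h.nP h.nT h'.nT

theorem Vz.start (mv : Moves) (o : Ho N ξ) (h : Vz z g β 0 N) :
    Eqv (1 - N) 0 ξ (1 - N) (Lb z g β) ξ := by
  have e : Pz z 0 = 0 := by ext1 i l; simp [Pz]
  have := h.nT
  rw [e] at this
  exact mv.ll2 G I _ _ _ 0 ξ o.vp o.rel h.nL h.zL (fun _ _ => nn_zero) (by simpa using o.nn) this

/-- the new column -/
noncomputable def ncol (z : I) (s : I → ℤ[X]) (N : Matrix I I ℤ[X]) : Matrix I I ℤ[X] :=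
  of fun i l => if l = z then N i z + s i - ∑ j, N i j * s j else N i l

/-- the new row -/
noncomputable def nrow (z : I) (s : I → ℤ[X]) (N : Matrix I I ℤ[X]) : Matrix I I ℤ[X] :=
  of fun i l => if i = z then N z l + s l - ∑ u, s u * N u l else N i l

theorem ncol_eq : 1 - ncol z s N = (1 - N) * (1 - vecMulVec s (Pi.single z 1)) := by
  have e : (1 - N) * (1 - vecMulVec s (Pi.single z 1)) = 1 - (N + vecMulVec s (Pi.single z 1) -
      N * vecMulVec s (Pi.single z 1)) := by noncomm_ring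
  rw [e]
  congr 1
  ext1 i l
  simp only [ncol, of_apply, Matrix.sub_apply, Matrix.add_apply, Matrix.mul_apply, vecMulVec_apply,
    Pi.single_apply]
  split_ifs with a <;> simp [a]

theorem nrow_eq : 1 - nrow z s N = (1 - vecMulVec (Pi.single z 1) s) * (1 - N) := by
  have e : (1 - vecMulVec (Pi.single z 1) s) * (1 - N) = 1 - (N + vecMulVec (Pi.single z 1) s -
      vecMulVec (Pi.single z 1) s * N) := by noncomm_ring
  rw [e]
  congr 1
  ext1 i l
  simp only [nrow, of_apply, Matrix.sub_apply, Matrix.add_apply, Matrix.mul_apply, vecMulVec_apply,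
    Pi.single_apply]
  split_ifs with a <;> simp [a]

theorem Vz.mcol (mv : Moves) (h : Vz z g β π N) (h' : Vz z g β π (ncol z s N)) (hs : s z = 0)
    (r : act (1 - N) ξ = 0) :
    Eqv (1 - N) (Lb z g β) ξ (1 - ncol z s N) (Lb z g β) fun i => ξ i + s i • ξ z := by
  have e : 1 - ncol z s N = (1 - N) * (1 + -vecMulVec s (Pi.single z 1)) := by
    rw [ncol_eq, sub_eq_add_neg 1 (vecMulVec _ _)]
  have e2 : (fun i => ξ i + s i • ξ z) = act (1 - -vecMulVec s (Pi.single z 1)) ξ := by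
    funext i
    simp [act, add_smul, sum_add_distrib, one_apply, vecMulVec_apply, Pi.single_apply]
  rw [e, e2]
  refine mv.col G I _ _ _ (Pz z π) ξ (· = z) h.vp r (fun a b hab => ?_) h.nP h.nT (e ▸ h'.nT)
    (e ▸ h'.nil)
  rw [Matrix.neg_apply, vecMulVec_apply, Pi.single_apply] at hab
  exact ⟨fun x => hab (by simp [x, hs]), by_contra fun x => hab (by simp [x])⟩

theorem Vz.mrow (mv : Moves) {π' : I → ℤ[X]} (h : Vz z g β π N) (h' : Vz z g β π' (nrow z s N))
    (hs : s z = 0) (r : act (1 - N) ξ = 0) :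
    Eqv (1 - N) (Lb z g β) ξ (1 - nrow z s N) (Lb z g β) ξ := by
  have e : 1 - nrow z s N = (1 + -vecMulVec (Pi.single z 1) s) * (1 - N) := by
    rw [nrow_eq, sub_eq_add_neg 1 (vecMulVec _ _)]
  rw [e]
  refine mv.row G I _ _ _ ξ (· = z) h.vp r (fun a b hab => ?_) (e ▸ h'.vp)
  rw [Matrix.neg_apply, vecMulVec_apply, Pi.single_apply] at hab
  exact ⟨by_contra fun x => hab (by simp [x]), fun x => hab (by simp [x, hs])⟩

end Pool.Agent.MP_993212_an.H46
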